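import Pool.Agent.Lib.MP_38bb4c_an.Converse

/-!
# `K 0` positive semidefinite implies that all zeros of `Xi` are real: conclusion
-/

open Complex MeasureTheory Set Filter Topology

namespace Pool.Agent.Weyl

theorem XiData.test_bound (H : XiData) (z : ℂ) (hz : 0 < z.im) : ∃ C > 0, ∀ t a : ℝ,
    ‖((Phi (a + t) : ℝ) : ℂ) * Complex.exp (-(I * z * a))‖ ≤
      C * Real.exp (-(z.im * t)) * Real.exp (-(1 * |a + t|)) ∧
    ‖(((a + t) * Phi (a + t) : ℝ) : ℂ) * Complex.exp (-(I * z * a))‖ ≤
      C * Real.exp (-(z.im * t)) * Real.exp (-(1 * |a + t|)) := by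
  obtain ⟨C, hC, h⟩ := H.Phi_exp (z.im + 1) (by linarith)
  refine ⟨C, hC, fun t a => ?_⟩
  have hre : (-(I * z * a)).re = z.im * a := by simp
  have hn : ‖Complex.exp (-(I * z * a))‖ ≤ Real.exp (-(z.im * t)) * Real.exp (z.im * |a + t|) := by
    rw [Complex.norm_exp, hre, ← Real.exp_add]
    apply Real.exp_le_exp.mpr
    have := mul_le_mul_of_nonneg_left (le_abs_self (a + t)) hz.le
    linarith
  have hp := H.pos (a + t)
  have hu := h (a + t)
  have e : Real.exp ((z.im + 1) * |a + t|) = Real.exp (z.im * |a + t|) * Real.exp |a + t| := by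
    rw [← Real.exp_add]; ring_nf
  rw [e] at hu
  have hE0 : 0 < Real.exp (z.im * |a + t|) := Real.exp_pos _
  have h1 : 1 ≤ Real.exp |a + t| := Real.one_le_exp (abs_nonneg _)
  have h2 : |a + t| ≤ Real.exp |a + t| := by
    have := Real.add_one_le_exp |a + t|
    linarith
  have key : ∀ k : ℝ, 0 ≤ k → k ≤ Real.exp |a + t| →
      k * Phi (a + t) * ‖Complex.exp (-(I * z * a))‖ ≤
        C * Real.exp (-(z.im * t)) * Real.exp (-(1 * |a + t|)) := by
    intro k hk hk2
    calc k * Phi (a + t) * ‖Complex.exp (-(I * z * a))‖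
        ≤ Real.exp |a + t| * Phi (a + t) *
          (Real.exp (-(z.im * t)) * Real.exp (z.im * |a + t|)) := by
          gcongr
      _ = Real.exp (-(z.im * t)) *
          (Phi (a + t) * (Real.exp (z.im * |a + t|) * Real.exp |a + t|)) := by ring
      _ ≤ Real.exp (-(z.im * t)) * (C * Real.exp (-(1 * |a + t|))) := by gcongr
      _ = _ := by ring
  constructor
  · rw [norm_mul, Complex.norm_real, Real.norm_eq_abs, abs_of_pos hp]
    have := key 1 zero_le_one h1
    rwa [one_mul] at this
  · rw [norm_mul, Complex.norm_real, Real.norm_eq_abs, abs_mul, abs_of_pos hp]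
    exact key _ (abs_nonneg _) h2

theorem XiData.form_nonneg (H : XiData) (h : PSD (K 0)) (z : ℂ) (hz : 0 < z.im) :
    0 ≤ (Xi z * (starRingEnd ℂ) (I * deriv Xi z)).re := by
  obtain ⟨C, hC, hb⟩ := H.test_bound z hz
  set φ : ℝ → ℝ → ℂ := fun t a => ((Phi (a + t) : ℝ) : ℂ) * Complex.exp (-(I * z * a)) with hφ
  set ψ : ℝ → ℝ → ℂ := fun t a =>
    (((a + t) * Phi (a + t) : ℝ) : ℂ) * Complex.exp (-(I * z * a)) with hψ
  have hcont := H.cont
  have hφc : ∀ t, Continuous (φ t) := by intro t; rw [hφ]; fun_prop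
  have hψc : ∀ t, Continuous (ψ t) := by intro t; rw [hψ]; fun_prop
  have hφt : ∀ a, Continuous (fun t => φ t a) := by intro a; rw [hφ]; fun_prop
  have hψt : ∀ a, Continuous (fun t => ψ t a) := by intro a; rw [hψ]; fun_prop
  set M : ℝ := ∫ u : ℝ, Real.exp (-(1 * |u|)) with hM
  have hM0 : 0 ≤ M := integral_nonneg fun _ => (Real.exp_pos _).le
  set y : ℝ := z.im with hy
  -- nonnegativity for every N
  have hnn : ∀ N : ℕ, N ≠ 0 →
      0 ≤ ∫ t in Ioi (0 : ℝ), (RS N (φ t) * (starRingEnd ℂ) (RS N (ψ t))).re := by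
    intro N hN
    set a : Fin (2 * N * N) → ℝ := fun i => (i : ℝ) / N - N with ha
    set c : Fin (2 * N * N) → ℂ := fun i => ((1 / (N : ℝ) : ℝ) : ℂ) *
      Complex.exp (-(I * z * (a i : ℝ))) with hc
    have h1 := (psd_iff _ (H.K_symm 0)).mp h (2 * N * N) a c
    rw [H.K0_form] at h1
    have h2 : ∀ t : ℝ, RS N (φ t) = ∑ i, c i * ((Phi (a i + t) : ℝ) : ℂ) := by
      intro t
      rw [RS_eq N hN]
      refine Finset.sum_congr rfl fun i _ => ?_
      rw [hφ, hc]
      simp only
      ring
    have h3 : ∀ t : ℝ, RS N (ψ t) = ∑ i, c i * (((a i + t) * Phi (a i + t) : ℝ) : ℂ) := by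
      intro t
      rw [RS_eq N hN]
      refine Finset.sum_congr rfl fun i _ => ?_
      rw [hψ, hc]
      simp only
      ring
    simp only [h2, h3]
    linarith
  have hRSc : ∀ N : ℕ, N ≠ 0 → Continuous (fun t => RS N (φ t)) ∧
      Continuous (fun t => RS N (ψ t)) := by
    intro N hN
    constructor
    · have : (fun t => RS N (φ t)) = fun t =>
          ∑ i : Fin (2 * N * N), ((1 / (N : ℝ) : ℝ) : ℂ) * φ t ((i : ℝ) / N - N) :=
        funext fun t => RS_eq N hN _
      rw [this]
      exact continuous_finsetSum _ fun i _ => continuous_const.mul (hφt _)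
    · have : (fun t => RS N (ψ t)) = fun t =>
          ∑ i : Fin (2 * N * N), ((1 / (N : ℝ) : ℝ) : ℂ) * ψ t ((i : ℝ) / N - N) :=
        funext fun t => RS_eq N hN _
      rw [this]
      exact continuous_finsetSum _ fun i _ => continuous_const.mul (hψt _)
  have hCt : ∀ t : ℝ, 0 ≤ C * Real.exp (-(y * t)) := fun t => by positivity
  -- the limit
  have hlim : Tendsto (fun N : ℕ =>
      ∫ t in Ioi (0 : ℝ), (RS N (φ t) * (starRingEnd ℂ) (RS N (ψ t))).re) atTop
      (𝓝 (∫ t in Ioi (0 : ℝ), ((∫ a, φ t a) * (starRingEnd ℂ) (∫ a, ψ t a)).re)) := by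
    refine tendsto_integral_filter_of_dominated_convergence
      (fun t => (C * Real.exp 1 * M) * (C * Real.exp 1 * M) * Real.exp (-(2 * y) * t)) ?_ ?_ ?_ ?_
    · filter_upwards [eventually_ne_atTop 0] with N hN
      have h1 := (hRSc N hN).1
      have h2 := (hRSc N hN).2
      have h3 : Continuous (fun t => (RS N (φ t) * (starRingEnd ℂ) (RS N (ψ t))).re) :=
        Complex.continuous_re.comp (h1.mul (Complex.continuous_conj.comp h2))
      exact h3.aestronglyMeasurable
    · filter_upwards [eventually_ne_atTop 0] with N hN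
      refine Eventually.of_forall fun t => ?_
      have b1 := RS_norm_le N hN (φ t) (C * Real.exp (-(y * t))) t
        (fun a => (hb t a).1) (hCt t)
      have b2 := RS_norm_le N hN (ψ t) (C * Real.exp (-(y * t))) t
        (fun a => (hb t a).2) (hCt t)
      rw [← hM] at b1 b2
      rw [Real.norm_eq_abs]
      refine (Complex.abs_re_le_norm _).trans ?_
      rw [norm_mul, RCLike.norm_conj]
      have e : Real.exp (-(2 * y) * t) = Real.exp (-(y * t)) * Real.exp (-(y * t)) := by
        rw [← Real.exp_add]; ring_nf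
      calc ‖RS N (φ t)‖ * ‖RS N (ψ t)‖
          ≤ (C * Real.exp (-(y * t)) * Real.exp 1 * M) *
            (C * Real.exp (-(y * t)) * Real.exp 1 * M) := by
            apply mul_le_mul b1 b2 (norm_nonneg _) (by positivity)
        _ = _ := by rw [e]; ring
    · apply Integrable.const_mul
      exact integrableOn_exp_mul_Ioi (by linarith) 0
    · refine Eventually.of_forall fun t => ?_
      have b1 := RS_tendsto (φ t) (hφc t) (C * Real.exp (-(y * t))) t (hCt t)
        (fun a => (hb t a).1)
      have b2 := RS_tendsto (ψ t) (hψc t) (C * Real.exp (-(y * t))) t (hCt t)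
        (fun a => (hb t a).2)
      have b3 := b1.mul ((Complex.continuous_conj.tendsto _).comp b2)
      exact (Complex.continuous_re.tendsto _).comp b3
  have hge : 0 ≤ ∫ t in Ioi (0 : ℝ), ((∫ a, φ t a) * (starRingEnd ℂ) (∫ a, ψ t a)).re := by
    refine ge_of_tendsto hlim ?_
    filter_upwards [eventually_ne_atTop 0] with N hN
    exact hnn N hN
  -- identification
  set Y : ℂ := ∫ u : ℝ, ((u * Phi u : ℝ) : ℂ) * Complex.exp (-(I * z * u)) with hY
  have hA : ∀ t : ℝ, ∫ a, φ t a = Complex.exp (I * z * t) * Xi z := by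
    intro t
    have h1 := integral_add_right_eq_self
      (fun u : ℝ => ((Phi u : ℝ) : ℂ) * Complex.exp (-(I * z * (u - t)))) t (μ := volume)
    have h2 : ∀ a : ℝ, φ t a = (fun u : ℝ => ((Phi u : ℝ) : ℂ) *
        Complex.exp (-(I * z * (u - t)))) (a + t) := by
      intro a
      rw [hφ]
      simp only
      push_cast
      congr 3
      ring
    rw [integral_congr_ae (Eventually.of_forall h2), h1, ← H.Xi_even z, Xi, ← integral_const_mul]
    congr 1
    funext u
    have : Complex.exp (-(I * z * (u - t))) =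
        Complex.exp (I * z * t) * Complex.exp (I * -z * u) := by
      rw [← Complex.exp_add]; ring_nf
    rw [this]
    ring
  have hB : ∀ t : ℝ, ∫ a, ψ t a = Complex.exp (I * z * t) * Y := by
    intro t
    have h1 := integral_add_right_eq_self
      (fun u : ℝ => ((u * Phi u : ℝ) : ℂ) * Complex.exp (-(I * z * (u - t)))) t (μ := volume)
    have h2 : ∀ a : ℝ, ψ t a = (fun u : ℝ => ((u * Phi u : ℝ) : ℂ) *
        Complex.exp (-(I * z * (u - t)))) (a + t) := by
      intro a
      rw [hψ]
      simp only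
      push_cast
      congr 3
      ring
    rw [integral_congr_ae (Eventually.of_forall h2), h1, hY, ← integral_const_mul]
    congr 1
    funext u
    have : Complex.exp (-(I * z * (u - t))) =
        Complex.exp (I * z * t) * Complex.exp (-(I * z * u)) := by
      rw [← Complex.exp_add]; ring_nf
    rw [this]
    ring
  have hYd : Y = I * deriv Xi z := by
    have h1 := (H.Xi_hasDerivAt (-z)).deriv
    have h2 : deriv Xi (-z) = -deriv Xi z := by
      have h3 : (fun w => Xi (-w)) = Xi := funext fun w => H.Xi_even w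
      have h4 : deriv (fun w => Xi (-w)) z = -deriv Xi (-z) := deriv_comp_neg Xi z
      rw [h3] at h4
      rw [h4, neg_neg]
    have h5 : (∫ t : ℝ, (Phi t : ℂ) * (Complex.exp (I * -z * t) * (I * t))) = I * Y := by
      rw [hY, ← integral_const_mul]
      congr 1
      funext u
      have : Complex.exp (I * -z * u) = Complex.exp (-(I * z * u)) := by ring_nf
      rw [this]
      push_cast
      ring
    rw [h5, h2] at h1
    have h6 : I * (I * Y) = -Y := by rw [← mul_assoc, Complex.I_mul_I]; ring
    rw [← h1] at h6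
    linear_combination h6
  have hfin : ∀ t : ℝ, ((∫ a, φ t a) * (starRingEnd ℂ) (∫ a, ψ t a)).re =
      (Xi z * (starRingEnd ℂ) (I * deriv Xi z)).re * Real.exp (-(2 * y) * t) := by
    intro t
    rw [hA, hB, ← hYd, map_mul]
    have e1 : Complex.exp (I * z * t) * Xi z *
        ((starRingEnd ℂ) (Complex.exp (I * z * t)) * (starRingEnd ℂ) Y) =
        (Xi z * (starRingEnd ℂ) Y) * ((Complex.normSq (Complex.exp (I * z * t)) : ℝ) : ℂ) := by
      rw [← Complex.mul_conj]
      ring
    rw [e1, Complex.re_mul_ofReal, Complex.normSq_eq_norm_sq, Complex.norm_exp, ← Real.exp_nat_mul]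
    congr 2
    have : (I * z * t).re = -(z.im * t) := by simp
    rw [this, ← hy]
    push_cast
    ring
  simp only [hfin] at hge
  rw [integral_const_mul, integral_exp_mul_Ioi (by linarith) 0] at hge
  have hpos : 0 < -Real.exp (-(2 * y) * 0) / (-(2 * y)) := by
    rw [mul_zero, Real.exp_zero]
    apply div_pos_of_neg_of_neg <;> linarith
  exact nonneg_of_mul_nonneg_left hge hpos

theorem XiData.Xi_zero_ne (H : XiData) : Xi 0 ≠ 0 := by
  have h := H.Xi_imag 0
  have e : ((0 : ℝ) : ℂ) * I = 0 := by simp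
  rw [e] at h
  rw [h]
  have hp : 0 < ∫ t : ℝ, Phi t * Real.cosh (0 * t) := by
    rw [integral_pos_iff_support_of_nonneg
      (fun t => (mul_pos (H.pos t) (Real.cosh_pos _)).le) (H.integrable_cosh 0)]
    have : Function.support (fun t => Phi t * Real.cosh (0 * t)) = univ := by
      ext t
      simp only [Function.mem_support, mem_univ, iff_true]
      exact (mul_pos (H.pos t) (Real.cosh_pos _)).ne'
    rw [this]
    simp
  exact_mod_cast hp.ne'

/-- Monotonicity of the modulus in the upper half plane. -/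
theorem XiData.mono_of_psd (H : XiData) (h : PSD (K 0)) (x : ℝ) :
    MonotoneOn (fun y : ℝ => ‖Xi (x + y * I)‖ ^ 2) (Ioi 0) := by
  have hd : ∀ y : ℝ, HasDerivAt (fun y : ℝ => ‖Xi (x + y * I)‖ ^ 2)
      (2 * (Xi (x + y * I) * (starRingEnd ℂ) (I * deriv Xi (x + y * I))).re) y := by
    intro y
    have h1 : HasDerivAt (fun y : ℝ => (x : ℂ) + y * I) I y := by
      have := ((Complex.ofRealCLM.hasDerivAt (x := y)).mul_const I).const_add (x : ℂ)
      simpa using this
    have h2 : HasDerivAt (fun y : ℝ => Xi (x + y * I)) (deriv Xi (x + y * I) * I) y :=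
      (H.Xi_differentiable _).hasDerivAt.comp y h1
    have h3 := h2.norm_sq
    have e : 2 * inner ℝ (Xi (x + y * I)) (deriv Xi (x + y * I) * I) =
        2 * (Xi (x + y * I) * (starRingEnd ℂ) (I * deriv Xi (x + y * I))).re := by
      rw [Complex.inner]
      simp only [Complex.mul_re, Complex.conj_re, Complex.conj_im, Complex.mul_im, Complex.I_re,
        Complex.I_im]
      ring
    rw [← e]
    exact h3
  refine monotoneOn_of_deriv_nonneg (convex_Ioi 0)
    (fun y _ => (hd y).continuousAt.continuousWithinAt)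
    (fun y _ => (hd y).differentiableAt.differentiableWithinAt) ?_
  intro y hy
  rw [interior_Ioi] at hy
  rw [(hd y).deriv]
  have := H.form_nonneg h (x + y * I) (by simpa using hy)
  linarith

/-- Module H. -/
theorem XiData.zeros_real (H : XiData) (h : PSD (K 0)) (z : ℂ) (hz : Xi z = 0) : z.im = 0 := by
  by_contra hne
  -- a zero in the upper half plane
  obtain ⟨w, hw, hwi⟩ : ∃ w : ℂ, Xi w = 0 ∧ 0 < w.im := by
    rcases lt_or_gt_of_ne hne with h1 | h1
    · refine ⟨-z, by rw [H.Xi_even, hz], by simp; exact h1⟩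
    · exact ⟨z, hz, h1⟩
  have hzero : ∀ y : ℝ, 0 < y → y ≤ w.im → Xi (w.re + y * I) = 0 := by
    intro y hy hyw
    have h1 := H.mono_of_psd h w.re (mem_Ioi.mpr hy) (mem_Ioi.mpr hwi) hyw
    simp only at h1
    rw [Complex.re_add_im, hw, norm_zero] at h1
    have h2 : ‖Xi (w.re + y * I)‖ ^ 2 ≤ 0 := by simpa using h1
    have h3 : ‖Xi (w.re + y * I)‖ = 0 := by
      have := sq_nonneg ‖Xi (w.re + y * I)‖
      exact pow_eq_zero_iff (two_ne_zero) |>.mp (le_antisymm h2 this)
    exact norm_eq_zero.mp h3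
  have han : AnalyticOnNhd ℂ Xi univ := by
    have := H.Xi_differentiable.differentiableOn (s := univ)
    exact this.analyticOnNhd isOpen_univ
  have hfreq : ∃ᶠ v in 𝓝[≠] ((w.re : ℂ) + (w.im / 2 : ℝ) * I), Xi v = 0 := by
    have ht : Tendsto (fun y : ℝ => (w.re : ℂ) + y * I) (𝓝[≠] (w.im / 2))
        (𝓝[≠] ((w.re : ℂ) + (w.im / 2 : ℝ) * I)) := by
      apply tendsto_nhdsWithin_of_tendsto_nhds_of_eventually_within
      · have : Continuous (fun y : ℝ => (w.re : ℂ) + y * I) := by fun_prop
        exact (this.tendsto (w.im / 2)).mono_left nhdsWithin_le_nhds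
      · filter_upwards [self_mem_nhdsWithin] with y hy
        simp only [mem_compl_iff, mem_singleton_iff] at hy ⊢
        intro heq
        apply hy
        have := congrArg Complex.im heq
        simpa using this
    refine ht.frequently (Eventually.frequently ?_)
    have h1 : ∀ᶠ y : ℝ in 𝓝 (w.im / 2), 0 < y ∧ y < w.im := by
      apply Ioo_mem_nhds <;> linarith
    filter_upwards [h1.filter_mono nhdsWithin_le_nhds] with y hy
    exact hzero y hy.1 hy.2.le
  have hEq := han.eqOn_zero_of_preconnected_of_frequently_eq_zero isPreconnected_univ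
    (mem_univ _) hfreq
  exact H.Xi_zero_ne (hEq (mem_univ 0))

end Pool.Agent.Weyl
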