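import Pool.Agent.Lib.MP_38bb4c_an.Bounds

/-!
# Zeros of `Xi` and zeros of the zeta function
-/

open Complex

namespace Pool.Agent.Weyl

/-- `Xi` in terms of the completed zeta function. -/
theorem XiData.Xi_completed (H : XiData) (z : ℂ) (h0 : (1 : ℂ) / 2 + I * z ≠ 0)
    (h1 : (1 : ℂ) / 2 + I * z ≠ 1) :
    Xi z = (1 / 2 + I * z) * (1 / 2 + I * z - 1) / 2 * completedRiemannZeta (1 / 2 + I * z) := by
  rw [H.eq, completedRiemannZeta_eq]
  set s : ℂ := 1 / 2 + I * z with hs
  have h2 : s - 1 ≠ 0 := sub_ne_zero.mpr h1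
  have h3 : (1 : ℂ) - s ≠ 0 := sub_ne_zero.mpr h1.symm
  field_simp
  ring

theorem XiData.Xi_at_zero_one (H : XiData) (z : ℂ)
    (h : (1 : ℂ) / 2 + I * z = 0 ∨ (1 : ℂ) / 2 + I * z = 1) : Xi z ≠ 0 := by
  rw [H.eq]
  rcases h with h | h
  · rw [h]; simp
  · rw [h]; simp

/-- Zeros of `Xi` are the zeros of the completed zeta function. -/
theorem XiData.Xi_eq_zero_iff (H : XiData) (z : ℂ) :
    Xi z = 0 ↔ ((1 : ℂ) / 2 + I * z ≠ 0 ∧ (1 : ℂ) / 2 + I * z ≠ 1 ∧
      completedRiemannZeta (1 / 2 + I * z) = 0) := by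
  constructor
  · intro h
    have h0 : (1 : ℂ) / 2 + I * z ≠ 0 := fun h' => H.Xi_at_zero_one z (Or.inl h') h
    have h1 : (1 : ℂ) / 2 + I * z ≠ 1 := fun h' => H.Xi_at_zero_one z (Or.inr h') h
    refine ⟨h0, h1, ?_⟩
    rw [H.Xi_completed z h0 h1] at h
    rcases mul_eq_zero.mp h with h2 | h2
    · exfalso
      rcases mul_eq_zero.mp ((div_eq_zero_iff.mp h2).resolve_right two_ne_zero) with h3 | h3
      · exact h0 h3
      · exact h1 (sub_eq_zero.mp h3)
    · exact h2
  · rintro ⟨h0, h1, h2⟩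
    rw [H.Xi_completed z h0 h1, h2, mul_zero]

/-- Zero free half planes. -/
theorem XiData.Xi_ne_of_zeta (H : XiData) {w0 : ℝ}
    (h : ∀ s : ℂ, 1 / 2 + w0 < s.re → riemannZeta s ≠ 0) (z : ℂ) (hz : w0 < z.im) :
    Xi z ≠ 0 := by
  rw [← H.Xi_even z]
  intro h0
  obtain ⟨h1, h2, h3⟩ := (H.Xi_eq_zero_iff (-z)).mp h0
  have hre : ((1 : ℂ) / 2 + I * -z).re = 1 / 2 + z.im := by simp
  apply h (1 / 2 + I * -z) (by rw [hre]; linarith)
  rw [riemannZeta_def_of_ne_zero h1, h3, zero_div]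

theorem XiData.RH_iff (H : XiData) :
    RiemannHypothesis ↔ ∀ z : ℂ, Xi z = 0 → z.im = 0 := by
  constructor
  · intro hRH
    -- zeros with positive real part of s
    have key : ∀ z : ℂ, 0 < ((1 : ℂ) / 2 + I * z).re → Xi z = 0 → z.im = 0 := by
      intro z hz h0
      obtain ⟨h1, h2, h3⟩ := (H.Xi_eq_zero_iff z).mp h0
      have h4 : riemannZeta (1 / 2 + I * z) = 0 := by
        rw [riemannZeta_def_of_ne_zero h1, h3, zero_div]
      have h5 : ¬∃ n : ℕ, (1 : ℂ) / 2 + I * z = -2 * (n + 1) := by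
        rintro ⟨n, hn⟩
        rw [hn] at hz
        simp at hz
        have : (0 : ℝ) ≤ n := by positivity
        linarith
      have h6 := hRH _ h4 h5 h2
      have hre : ((1 : ℂ) / 2 + I * z).re = 1 / 2 - z.im := by simp; ring
      rw [hre] at h6
      linarith
    intro z h0
    rcases lt_or_ge 0 ((1 : ℂ) / 2 + I * z).re with hz | hz
    · exact key z hz h0
    · have hre : ((1 : ℂ) / 2 + I * -z).re = 1 / 2 + z.im := by simp
      have hre' : ((1 : ℂ) / 2 + I * z).re = 1 / 2 - z.im := by simp; ring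
      rw [hre'] at hz
      have h1 := key (-z) (by rw [hre]; linarith) (by rw [H.Xi_even, h0])
      rw [Complex.neg_im] at h1
      linarith
  · intro h s hs htriv hs1
    set z : ℂ := -I * (s - 1 / 2) with hz
    have hsz : (1 : ℂ) / 2 + I * z = s := by
      rw [hz, ← mul_assoc, mul_neg, Complex.I_mul_I]
      ring
    have hs0 : s ≠ 0 := by
      intro h0
      rw [h0, riemannZeta_zero] at hs
      norm_num at hs
    have hG : Gammaℝ s ≠ 0 := by
      rw [Ne, Complex.Gammaℝ_eq_zero_iff]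
      rintro ⟨n, hn⟩
      rcases Nat.eq_zero_or_pos n with h0 | h0
      · apply hs0
        rw [hn, h0]
        simp
      · apply htriv
        refine ⟨n - 1, ?_⟩
        rw [hn]
        push_cast [Nat.cast_sub (Nat.one_le_iff_ne_zero.mpr h0.ne')]
        ring
    have hL : completedRiemannZeta s = 0 := by
      rw [riemannZeta_def_of_ne_zero hs0, div_eq_zero_iff] at hs
      exact hs.resolve_right hG
    have hX : Xi z = 0 := by
      rw [H.Xi_eq_zero_iff, hsz]
      exact ⟨hs0, hs1, hL⟩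
    have him := h z hX
    have hre : z.im = 1 / 2 - s.re := by
      rw [hz]
      simp
    rw [hre] at him
    linarith

end Pool.Agent.Weyl
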