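import Pool.Agent.Lib.MP_38bb4c_an.Inversion
import Pool.Agent.Lib.MP_38bb4c_an.RHIff
import Pool.Agent.Lib.MP_38bb4c_an.Converse2

/-!
# Assembly: monotonicity of `Q` from the Hilbert space lemma `StE`
-/

open Complex MeasureTheory Set Filter Topology

namespace Pool.Agent.Weyl

/-- Norms on the time side. -/
noncomputable def NX (g : ℝ → ℂ) (X : ℂ → ℂ) (eta : ℝ) : ℝ :=
  ∫ t in Ioi (0 : ℝ), ‖∫ x : ℝ, g x * X (x + eta * I) * cexp (I * (x + eta * I) * t)‖ ^ 2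

/-- Functions in the unit ball of the algebra of the closed half plane. -/
structure Ball (X : ℂ → ℂ) : Prop where
  diff : DifferentiableOn ℂ X {z | 0 < z.im}
  cont : ContinuousOn X {z | 0 ≤ z.im}
  le : ∀ z : ℂ, 0 ≤ z.im → ‖X z‖ ≤ 1

/-- The Hilbert space lemma in time form. -/
def StE : Prop := ∀ (th ph ps : ℂ → ℂ) (eta : ℝ) (g : ℝ → ℂ), 0 < eta → Ball th → Ball ph →
  Ball ps → (∀ x : ℝ, ‖th x‖ = 1) → (∀ x : ℝ, ps x = (starRingEnd ℂ) (ph x) * th x) →
  Continuous g → Integrable (fun x : ℝ => (1 + |x|) * ‖g x‖) →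
  0 ≤ NX g (fun _ => 1) eta - NX g th eta - NX g ph eta + NX g ps eta

theorem XiData.Vf_sq_integrable (H : XiData) {N : ℕ} (a : Fin N → ℝ) (c : Fin N → ℂ) (w : ℝ) :
    Integrable (fun t : ℝ => ‖Vf a c w t‖ ^ 2) := by
  have e : (fun t : ℝ => ‖Vf a c w t‖ ^ 2) = fun t => ∑ i, ∑ j,
      (c i * (starRingEnd ℂ) (c j)).re * ((Phi (a i + t) * Real.exp (w * (a i + t))) *
        (Phi (a j + t) * Real.exp (w * (a j + t)))) := by
    funext t
    rw [Vf, norm_sq_sum]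
  rw [e]
  refine integrable_finsetSum _ fun i _ => integrable_finsetSum _ fun j _ =>
    Integrable.const_mul ?_ _
  obtain ⟨C, hC, h⟩ := H.dom |w| (abs_nonneg w)
  have hc := H.cont
  have hcont : Continuous (fun t : ℝ => (Phi (a i + t) * Real.exp (w * (a i + t))) *
        (Phi (a j + t) * Real.exp (w * (a j + t)))) := by fun_prop
  refine Integrable.mono' ((integrable_exp_shift (a i)).const_mul C)
    hcont.aestronglyMeasurable (Eventually.of_forall fun t => ?_)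
  have hp1 := H.pos (a i + t)
  have hp2 := H.pos (a j + t)
  rw [Real.norm_eq_abs, abs_of_pos (by positivity)]
  refine le_trans ?_ (h (a i) (a j) t)
  have e2 : (Phi (a i + t) * Real.exp (w * (a i + t))) *
      (Phi (a j + t) * Real.exp (w * (a j + t))) =
      Phi (a i + t) * Phi (a j + t) * Real.exp (w * (a i + a j + 2 * t)) := by
    have : Real.exp (w * (a i + a j + 2 * t)) =
        Real.exp (w * (a i + t)) * Real.exp (w * (a j + t)) := by
      rw [← Real.exp_add]; ring_nf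
    rw [this]; ring
  rw [e2]
  have : w * (a i + a j + 2 * t) ≤ |w| * |a i + a j + 2 * t| := by
    rw [← abs_mul]; exact le_abs_self _
  gcongr

theorem XiData.Xi_int_line (H : XiData) :
    Integrable (fun x : ℝ => Xi ((x : ℂ) + (3 / 2 : ℝ) * I)) := by
  have hXi : Continuous Xi := H.Xi_differentiable.continuous
  have h1 : Continuous (fun x : ℝ => (x : ℂ) + (3 / 2 : ℝ) * I) := by fun_prop
  have h2 : Continuous (fun x : ℝ => Xi ((x : ℂ) + (3 / 2 : ℝ) * I)) := hXi.comp h1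
  refine Integrable.mono' H.Xi_line h2.aestronglyMeasurable (Eventually.of_forall fun x => ?_)
  have h3 := norm_nonneg (Xi ((x : ℂ) + (3 / 2 : ℝ) * I))
  have h4 : 0 ≤ |x| := abs_nonneg x
  nlinarith

/-- The test function on the line. -/
noncomputable def gf {N : ℕ} (a : Fin N → ℝ) (c : Fin N → ℂ) (eta w' : ℝ) (x : ℝ) : ℂ :=
  (1 / (2 * Real.pi)) * ((∑ j, c j * cexp (I * (x + eta * I) * a j)) *
    Xi ((x + eta * I) + w' * I))

theorem XiData.Vf_time (H : XiData) {N : ℕ} (a : Fin N → ℝ) (c : Fin N → ℂ) {w' eta s : ℝ}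
    (heta : 0 < eta) (hsum : eta + w' = 3 / 2) (X : ℂ → ℂ)
    (hX : ∀ z : ℂ, 0 ≤ z.im → X z * Xi (z + w' * I) = Xi (z + s * I))
    (hX1 : ∀ z : ℂ, 0 ≤ z.im → ‖X z‖ ≤ 1) (t : ℝ) :
    Vf a c s t = ∫ x : ℝ, gf a c eta w' x * X (x + eta * I) * cexp (I * (x + eta * I) * t) := by
  have hXi : Continuous Xi := H.Xi_differentiable.continuous
  have him : ∀ x : ℝ, 0 ≤ ((x : ℂ) + eta * I).im := by intro x; simp; exact heta.le
  have e1 : ∀ x : ℝ, (x : ℂ) + (eta + s : ℝ) * I = (x + eta * I) + s * I := by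
    intro x; push_cast; ring
  have e2 : ∀ x : ℝ, ((x : ℂ) + eta * I) + w' * I = (x : ℂ) + (3 / 2 : ℝ) * I := by
    intro x
    rw [← hsum]
    push_cast
    ring
  have hI : Integrable (fun x : ℝ => Xi (x + (eta + s : ℝ) * I)) := by
    have h1 : Continuous (fun x : ℝ => (x : ℂ) + (eta + s : ℝ) * I) := by fun_prop
    refine Integrable.mono' H.Xi_int_line.norm (hXi.comp h1).aestronglyMeasurable
      (Eventually.of_forall fun x => ?_)
    rw [e1 x, ← hX _ (him x), norm_mul, e2 x]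
    have := hX1 _ (him x)
    have h3 := norm_nonneg (Xi ((x : ℂ) + (3 / 2 : ℝ) * I))
    nlinarith
  rw [H.Vf_eq a c s eta t hI, ← integral_const_mul]
  congr 1
  funext x
  rw [gf, ← hX _ (him x)]
  ring

theorem XiData.gf_cont (H : XiData) {N : ℕ} (a : Fin N → ℝ) (c : Fin N → ℂ) (eta w' : ℝ) :
    Continuous (gf a c eta w') := by
  have hXi : Continuous Xi := H.Xi_differentiable.continuous
  unfold gf
  fun_prop

theorem XiData.gf_int (H : XiData) {N : ℕ} (a : Fin N → ℝ) (c : Fin N → ℂ) {eta w' : ℝ}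
    (hsum : eta + w' = 3 / 2) : Integrable (fun x : ℝ => (1 + |x|) * ‖gf a c eta w' x‖) := by
  set M : ℝ := ‖(1 / (2 * Real.pi) : ℂ)‖ * ∑ j, ‖c j‖ * Real.exp (-(eta * a j)) with hM
  have hcont : Continuous (fun x : ℝ => (1 + |x|) * ‖gf a c eta w' x‖) := by
    have := H.gf_cont a c eta w'
    fun_prop
  refine Integrable.mono' (H.Xi_line.const_mul M) hcont.aestronglyMeasurable
    (Eventually.of_forall fun x => ?_)
  have h0 : 0 ≤ 1 + |x| := by positivity
  rw [Real.norm_eq_abs, abs_of_nonneg (by positivity)]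
  have e2 : ((x : ℂ) + eta * I) + w' * I = (x : ℂ) + (3 / 2 : ℝ) * I := by
    rw [← hsum]
    push_cast
    ring
  have hs : ‖∑ j, c j * cexp (I * (x + eta * I) * a j)‖ ≤
      ∑ j, ‖c j‖ * Real.exp (-(eta * a j)) := by
    refine (norm_sum_le _ _).trans (le_of_eq ?_)
    refine Finset.sum_congr rfl fun j _ => ?_
    rw [norm_mul, Complex.norm_exp]
    congr 2
    simp
  have h1 : ‖gf a c eta w' x‖ ≤ M * ‖Xi ((x : ℂ) + (3 / 2 : ℝ) * I)‖ := by
    rw [gf, norm_mul, norm_mul, e2, hM]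
    calc ‖(1 / (2 * Real.pi) : ℂ)‖ * (‖∑ j, c j * cexp (I * (x + eta * I) * a j)‖ *
          ‖Xi ((x : ℂ) + (3 / 2 : ℝ) * I)‖)
        ≤ ‖(1 / (2 * Real.pi) : ℂ)‖ * ((∑ j, ‖c j‖ * Real.exp (-(eta * a j))) *
          ‖Xi ((x : ℂ) + (3 / 2 : ℝ) * I)‖) := by gcongr
      _ = _ := by ring
  calc (1 + |x|) * ‖gf a c eta w' x‖ ≤
      (1 + |x|) * (M * ‖Xi ((x : ℂ) + (3 / 2 : ℝ) * I)‖) := by gcongr
    _ = _ := by ring

/-- `Q` is nondecreasing above the zeros. -/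
theorem XiData.Q_mono (H : XiData) (hE : StE) {w0 : ℝ} (h0 : 0 ≤ w0)
    (hz : ∀ z : ℂ, w0 < z.im → Xi z ≠ 0) {N : ℕ} (a : Fin N → ℝ) (c : Fin N → ℂ) {w w' : ℝ}
    (hw : w0 ≤ w) (hww : w < w') (hw' : w' < 3 / 2) : Qf a c w ≤ Qf a c w' := by
  set eta : ℝ := 3 / 2 - w' with heta
  have heta0 : 0 < eta := by rw [heta]; linarith
  have hsum : eta + w' = 3 / 2 := by rw [heta]; ring
  have hXd := H.Xi_differentiable
  obtain ⟨hsh, hmo⟩ := H.Xi_mono h0 hz
  have hne : ∀ z : ℂ, 0 ≤ z.im → Xi (z + w' * I) ≠ 0 := by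
    intro z hzi
    apply hz
    simp
    linarith
  have hup : ∀ z : ℂ, 0 ≤ z.im → ‖Xi (z + w * I)‖ ≤ ‖Xi (z + w' * I)‖ := by
    intro z hzi
    have h1 := hmo z.re (z.im + w) (z.im + w') (by linarith) (by linarith)
    have e1 : ∀ v : ℝ, (z.re : ℂ) + (z.im + v : ℝ) * I = z + v * I := by
      intro v
      conv_rhs => rw [← Complex.re_add_im z]
      push_cast
      ring
    rw [e1, e1] at h1
    exact h1
  have hquot : ∀ s : ℝ, (∀ z : ℂ, 0 ≤ z.im → ‖Xi (z + s * I)‖ ≤ ‖Xi (z + w' * I)‖) →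
      Ball (fun z => Xi (z + s * I) / Xi (z + w' * I)) ∧
      (∀ z : ℂ, 0 ≤ z.im → Xi (z + s * I) / Xi (z + w' * I) * Xi (z + w' * I) =
        Xi (z + s * I)) := by
    intro s hs
    have h1 : Differentiable ℂ (fun z : ℂ => Xi (z + s * I)) := hXd.comp (by fun_prop)
    have h2 : Differentiable ℂ (fun z : ℂ => Xi (z + w' * I)) := hXd.comp (by fun_prop)
    refine ⟨⟨?_, ?_, ?_⟩, ?_⟩
    · exact h1.differentiableOn.div h2.differentiableOn fun z hzi => hne z (le_of_lt hzi)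
    · exact h1.continuous.continuousOn.div h2.continuous.continuousOn fun z hzi => hne z hzi
    · intro z hzi
      rw [norm_div]
      exact div_le_one_of_le₀ (hs z hzi) (norm_nonneg _)
    · intro z hzi
      exact div_mul_cancel₀ _ (hne z hzi)
  have b1 : ∀ z : ℂ, 0 ≤ z.im → ‖Xi (z + (-w' : ℝ) * I)‖ ≤ ‖Xi (z + w' * I)‖ := by
    intro z hzi
    have := hsh w' (by linarith) z hzi
    have e : z + (-w' : ℝ) * I = z - w' * I := by push_cast; ring
    rw [e]
    exact this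
  have b3 : ∀ z : ℂ, 0 ≤ z.im → ‖Xi (z + (-w : ℝ) * I)‖ ≤ ‖Xi (z + w' * I)‖ := by
    intro z hzi
    have := hsh w hw z hzi
    have e : z + (-w : ℝ) * I = z - w * I := by push_cast; ring
    rw [e]
    exact this.trans (hup z hzi)
  obtain ⟨B1, m1⟩ := hquot (-w') b1
  obtain ⟨B2, m2⟩ := hquot w hup
  obtain ⟨B3, m3⟩ := hquot (-w) b3
  have hconj : ∀ (x v : ℝ), Xi ((x : ℂ) + (-v : ℝ) * I) = (starRingEnd ℂ) (Xi (x + v * I)) := by
    intro x v
    rw [← H.Xi_conj]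
    congr 1
    simp only [map_add, map_mul, Complex.conj_ofReal, Complex.conj_I]
    push_cast
    ring
  have hxne : ∀ x : ℝ, Xi ((x : ℂ) + w' * I) ≠ 0 := fun x => hne x (by simp)
  have hth1 : ∀ x : ℝ, ‖Xi ((x : ℂ) + (-w' : ℝ) * I) / Xi (x + w' * I)‖ = 1 := by
    intro x
    rw [hconj, norm_div, RCLike.norm_conj, div_self (norm_ne_zero_iff.mpr (hxne x))]
  have hps : ∀ x : ℝ, Xi ((x : ℂ) + (-w : ℝ) * I) / Xi (x + w' * I) =
      (starRingEnd ℂ) (Xi ((x : ℂ) + w * I) / Xi (x + w' * I)) *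
        (Xi ((x : ℂ) + (-w' : ℝ) * I) / Xi (x + w' * I)) := by
    intro x
    rw [hconj, hconj, map_div₀]
    have h1 : (starRingEnd ℂ) (Xi ((x : ℂ) + w' * I)) ≠ 0 := by
      rw [Ne, map_eq_zero]
      exact hxne x
    rw [div_mul_div_cancel₀ h1]
  have key := hE (fun z => Xi (z + (-w' : ℝ) * I) / Xi (z + w' * I))
    (fun z => Xi (z + w * I) / Xi (z + w' * I))
    (fun z => Xi (z + (-w : ℝ) * I) / Xi (z + w' * I)) eta (gf a c eta w') heta0 B1 B2 B3
    hth1 hps (H.gf_cont a c eta w') (H.gf_int a c hsum)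
  have hN : ∀ (s : ℝ) (X : ℂ → ℂ),
      (∀ z : ℂ, 0 ≤ z.im → X z * Xi (z + w' * I) = Xi (z + s * I)) →
      (∀ z : ℂ, 0 ≤ z.im → ‖X z‖ ≤ 1) →
      NX (gf a c eta w') X eta = ∫ t in Ioi (0 : ℝ), ‖Vf a c s t‖ ^ 2 := by
    intro s X h1 h2
    rw [NX]
    congr 1
    funext t
    rw [H.Vf_time a c heta0 hsum X h1 h2 t]
  rw [hN w' (fun _ => 1) (fun z _ => one_mul _) (fun z _ => by simp),
    hN (-w') _ m1 B1.le, hN w _ m2 B2.le, hN (-w) _ m3 B3.le] at key
  have hi : ∀ s : ℝ, IntegrableOn (fun t : ℝ => ‖Vf a c s t‖ ^ 2) (Ioi 0) :=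
    fun s => (H.Vf_sq_integrable a c s).integrableOn
  rw [Qf, Qf, integral_sub (hi _) (hi _), integral_sub (hi _) (hi _)]
  linarith

theorem K_neg (w a b : ℝ) : K (-w) a b = K w a b := by
  rw [K, K]
  congr 2
  funext y
  have : 2 * -w * y = -(2 * w * y) := by ring
  rw [this, Real.cosh_neg]

theorem K_abs (w a b : ℝ) : K |w| a b = K w a b := by
  rcases abs_choice w with h | h
  · rw [h]
  · rw [h, K_neg]

theorem psd_abs (w : ℝ) : PSD (K |w|) ↔ PSD (K w) := by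
  have : K |w| = K w := funext fun a => funext fun b => K_abs w a b
  rw [this]

/-- Positivity of the kernel above the zeros. -/
theorem XiData.psd_of_zeta (H : XiData) (hE : StE) {w : ℝ} (hw : |w| < 3 / 2)
    (hzeta : ∀ s : ℂ, 1 / 2 + |w| < s.re → riemannZeta s ≠ 0) : PSD (K w) := by
  rw [← psd_abs]
  apply H.psd_of_right
  intro N a c
  have h1 : ∀ᶠ w' in 𝓝[>] |w|, w' < 3 / 2 :=
    (eventually_lt_nhds hw).filter_mono nhdsWithin_le_nhds
  filter_upwards [h1, self_mem_nhdsWithin] with w' h2 h3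
  exact H.Q_mono hE (abs_nonneg w) (H.Xi_ne_of_zeta hzeta) a c le_rfl h3 h2

theorem XiData.main (H : XiData) (hE : StE) :
    ((∀ w : ℝ, |w| < 1 / 2 → PSD (K w)) ↔ RiemannHypothesis) ∧
    (PSD (K 0) ↔ RiemannHypothesis) ∧
    (∀ w : ℝ, |w| < 3 / 2 → (∀ s : ℂ, 1 / 2 + |w| < s.re → riemannZeta s ≠ 0) → PSD (K w)) := by
  have hA : PSD (K 0) → RiemannHypothesis := fun h => H.RH_iff.mpr (H.zeros_real h)
  have hB : RiemannHypothesis → ∀ w : ℝ, |w| < 1 / 2 → PSD (K w) := by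
    intro hRH w hw
    have hreal := H.RH_iff.mp hRH
    apply H.psd_of_zeta hE (by linarith)
    intro s hs h0
    have hpos : 0 ≤ |w| := abs_nonneg w
    have htriv : ¬∃ n : ℕ, s = -2 * (n + 1) := by
      rintro ⟨n, hn⟩
      rw [hn] at hs
      simp at hs
      have : (0 : ℝ) ≤ n := by positivity
      linarith
    by_cases h1 : s = 1
    · rw [h1] at h0
      exact riemannZeta_one_ne_zero h0
    · have := hRH s h0 htriv h1
      linarith
  refine ⟨⟨fun h => hA (h 0 (by simp)), hB⟩, ⟨hA, fun h => hB h 0 (by simp)⟩, ?_⟩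
  intro w hw hz
  exact H.psd_of_zeta hE hw hz

end Pool.Agent.Weyl
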