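import Mathlib

/-!
# A lower bound for zero free analytic functions on a disc (Borel - Caratheodory)
-/

open Complex Metric

namespace Pool.Agent.Weyl

/-- A zero free analytic function on a disc with an upper bound on the disc and a lower bound at
the centre has a lower bound on a smaller disc. -/
theorem ball_lower {f : ℂ → ℂ} {c : ℂ} {R r A B : ℝ} (hr : 0 ≤ r) (hrR : r < R)
    (hf : DifferentiableOn ℂ f (ball c R)) (h0 : ∀ z ∈ ball c R, f z ≠ 0)
    (hA : ∀ z ∈ ball c R, ‖f z‖ ≤ Real.exp A) (hB : Real.exp (-B) ≤ ‖f c‖)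
    (hAB : 0 ≤ A + B) (z : ℂ) (hz : ‖z - c‖ ≤ r) :
    Real.exp (-(B + 2 * (A + B + 1) * r / (R - r))) ≤ ‖f z‖ := by
  have hR : 0 < R := lt_of_le_of_lt hr hrR
  have hcb : c ∈ ball c R := mem_ball_self hR
  have hd : DifferentiableOn ℂ (fun w => deriv f w / f w) (ball c R) := by
    apply DifferentiableOn.div (hf.deriv isOpen_ball) hf h0
  obtain ⟨F, hF⟩ := hd.isExactOn_ball
  -- f = f c * exp (F - F c)
  have hfd : ∀ w ∈ ball c R, HasDerivAt f (deriv f w) w := fun w hw =>
    (hf.differentiableAt (isOpen_ball.mem_nhds hw)).hasDerivAt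
  have hconst : ∀ w ∈ ball c R, f w * Complex.exp (-(F w - F c)) = f c := by
    have hder : ∀ w ∈ ball c R,
        HasDerivAt (fun w => f w * Complex.exp (-(F w - F c))) 0 w := by
      intro w hw
      have h1 := hfd w hw
      have h2 : HasDerivAt (fun w => Complex.exp (-(F w - F c)))
          (Complex.exp (-(F w - F c)) * (-(deriv f w / f w))) w := by
        have := (((hF w hw).sub_const (F c)).neg).cexp
        simpa using this
      have h3 := h1.mul h2
      have hne := h0 w hw
      have h4 : deriv f w * Complex.exp (-(F w - F c)) +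
          f w * (Complex.exp (-(F w - F c)) * (-(deriv f w / f w))) = 0 := by
        have : f w * (Complex.exp (-(F w - F c)) * (-(deriv f w / f w))) =
            -(deriv f w * Complex.exp (-(F w - F c))) * (f w / f w) := by ring
        rw [this, div_self hne]
        ring
      rw [h4] at h3
      exact h3
    intro w hw
    have hconv : Convex ℝ (ball c R) := convex_ball c R
    have := (isOpen_ball (x := c) (ε := R)).is_const_of_deriv_eq_zero hconv.isPreconnected
      (f := fun w => f w * Complex.exp (-(F w - F c)))
      (fun w hw => (hder w hw).differentiableAt.differentiableWithinAt)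
      (fun w hw => (hder w hw).deriv) hw hcb
    simpa using this
  have hfeq : ∀ w ∈ ball c R, f w = f c * Complex.exp (F w - F c) := by
    intro w hw
    have := hconst w hw
    rw [← this, mul_assoc, ← Complex.exp_add]
    simp
  have hnorm : ∀ w ∈ ball c R, ‖f w‖ = ‖f c‖ * Real.exp (F w - F c).re := by
    intro w hw
    rw [hfeq w hw, norm_mul, Complex.norm_exp]
  have hfc : 0 < ‖f c‖ := norm_pos_iff.mpr (h0 c hcb)
  have hre : ∀ w ∈ ball c R, (F w - F c).re ≤ A + B := by
    intro w hw
    have h1 := hA w hw
    rw [hnorm w hw] at h1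
    have h2 : Real.exp (-B) * Real.exp (F w - F c).re ≤ Real.exp A :=
      le_trans (mul_le_mul_of_nonneg_right hB (Real.exp_pos _).le) h1
    rw [← Real.exp_add] at h2
    have := Real.exp_le_exp.mp h2
    linarith
  -- Borel Caratheodory for g w = F (c + w) - F c
  have hM : 0 < A + B + 1 := by linarith
  have hgd : DifferentiableOn ℂ (fun w => F (c + w) - F c) (ball 0 R) := by
    intro w hw
    have hcw : c + w ∈ ball c R := by
      simpa [mem_ball, dist_eq_norm] using hw
    have h1 : HasDerivAt (fun w => F (c + w)) (deriv f (c + w) / f (c + w)) w :=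
      HasDerivAt.comp_const_add c w (hF (c + w) hcw)
    exact (h1.sub_const (F c)).differentiableAt.differentiableWithinAt
  have hzR : z - c ∈ ball (0 : ℂ) R := by
    rw [mem_ball_zero_iff]
    exact lt_of_le_of_lt hz hrR
  have hBC := Complex.borelCaratheodory_zero hM hgd (by
      intro w hw
      have hcw : c + w ∈ ball c R := by
        simpa [mem_ball, dist_eq_norm] using hw
      have := hre (c + w) hcw
      simp only [Set.mem_ofPred_eq]
      linarith) hR hzR (by simp)
  have hzc : c + (z - c) = z := by ring
  simp only [hzc] at hBC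
  have hzb : z ∈ ball c R := by
    rw [mem_ball, dist_eq_norm]
    exact lt_of_le_of_lt hz hrR
  rw [hnorm z hzb]
  have h4 : 2 * (A + B + 1) * ‖z - c‖ / (R - ‖z - c‖) ≤ 2 * (A + B + 1) * r / (R - r) := by
    have : 0 < R - r := by linarith
    gcongr
  have h5 : -(2 * (A + B + 1) * r / (R - r)) ≤ (F z - F c).re := by
    have h6 := Complex.abs_re_le_norm (F z - F c)
    have h7 := (abs_le.mp h6).1
    linarith
  calc Real.exp (-(B + 2 * (A + B + 1) * r / (R - r)))
      = Real.exp (-B) * Real.exp (-(2 * (A + B + 1) * r / (R - r))) := by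
        rw [← Real.exp_add]; ring_nf
    _ ≤ ‖f c‖ * Real.exp (F z - F c).re := by
        apply mul_le_mul hB (Real.exp_le_exp.mpr h5) (Real.exp_pos _).le hfc.le

end Pool.Agent.Weyl
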