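import Mathlib

/-!
# Lower and upper bounds of the Gamma function on vertical lines
-/

open Complex Filter Topology

namespace Pool.Agent.Weyl

theorem gb_term (a x y : ℝ) (ha : 0 < a) (hax : a ≤ x) :
    ‖(x : ℂ) + y * I‖ * a ≤ x * ‖(a : ℂ) + y * I‖ := by
  have hx : 0 < x := lt_of_lt_of_le ha hax
  rw [Complex.norm_add_mul_I, Complex.norm_add_mul_I]
  have h1 : Real.sqrt (x ^ 2 + y ^ 2) * a = Real.sqrt ((x ^ 2 + y ^ 2) * a ^ 2) := by
    rw [Real.sqrt_mul (by positivity), Real.sqrt_sq ha.le]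
  have h2 : x * Real.sqrt (a ^ 2 + y ^ 2) = Real.sqrt (x ^ 2 * (a ^ 2 + y ^ 2)) := by
    rw [Real.sqrt_mul (by positivity), Real.sqrt_sq hx.le]
  rw [h1, h2]
  apply Real.sqrt_le_sqrt
  have : a ^ 2 ≤ x ^ 2 := by gcongr
  nlinarith [mul_le_mul_of_nonneg_left this (sq_nonneg y)]

theorem gb_seq (x y : ℝ) (hx : 1 / 2 ≤ x) (n : ℕ) (hn : n ≠ 0) :
    ‖Complex.GammaSeq (x : ℂ) n‖ * ‖Complex.GammaSeq (((1 / 2 : ℝ) : ℂ) + y * I) n‖ ≤
      ‖Complex.GammaSeq ((x : ℂ) + y * I) n‖ * ‖Complex.GammaSeq ((1 / 2 : ℝ) : ℂ) n‖ := by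
  have hn' : 0 < (n : ℝ) := by positivity
  have hpow : ∀ s : ℂ, ‖(n : ℂ) ^ s‖ = (n : ℝ) ^ s.re := by
    intro s
    have := Complex.norm_cpow_eq_rpow_re_of_pos hn' s
    simpa using this
  have key : ∀ a b : ℝ, ‖Complex.GammaSeq ((a : ℂ) + b * I) n‖ =
      (n : ℝ) ^ a * n.factorial / ∏ j ∈ Finset.range (n + 1), ‖((a + j : ℝ) : ℂ) + b * I‖ := by
    intro a b
    rw [Complex.GammaSeq, norm_div, norm_mul, hpow, norm_prod]
    congr 1
    · simp
    · refine Finset.prod_congr rfl fun j _ => ?_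
      congr 1
      push_cast
      ring
  have k0 : ∀ a : ℝ, ‖Complex.GammaSeq (a : ℂ) n‖ =
      (n : ℝ) ^ a * n.factorial / ∏ j ∈ Finset.range (n + 1), ‖((a + j : ℝ) : ℂ) + (0 : ℝ) * I‖ := by
    intro a
    have := key a 0
    simpa using this
  rw [k0 x, k0 (1 / 2), key (1 / 2) y, key x y]
  have hP : ∀ a b : ℝ, 0 < a → 0 < ∏ j ∈ Finset.range (n + 1), ‖((a + j : ℝ) : ℂ) + b * I‖ := by
    intro a b ha
    refine Finset.prod_pos fun j _ => ?_
    rw [Complex.norm_add_mul_I]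
    apply Real.sqrt_pos.mpr
    have : 0 < a + j := by positivity
    positivity
  have h1 := hP x 0 (by linarith)
  have h2 := hP (1 / 2) 0 (by norm_num)
  have h3 := hP (1 / 2) y (by norm_num)
  have h4 := hP x y (by linarith)
  rw [div_mul_div_comm, div_mul_div_comm, div_le_div_iff₀ (by positivity) (by positivity)]
  have hmain : (∏ j ∈ Finset.range (n + 1), ‖((x + j : ℝ) : ℂ) + y * I‖) *
      (∏ j ∈ Finset.range (n + 1), ‖((1 / 2 + j : ℝ) : ℂ) + (0 : ℝ) * I‖) ≤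
      (∏ j ∈ Finset.range (n + 1), ‖((x + j : ℝ) : ℂ) + (0 : ℝ) * I‖) *
      (∏ j ∈ Finset.range (n + 1), ‖((1 / 2 + j : ℝ) : ℂ) + y * I‖) := by
    rw [← Finset.prod_mul_distrib, ← Finset.prod_mul_distrib]
    refine Finset.prod_le_prod (fun j _ => by positivity) fun j _ => ?_
    have e1 : ‖((1 / 2 + j : ℝ) : ℂ) + (0 : ℝ) * I‖ = 1 / 2 + j := by
      rw [Complex.norm_add_mul_I]
      simp only [ne_eq, OfNat.ofNat_ne_zero, not_false_eq_true, zero_pow, add_zero]
      exact Real.sqrt_sq (by positivity)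
    have e2 : ‖((x + j : ℝ) : ℂ) + (0 : ℝ) * I‖ = x + j := by
      rw [Complex.norm_add_mul_I]
      simp only [ne_eq, OfNat.ofNat_ne_zero, not_false_eq_true, zero_pow, add_zero]
      exact Real.sqrt_sq (by positivity)
    rw [e1, e2]
    exact gb_term (1 / 2 + j) (x + j) y (by positivity) (by linarith)
  have hf : 0 < (n : ℝ) ^ x * n.factorial * ((n : ℝ) ^ (1 / 2 : ℝ) * n.factorial) := by positivity
  exact mul_le_mul_of_nonneg_left hmain hf.le

theorem gb_half (y : ℝ) :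
    ‖Complex.Gamma (((1 / 2 : ℝ) : ℂ) + y * I)‖ ^ 2 = Real.pi / Real.cosh (Real.pi * y) := by
  have h := Complex.Gamma_mul_Gamma_one_sub (((1 / 2 : ℝ) : ℂ) + y * I)
  have e1 : (1 : ℂ) - (((1 / 2 : ℝ) : ℂ) + y * I) =
      (starRingEnd ℂ) (((1 / 2 : ℝ) : ℂ) + y * I) := by
    simp only [map_add, map_mul, Complex.conj_ofReal, Complex.conj_I]
    push_cast
    ring
  have e2 : Complex.sin (Real.pi * ((((1 / 2 : ℝ) : ℂ)) + y * I)) =
      (Real.cosh (Real.pi * y) : ℂ) := by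
    have : (Real.pi : ℂ) * ((((1 / 2 : ℝ) : ℂ)) + y * I) =
        (Real.pi / 2 : ℂ) + (Real.pi * y : ℝ) * I := by push_cast; ring
    rw [this, Complex.sin_add, Complex.cos_pi_div_two, Complex.sin_pi_div_two, Complex.cos_mul_I,
      Complex.ofReal_cosh]
    simp
  rw [e1, Complex.Gamma_conj, Complex.mul_conj, e2] at h
  have h' : (Complex.normSq (Complex.Gamma (((1 / 2 : ℝ) : ℂ) + y * I)) : ℂ) =
      ((Real.pi / Real.cosh (Real.pi * y) : ℝ) : ℂ) := by
    rw [h]
    push_cast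
    rfl
  rw [← Complex.normSq_eq_norm_sq]
  exact_mod_cast h'

/-- Lower bound of the Gamma function. -/
theorem norm_Gamma_ge (x y : ℝ) (hx : 1 / 2 ≤ x) :
    Real.Gamma x * Real.exp (-(Real.pi * |y| / 2)) ≤ ‖Complex.Gamma ((x : ℂ) + y * I)‖ := by
  have hlim : ‖Complex.Gamma (x : ℂ)‖ * ‖Complex.Gamma (((1 / 2 : ℝ) : ℂ) + y * I)‖ ≤
      ‖Complex.Gamma ((x : ℂ) + y * I)‖ * ‖Complex.Gamma ((1 / 2 : ℝ) : ℂ)‖ := by
    refine le_of_tendsto_of_tendsto
      (((Complex.GammaSeq_tendsto_Gamma _).norm).mul ((Complex.GammaSeq_tendsto_Gamma _).norm))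
      (((Complex.GammaSeq_tendsto_Gamma _).norm).mul ((Complex.GammaSeq_tendsto_Gamma _).norm)) ?_
    filter_upwards [eventually_ne_atTop 0] with n hn
    exact gb_seq x y hx n hn
  have hG : ‖Complex.Gamma (x : ℂ)‖ = Real.Gamma x := by
    rw [Complex.Gamma_ofReal, Complex.norm_real, Real.norm_eq_abs,
      abs_of_pos (Real.Gamma_pos_of_pos (by linarith))]
  have h0 : ‖Complex.Gamma ((1 / 2 : ℝ) : ℂ)‖ = Real.sqrt Real.pi := by
    rw [Complex.Gamma_ofReal, Real.Gamma_one_half_eq, Complex.norm_real, Real.norm_eq_abs,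
      abs_of_nonneg (Real.sqrt_nonneg _)]
  have hpi := Real.pi_pos
  have hh : Real.sqrt Real.pi * Real.exp (-(Real.pi * |y| / 2)) ≤
      ‖Complex.Gamma (((1 / 2 : ℝ) : ℂ) + y * I)‖ := by
    apply le_of_sq_le_sq _ (norm_nonneg _)
    rw [gb_half, mul_pow, Real.sq_sqrt hpi.le, ← Real.exp_nat_mul]
    have hc : Real.cosh (Real.pi * y) ≤ Real.exp (Real.pi * |y|) := by
      rw [← Real.cosh_abs, abs_mul, abs_of_pos hpi, Real.cosh_eq]
      have : Real.exp (-(Real.pi * |y|)) ≤ Real.exp (Real.pi * |y|) := by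
        apply Real.exp_le_exp.mpr
        have : 0 ≤ Real.pi * |y| := by positivity
        linarith
      linarith
    have hcp : 0 < Real.cosh (Real.pi * y) := Real.cosh_pos _
    rw [le_div_iff₀ hcp]
    have e : ((2 : ℕ) : ℝ) * -(Real.pi * |y| / 2) = -(Real.pi * |y|) := by push_cast; ring
    rw [e, mul_assoc]
    have : Real.exp (-(Real.pi * |y|)) * Real.cosh (Real.pi * y) ≤ 1 := by
      calc Real.exp (-(Real.pi * |y|)) * Real.cosh (Real.pi * y)
          ≤ Real.exp (-(Real.pi * |y|)) * Real.exp (Real.pi * |y|) := by gcongr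
        _ = 1 := by rw [← Real.exp_add]; simp
    nlinarith
  rw [hG, h0] at hlim
  have hs : 0 < Real.sqrt Real.pi := Real.sqrt_pos.mpr hpi
  have hGp : 0 < Real.Gamma x := Real.Gamma_pos_of_pos (by linarith)
  have h5 : Real.Gamma x * (Real.sqrt Real.pi * Real.exp (-(Real.pi * |y| / 2))) ≤
      ‖Complex.Gamma ((x : ℂ) + y * I)‖ * Real.sqrt Real.pi :=
    le_trans (mul_le_mul_of_nonneg_left hh hGp.le) hlim
  have h6 : (Real.Gamma x * Real.exp (-(Real.pi * |y| / 2))) * Real.sqrt Real.pi ≤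
      ‖Complex.Gamma ((x : ℂ) + y * I)‖ * Real.sqrt Real.pi := by
    calc _ = Real.Gamma x * (Real.sqrt Real.pi * Real.exp (-(Real.pi * |y| / 2))) := by ring
      _ ≤ _ := h5
  exact le_of_mul_le_mul_right h6 hs

theorem Gamma_ge_inv (x : ℝ) (hx : 1 ≤ x) : Real.exp (-x) ≤ Real.Gamma x := by
  have h1 : Real.Gamma (x + 1) = x * Real.Gamma x := Real.Gamma_add_one (by linarith)
  have h2 : 1 ≤ Real.Gamma (x + 1) := by
    have h := Real.Gamma_strictMonoOn_Ici.monotoneOn (a := 2) (b := x + 1)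
      (by simp) (by simp; linarith) (by linarith)
    simpa using h
  have hx0 : 0 < x := by linarith
  have h3 : 1 / x ≤ Real.Gamma x := by
    rw [div_le_iff₀ hx0]
    linarith [mul_comm x (Real.Gamma x)]
  refine le_trans ?_ h3
  rw [Real.exp_neg, ← one_div]
  apply one_div_le_one_div_of_le hx0
  have := Real.add_one_le_exp x
  linarith

/-- Lower bound in terms of the norm. -/
theorem norm_Gamma_ge' (w : ℂ) (hw : 1 ≤ w.re) :
    Real.exp (-(3 * ‖w‖)) ≤ ‖Complex.Gamma w‖ := by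
  have h := norm_Gamma_ge w.re w.im (by linarith)
  rw [Complex.re_add_im] at h
  refine le_trans ?_ h
  have h1 := Gamma_ge_inv w.re hw
  calc Real.exp (-(3 * ‖w‖)) ≤ Real.exp (-w.re) * Real.exp (-(Real.pi * |w.im| / 2)) := by
        rw [← Real.exp_add]
        apply Real.exp_le_exp.mpr
        have a1 : w.re ≤ ‖w‖ := (le_abs_self _).trans (Complex.abs_re_le_norm w)
        have a2 : |w.im| ≤ ‖w‖ := Complex.abs_im_le_norm w
        have a3 := Real.pi_lt_four
        have a4 := Real.pi_pos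
        have a5 : 0 ≤ |w.im| := abs_nonneg _
        have a6 : 0 ≤ ‖w‖ := norm_nonneg w
        nlinarith
    _ ≤ Real.Gamma w.re * Real.exp (-(Real.pi * |w.im| / 2)) := by gcongr

/-- `|Γ(1+iy)|² = π y / sinh (π y)`. -/
theorem gb_one (y : ℝ) (hy : y ≠ 0) :
    ‖Complex.Gamma (1 + y * I)‖ ^ 2 = Real.pi * y / Real.sinh (Real.pi * y) := by
  have hyI : (y : ℂ) * I ≠ 0 := by simp [hy]
  have h := Complex.Gamma_mul_Gamma_one_sub ((y : ℂ) * I)
  have h1 : Complex.Gamma (1 + y * I) = (y * I) * Complex.Gamma (y * I) := by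
    rw [add_comm, Complex.Gamma_add_one _ hyI]
  have e1 : (1 : ℂ) - y * I = (starRingEnd ℂ) (1 + y * I) := by
    simp only [map_add, map_mul, map_one, Complex.conj_ofReal, Complex.conj_I]
    ring
  have hs : Real.sinh (Real.pi * y) ≠ 0 := by
    rw [Ne, Real.sinh_eq_zero]
    exact mul_ne_zero Real.pi_ne_zero hy
  have hsc : ((Real.sinh (Real.pi * y) : ℝ) : ℂ) ≠ 0 := by exact_mod_cast hs
  have e2 : Complex.sin (Real.pi * (y * I)) = (Real.sinh (Real.pi * y) : ℂ) * I := by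
    have : (Real.pi : ℂ) * (y * I) = ((Real.pi * y : ℝ) : ℂ) * I := by push_cast; ring
    rw [this, Complex.sin_mul_I, Complex.ofReal_sinh]
  have h2 : Complex.Gamma (1 + y * I) * Complex.Gamma (1 - y * I) =
      ((Real.pi * y / Real.sinh (Real.pi * y) : ℝ) : ℂ) := by
    rw [h1, mul_assoc, h, e2]
    push_cast
    field_simp
  rw [e1, Complex.Gamma_conj, Complex.mul_conj] at h2
  rw [← Complex.normSq_eq_norm_sq]
  exact_mod_cast h2

theorem sinh_ge (u : ℝ) : u * Real.exp u ≤ (1 + 2 * u) * Real.sinh u := by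
  rw [Real.sinh_eq]
  have h1 : 2 * u + 1 ≤ Real.exp (2 * u) := Real.add_one_le_exp _
  have h2 : Real.exp (2 * u) = Real.exp u * Real.exp u := by rw [← Real.exp_add]; ring_nf
  have h3 : Real.exp u * Real.exp (-u) = 1 := by rw [← Real.exp_add]; simp
  have h4 : 0 < Real.exp (-u) := Real.exp_pos _
  have h5 : (1 + 2 * u) * Real.exp (-u) ≤ Real.exp u := by
    calc (1 + 2 * u) * Real.exp (-u) ≤ Real.exp (2 * u) * Real.exp (-u) := by
          apply mul_le_mul_of_nonneg_right _ h4.le; linarith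
      _ = Real.exp u := by rw [h2, mul_assoc, h3, mul_one]
  nlinarith

/-- Upper bound on the line `Re = 1`. -/
theorem norm_Gamma_one_le (y : ℝ) :
    ‖Complex.Gamma (1 + y * I)‖ ^ 2 ≤ (1 + 2 * (Real.pi * |y|)) * Real.exp (-(Real.pi * |y|)) := by
  rcases eq_or_ne y 0 with rfl | hy
  · simp
  · rw [gb_one y hy]
    have hpi := Real.pi_pos
    have e : Real.pi * y / Real.sinh (Real.pi * y) =
        (Real.pi * |y|) / Real.sinh (Real.pi * |y|) := by
      rcases lt_or_gt_of_ne hy with h | h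
      · rw [abs_of_neg h, mul_neg, Real.sinh_neg, neg_div_neg_eq]
      · rw [abs_of_pos h]
    rw [e]
    have hu : 0 < Real.pi * |y| := by positivity
    have hs : 0 < Real.sinh (Real.pi * |y|) := Real.sinh_pos_iff.mpr hu
    rw [div_le_iff₀ hs]
    have h := sinh_ge (Real.pi * |y|)
    have h3 : Real.exp (Real.pi * |y|) * Real.exp (-(Real.pi * |y|)) = 1 := by
      rw [← Real.exp_add]; simp
    calc Real.pi * |y| = (Real.pi * |y| * Real.exp (Real.pi * |y|)) *
          Real.exp (-(Real.pi * |y|)) := by rw [mul_assoc, h3, mul_one]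
      _ ≤ ((1 + 2 * (Real.pi * |y|)) * Real.sinh (Real.pi * |y|)) *
          Real.exp (-(Real.pi * |y|)) := by gcongr
      _ = _ := by ring

end Pool.Agent.Weyl
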