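import Pool.Agent.Lib.MP_38bb4c_an.Defs
import Pool.Agent.Lib.MP_38bb4c_an.GammaBd
import Pool.Agent.Lib.MP_38bb4c_an.BallLow

/-!
# Bounds of `Xi`
-/

open Complex MeasureTheory Metric

namespace Pool.Agent.Weyl

/-- The facts on `Phi` and `Xi` used below (proved in PhiBasic and XiZeta). -/
structure XiData : Prop where
  even : ∀ x, Phi (-x) = Phi x
  pos : ∀ x, 0 < Phi x
  cont : Continuous Phi
  le : ∃ C > 0, ∀ x, Phi x ≤ C * Real.exp (-Real.exp (2 * |x|))
  eq : ∀ z, Xi z = (1 + (1 / 2 + I * z) * (1 / 2 + I * z - 1) *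
    completedRiemannZeta₀ (1 / 2 + I * z)) / 2

/-! ## Zeta on `Re s ≥ 2` -/

theorem zeta_sub_one_le (s : ℂ) (hs : 2 ≤ s.re) :
    ‖riemannZeta s - 1‖ ≤ Real.pi ^ 2 / 6 - 1 := by
  have h1 : HasSum (fun n : ℕ => 1 / ((n + 2 : ℕ) : ℝ) ^ 2) (Real.pi ^ 2 / 6 - 1) := by
    have h := (hasSum_nat_add_iff' 2).mpr hasSum_zeta_two
    simpa [Finset.sum_range_succ] using h
  have hle : ∀ n : ℕ, ‖1 / ((n : ℂ) + 1 + 1) ^ s‖ ≤ 1 / ((n + 2 : ℕ) : ℝ) ^ 2 := by
    intro n
    have hpos : 0 < ((n + 2 : ℕ) : ℝ) := by positivity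
    have e : ((n : ℂ) + 1 + 1) = (((n + 2 : ℕ) : ℝ) : ℂ) := by push_cast; ring
    rw [e, norm_div, norm_one, Complex.norm_cpow_eq_rpow_re_of_pos hpos]
    apply one_div_le_one_div_of_le (by positivity)
    rw [← Real.rpow_natCast]
    apply Real.rpow_le_rpow_of_exponent_le
    · push_cast
      have : (0 : ℝ) ≤ n := by positivity
      linarith
    · simpa using hs
  have hsum : Summable (fun n : ℕ => 1 / ((n : ℂ) + 1) ^ s) := by
    rw [← summable_nat_add_iff 1]
    apply Summable.of_norm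
    refine Summable.of_nonneg_of_le (fun _ => norm_nonneg _) (fun n => ?_) h1.summable
    have := hle n
    push_cast at this ⊢
    exact this
  have hz := zeta_eq_tsum_one_div_nat_add_one_cpow (s := s) (by linarith)
  have h2 : riemannZeta s - 1 = ∑' n : ℕ, 1 / ((n : ℂ) + 1 + 1) ^ s := by
    rw [hz, hsum.tsum_eq_zero_add]
    simp
  rw [h2]
  apply tsum_of_norm_bounded h1 hle

theorem zeta_lower (s : ℂ) (hs : 2 ≤ s.re) : 1 / 4 ≤ ‖riemannZeta s‖ := by
  have h := zeta_sub_one_le s hs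
  have hpi : Real.pi < 3.15 := Real.pi_lt_d2
  have hpi0 := Real.pi_pos
  have h1 : Real.pi ^ 2 < 9.93 := by nlinarith
  have h2 : ‖(1 : ℂ)‖ ≤ ‖riemannZeta s‖ + ‖riemannZeta s - 1‖ := by
    have := norm_sub_le (riemannZeta s) (riemannZeta s - 1)
    simpa using this
  rw [norm_one] at h2
  linarith

theorem zeta_upper (s : ℂ) (hs : 2 ≤ s.re) : ‖riemannZeta s‖ ≤ 2 := by
  have h := zeta_sub_one_le s hs
  have hpi : Real.pi < 3.15 := Real.pi_lt_d2
  have hpi0 := Real.pi_pos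
  have h1 : Real.pi ^ 2 < 9.93 := by nlinarith
  have h2 : ‖riemannZeta s‖ ≤ ‖riemannZeta s - 1‖ + ‖(1 : ℂ)‖ := by
    have := norm_add_le (riemannZeta s - 1) 1
    simpa using this
  rw [norm_one] at h2
  linarith

/-! ## Formula in the lower half plane of `s` -/

theorem XiData.Xi_even (H : XiData) (z : ℂ) : Xi (-z) = Xi z := by
  rw [H.eq, H.eq]
  have e : (1 : ℂ) / 2 + I * -z = 1 - (1 / 2 + I * z) := by ring
  rw [e, completedRiemannZeta₀_one_sub]
  ring

theorem XiData.Xi_far (H : XiData) (z : ℂ) (hz : 3 / 2 ≤ z.im) :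
    Xi z = (1 / 2 - I * z) * (1 / 2 - I * z - 1) / 2 *
      (((Real.pi : ℂ) ^ (-(1 / 2 - I * z) / 2) * Complex.Gamma ((1 / 2 - I * z) / 2)) *
        riemannZeta (1 / 2 - I * z)) := by
  rw [← H.Xi_even z, H.eq]
  have e : (1 : ℂ) / 2 + I * -z = 1 / 2 - I * z := by ring
  rw [e]
  set s : ℂ := 1 / 2 - I * z with hs
  have hre : s.re = 1 / 2 + z.im := by
    simp [hs]
  have hs0 : s ≠ 0 := by
    intro h
    rw [h] at hre
    simp at hre
    linarith
  have hs1 : s - 1 ≠ 0 := by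
    intro h
    have : s = 1 := by linear_combination h
    rw [this] at hre
    simp at hre
    linarith
  have hs1' : (1 : ℂ) - s ≠ 0 := by
    intro h
    exact hs1 (by linear_combination -h)
  have hG : (Real.pi : ℂ) ^ (-s / 2) * Complex.Gamma (s / 2) ≠ 0 := by
    have := Complex.Gammaℝ_ne_zero_of_re_pos (s := s) (by rw [hre]; linarith)
    rwa [Complex.Gammaℝ] at this
  rw [riemannZeta_eq_completedRiemannZeta₀ hs0, mul_div_cancel₀ _ hG]
  field_simp
  ring

theorem XiData.Xi_differentiable (H : XiData) : Differentiable ℂ Xi := by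
  have : Xi = fun z => (1 + (1 / 2 + I * z) * (1 / 2 + I * z - 1) *
    completedRiemannZeta₀ (1 / 2 + I * z)) / 2 := funext H.eq
  rw [this]
  have h1 : Differentiable ℂ (fun z : ℂ => completedRiemannZeta₀ (1 / 2 + I * z)) :=
    differentiable_completedZeta₀.comp (by fun_prop)
  fun_prop

/-! ## Lower bound far up -/

theorem XiData.Xi_lower_far' (H : XiData) (z : ℂ) (hz : 3 / 2 ≤ z.im) :
    Real.exp (-(4 * (1 + ‖z‖))) ≤ ‖Xi z‖ := by
  rw [H.Xi_far z hz]
  set s : ℂ := 1 / 2 - I * z with hs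
  have hre : s.re = 1 / 2 + z.im := by
    simp [hs]
  have hsn : ‖s‖ ≤ 1 / 2 + ‖z‖ := by
    rw [hs]
    refine (norm_sub_le _ _).trans ?_
    simp
  have h1 : 2 ≤ ‖s‖ := by
    have := (le_abs_self _).trans (Complex.abs_re_le_norm s)
    linarith
  have h2 : 1 ≤ ‖s - 1‖ := by
    have := (le_abs_self _).trans (Complex.abs_re_le_norm (s - 1))
    simp only [sub_re, one_re] at this
    linarith
  have h3 : Real.exp (-‖s‖) ≤ ‖(Real.pi : ℂ) ^ (-s / 2)‖ := by
    rw [Complex.norm_cpow_eq_rpow_re_of_pos Real.pi_pos, Real.rpow_def_of_pos Real.pi_pos]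
    apply Real.exp_le_exp.mpr
    have e : (-s / 2).re = -(s.re) / 2 := by simp
    rw [e]
    have hlog : Real.log Real.pi ≤ 2 := by
      rw [Real.log_le_iff_le_exp Real.pi_pos]
      have h4 : Real.pi ≤ 4 := Real.pi_le_four
      have h5 : (2 : ℝ) ≤ Real.exp 1 := by
        have := Real.add_one_le_exp 1
        linarith
      have h6 : Real.exp 2 = Real.exp 1 * Real.exp 1 := by rw [← Real.exp_add]; norm_num
      rw [h6]
      nlinarith
    have hlog0 : 0 ≤ Real.log Real.pi := by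
      apply Real.log_nonneg
      have := Real.pi_gt_three
      linarith
    have hres : s.re ≤ ‖s‖ := (le_abs_self _).trans (Complex.abs_re_le_norm s)
    have hres0 : 0 ≤ s.re := by rw [hre]; linarith
    nlinarith [mul_le_mul_of_nonneg_right hlog hres0]
  have h4 : Real.exp (-(3 * (‖s‖ / 2))) ≤ ‖Complex.Gamma (s / 2)‖ := by
    have h := norm_Gamma_ge' (s / 2) (by
      have : (s / 2).re = s.re / 2 := by simp
      rw [this, hre]
      linarith)
    rw [norm_div] at h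
    simpa using h
  have h5 : 1 / 4 ≤ ‖riemannZeta s‖ := zeta_lower s (by rw [hre]; linarith)
  rw [norm_mul, norm_div, norm_mul, norm_mul, norm_mul, Complex.norm_ofNat]
  have h6 : (1 : ℝ) ≤ ‖s‖ * ‖s - 1‖ / 2 := by
    rw [le_div_iff₀ (by norm_num)]
    nlinarith
  have h7 : Real.exp (-2) ≤ 1 / 4 := by
    rw [Real.exp_neg, ← one_div]
    apply one_div_le_one_div_of_le (by norm_num)
    have h5 : (2 : ℝ) ≤ Real.exp 1 := by
      have := Real.add_one_le_exp 1
      linarith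
    have h6 : Real.exp 2 = Real.exp 1 * Real.exp 1 := by rw [← Real.exp_add]; norm_num
    rw [h6]
    nlinarith
  calc Real.exp (-(4 * (1 + ‖z‖)))
      ≤ Real.exp (-‖s‖ + -(3 * (‖s‖ / 2)) + -2) := by
        apply Real.exp_le_exp.mpr
        linarith [norm_nonneg z]
    _ = 1 * (Real.exp (-‖s‖) * Real.exp (-(3 * (‖s‖ / 2))) * Real.exp (-2)) := by
        rw [Real.exp_add, Real.exp_add]; ring
    _ ≤ (‖s‖ * ‖s - 1‖ / 2) * (‖(Real.pi : ℂ) ^ (-s / 2)‖ * ‖Complex.Gamma (s / 2)‖ *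
          ‖riemannZeta s‖) := by
        gcongr
        exact h7.trans h5

theorem le_rpow_three_halves (x : ℝ) (hx : 1 ≤ x) : x ≤ x ^ (3 / 2 : ℝ) := by
  calc x = x ^ (1 : ℝ) := (Real.rpow_one x).symm
    _ ≤ x ^ (3 / 2 : ℝ) := Real.rpow_le_rpow_of_exponent_le hx (by norm_num)

theorem XiData.Xi_lower_far (H : XiData) : ∃ C > 0, ∀ z : ℂ, 3 / 2 ≤ z.im →
    Real.exp (-C * (1 + ‖z‖) ^ (3 / 2 : ℝ)) ≤ ‖Xi z‖ := by
  refine ⟨4, by norm_num, fun z hz => ?_⟩
  refine le_trans ?_ (H.Xi_lower_far' z hz)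
  apply Real.exp_le_exp.mpr
  have := le_rpow_three_halves (1 + ‖z‖) (by linarith [norm_nonneg z])
  linarith

/-! ## Upper bound -/

theorem exp_two_ge (u : ℝ) (hu : 0 ≤ u) : u + u ^ 3 ≤ Real.exp (2 * u) := by
  have h := Real.sum_le_exp_of_nonneg (x := 2 * u) (by linarith) 4
  simp only [Finset.sum_range_succ, Finset.sum_range_zero, Nat.factorial] at h
  have h2 : (0 : ℝ) ≤ u ^ 2 := by positivity
  have h3 : (0 : ℝ) ≤ u ^ 3 := by positivity
  norm_num at h
  nlinarith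

theorem exponent_le (R u : ℝ) (hR : 0 ≤ R) (hu : 0 ≤ u) :
    -Real.exp (2 * u) + R * u ≤ -u + R ^ (3 / 2 : ℝ) := by
  have h1 := exp_two_ge u hu
  have h2 : R * u ≤ u ^ 3 + R ^ (3 / 2 : ℝ) := by
    rcases le_total (u ^ 2) R with h | h
    · have h3 : u ≤ R ^ (1 / 2 : ℝ) := by
        rw [← Real.sqrt_eq_rpow]
        exact Real.le_sqrt_of_sq_le h
      have h4 : R ^ (3 / 2 : ℝ) = R * R ^ (1 / 2 : ℝ) := by
        rcases eq_or_lt_of_le hR with rfl | hR'
        · rw [Real.zero_rpow (by norm_num), zero_mul]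
        · rw [show (3 / 2 : ℝ) = 1 + 1 / 2 by norm_num, Real.rpow_add hR', Real.rpow_one]
      rw [h4]
      have h5 : 0 ≤ u ^ 3 := by positivity
      nlinarith [mul_le_mul_of_nonneg_left h3 hR]
    · have h6 : 0 ≤ R ^ (3 / 2 : ℝ) := by positivity
      nlinarith [mul_le_mul_of_nonneg_right h hu]
  linarith

theorem integrable_exp_neg_abs' (a : ℝ) (ha : 0 < a) :
    Integrable (fun t : ℝ => Real.exp (-(a * |t|))) := by
  have h1 : IntegrableOn (fun t : ℝ => Real.exp (-(a * |t|))) (Set.Ioi 0) := by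
    have h := integrableOn_exp_mul_Ioi (a := -a) (by linarith) 0
    refine h.congr_fun ?_ measurableSet_Ioi
    intro t ht
    simp only [Set.mem_Ioi] at ht
    simp only
    rw [abs_of_pos ht, neg_mul]
  have h2 : IntegrableOn (fun t : ℝ => Real.exp (-(a * |t|))) (Set.Iic 0) := by
    have h := integrableOn_exp_mul_Iic ha 0
    refine h.congr_fun ?_ measurableSet_Iic
    intro t ht
    simp only [Set.mem_Iic] at ht
    simp only
    rw [abs_of_nonpos ht, mul_neg, neg_neg]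
  rw [← integrableOn_univ, ← Set.Iic_union_Ioi (a := (0 : ℝ))]
  exact h2.union h1

theorem XiData.Xi_upper (H : XiData) : ∃ C > 0, ∀ z : ℂ,
    ‖Xi z‖ ≤ Real.exp (C * (1 + ‖z‖) ^ (3 / 2 : ℝ)) := by
  obtain ⟨C, hC, hPhi⟩ := H.le
  set D : ℝ := ∫ t : ℝ, Real.exp (-(1 * |t|)) with hD
  have hD0 : 0 ≤ D := integral_nonneg fun _ => (Real.exp_pos _).le
  have hint := integrable_exp_neg_abs' 1 one_pos
  have hbound : ∀ z : ℂ, ‖Xi z‖ ≤ (C * D) * Real.exp (‖z‖ ^ (3 / 2 : ℝ)) := by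
    intro z
    have h1 : ∀ t : ℝ, ‖(Phi t : ℂ) * Complex.exp (I * z * t)‖ ≤
        (C * Real.exp (‖z‖ ^ (3 / 2 : ℝ))) * Real.exp (-(1 * |t|)) := by
      intro t
      rw [norm_mul, Complex.norm_real, Real.norm_eq_abs, abs_of_pos (H.pos t), Complex.norm_exp]
      have h2 : (I * z * t).re ≤ ‖z‖ * |t| := by
        refine (le_abs_self _).trans ((Complex.abs_re_le_norm _).trans ?_)
        rw [norm_mul, norm_mul, Complex.norm_I, Complex.norm_real, Real.norm_eq_abs, one_mul]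
      have h3 := exponent_le ‖z‖ |t| (norm_nonneg z) (abs_nonneg t)
      calc Phi t * Real.exp (I * z * t).re
          ≤ (C * Real.exp (-Real.exp (2 * |t|))) * Real.exp (‖z‖ * |t|) := by
            apply mul_le_mul (hPhi t) (Real.exp_le_exp.mpr h2) (Real.exp_pos _).le
            positivity
        _ = C * Real.exp (-Real.exp (2 * |t|) + ‖z‖ * |t|) := by
            rw [mul_assoc, ← Real.exp_add]
        _ ≤ C * Real.exp (-|t| + ‖z‖ ^ (3 / 2 : ℝ)) := by gcongr
        _ = _ := by rw [Real.exp_add, one_mul]; ring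
    have h4 := norm_integral_le_of_norm_le (hint.const_mul (C * Real.exp (‖z‖ ^ (3 / 2 : ℝ))))
      (Filter.Eventually.of_forall h1)
    rw [integral_const_mul, ← hD] at h4
    calc ‖Xi z‖ ≤ C * Real.exp (‖z‖ ^ (3 / 2 : ℝ)) * D := h4
      _ = _ := by ring
  refine ⟨1 + C * D, by positivity, fun z => (hbound z).trans ?_⟩
  have hn := norm_nonneg z
  have e1 : C * D ≤ Real.exp (C * D) := by
    have := Real.add_one_le_exp (C * D)
    linarith
  calc (C * D) * Real.exp (‖z‖ ^ (3 / 2 : ℝ))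
      ≤ Real.exp (C * D) * Real.exp (‖z‖ ^ (3 / 2 : ℝ)) := by gcongr
    _ = Real.exp (C * D + ‖z‖ ^ (3 / 2 : ℝ)) := by rw [Real.exp_add]
    _ ≤ Real.exp ((1 + C * D) * (1 + ‖z‖) ^ (3 / 2 : ℝ)) := by
        apply Real.exp_le_exp.mpr
        have h5 : ‖z‖ ^ (3 / 2 : ℝ) ≤ (1 + ‖z‖) ^ (3 / 2 : ℝ) := by
          apply Real.rpow_le_rpow hn (by linarith) (by norm_num)
        have h6 : 1 ≤ (1 + ‖z‖) ^ (3 / 2 : ℝ) :=
          Real.one_le_rpow (by linarith) (by norm_num)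
        have h7 : 0 ≤ C * D := by positivity
        nlinarith [mul_le_mul_of_nonneg_left h6 h7]

end Pool.Agent.Weyl
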