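import Pool.Agent.Lib.MP_38bb4c_an.Bounds

/-!
# Lower bound of `Xi` in a zero free half plane, and decay on the line `Im z = 3/2`
-/

open Complex MeasureTheory Metric

namespace Pool.Agent.Weyl

theorem XiData.Xi_lower (H : XiData) {w0 w1 : ℝ} (h0 : 0 ≤ w0) (h : w0 < w1)
    (hz : ∀ z : ℂ, w0 < z.im → Xi z ≠ 0) : ∃ C > 0, ∀ z : ℂ, w1 ≤ z.im →
    Real.exp (-C * (1 + ‖z‖) ^ (3 / 2 : ℝ)) ≤ ‖Xi z‖ := by
  obtain ⟨C1, hC1, hup⟩ := H.Xi_upper
  obtain ⟨C2, hC2, hlow⟩ := H.Xi_lower_far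
  by_cases hw : 3 / 2 ≤ w1
  · exact ⟨C2, hC2, fun z hzz => hlow z (hw.trans hzz)⟩
  push Not at hw
  set R : ℝ := 3 / 2 - (w0 + w1) / 2 with hR
  set r : ℝ := 3 / 2 - w1 with hr
  have hr0 : 0 ≤ r := by rw [hr]; linarith
  have hrR : r < R := by rw [hr, hR]; linarith
  have hR2 : R ≤ 3 / 2 := by rw [hR]; linarith
  have hRr : 0 < R - r := by linarith
  have hd : Differentiable ℂ Xi := H.Xi_differentiable
  -- constants: for norm z, in the disc around c = re z + 3/2 i of radius R,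
  -- 1 + norm ≤ 4 (1 + norm z)
  set E : ℝ := 4 ^ (3 / 2 : ℝ) with hE
  have hE0 : 0 < E := by positivity
  set CC : ℝ := C2 * E + 2 * (C1 * E + C2 * E + 1) * r / (R - r) with hCC
  have hCC0 : 0 < CC := by positivity
  have hCC2 : C2 ≤ CC := by
    have hE1 : 1 ≤ E := Real.one_le_rpow (by norm_num) (by norm_num)
    have : 0 ≤ 2 * (C1 * E + C2 * E + 1) * r / (R - r) := by positivity
    rw [hCC]
    nlinarith
  refine ⟨CC, hCC0, fun z hzz => ?_⟩
  rcases le_or_gt (3 / 2) z.im with hi | hi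
  · refine le_trans ?_ (hlow z hi)
    apply Real.exp_le_exp.mpr
    have : 0 ≤ (1 + ‖z‖) ^ (3 / 2 : ℝ) := by positivity
    nlinarith
  set c : ℂ := (z.re : ℂ) + (3 / 2 : ℝ) * I with hc
  have hcim : c.im = 3 / 2 := by simp [hc]
  have hcre : c.re = z.re := by simp [hc]
  have hzn := norm_nonneg z
  have hcn : ‖c‖ ≤ ‖z‖ + 3 / 2 := by
    rw [hc]
    refine (norm_add_le _ _).trans ?_
    have h1 : ‖(z.re : ℂ)‖ ≤ ‖z‖ := by
      rw [Complex.norm_real]; exact Complex.abs_re_le_norm z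
    have h2 : ‖((3 / 2 : ℝ) : ℂ) * I‖ = 3 / 2 := by
      rw [norm_mul, Complex.norm_I, mul_one, Complex.norm_real]
      norm_num
    rw [h2]
    linarith
  set T : ℝ := (1 + ‖z‖) ^ (3 / 2 : ℝ) with hT
  have hT1 : 1 ≤ T := Real.one_le_rpow (by linarith) (by norm_num)
  have hbig : ∀ w : ℂ, ‖w‖ ≤ ‖z‖ + 3 → (1 + ‖w‖) ^ (3 / 2 : ℝ) ≤ E * T := by
    intro w hwn
    rw [hE, hT, ← Real.mul_rpow (by norm_num) (by linarith)]
    apply Real.rpow_le_rpow (by linarith [norm_nonneg w]) _ (by norm_num)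
    linarith
  have hball : ∀ w ∈ ball c R, w0 < w.im ∧ ‖w‖ ≤ ‖z‖ + 3 := by
    intro w hw
    rw [mem_ball, dist_eq_norm] at hw
    constructor
    · have h1 := Complex.abs_im_le_norm (w - c)
      rw [Complex.sub_im, hcim] at h1
      have h2 := (abs_le.mp h1).1
      rw [hR] at hw
      linarith
    · have : ‖w‖ ≤ ‖w - c‖ + ‖c‖ := by
        have := norm_add_le (w - c) c
        simpa using this
      linarith
  have hm := ball_lower (f := Xi) (c := c) (R := R) (r := r) (A := C1 * (E * T))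
    (B := C2 * (E * T)) hr0 hrR hd.differentiableOn
    (fun w hw => hz w (hball w hw).1)
    (fun w hw => (hup w).trans (Real.exp_le_exp.mpr
      (mul_le_mul_of_nonneg_left (hbig w (hball w hw).2) hC1.le)))
    ((Real.exp_le_exp.mpr (by
      have := mul_le_mul_of_nonneg_left (hbig c (by linarith)) hC2.le
      linarith)).trans (hlow c (by rw [hcim])))
    (by positivity) z (by
      have hzc : z - c = ((z.im - 3 / 2 : ℝ) : ℂ) * I := by
        apply Complex.ext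
        · simp [hcre]
        · simp [hcim]
      rw [hzc, norm_mul, Complex.norm_I, mul_one, Complex.norm_real, Real.norm_eq_abs,
        abs_of_neg (by linarith), hr]
      linarith)
  refine le_trans (Real.exp_le_exp.mpr ?_) hm
  rw [hCC]
  have h1 : 2 * (C1 * (E * T) + C2 * (E * T) + 1) * r / (R - r) ≤
      (2 * (C1 * E + C2 * E + 1) * r / (R - r)) * T := by
    rw [div_mul_eq_mul_div]
    apply div_le_div_of_nonneg_right _ hRr.le
    have : 2 * (C1 * (E * T) + C2 * (E * T) + 1) ≤ 2 * (C1 * E + C2 * E + 1) * T := by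
      nlinarith
    calc 2 * (C1 * (E * T) + C2 * (E * T) + 1) * r ≤ (2 * (C1 * E + C2 * E + 1) * T) * r :=
          mul_le_mul_of_nonneg_right this hr0
      _ = _ := by ring
  have h2 : -(C2 * E + 2 * (C1 * E + C2 * E + 1) * r / (R - r)) * T =
      -(C2 * (E * T) + (2 * (C1 * E + C2 * E + 1) * r / (R - r)) * T) := by ring
  rw [h2]
  linarith

theorem one_add_le_exp (a k t : ℝ) (ha : 0 < a) (hk : 0 < k) (ht : 0 ≤ t) :
    k + a * t ≤ (k + a) * 24 * Real.exp (t / 24) := by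
  have h := Real.add_one_le_exp (t / 24)
  nlinarith [mul_nonneg hk.le ht, mul_nonneg ha.le ht]

theorem XiData.Xi_line_bound (H : XiData) : ∃ C > 0, ∀ x : ℝ,
    ‖Xi ((x : ℂ) + (3 / 2 : ℝ) * I)‖ ≤ C * Real.exp (-(1 / 2 * |x|)) := by
  refine ⟨(2 + 1) * 24 * ((1 + 1) * 24) * ((1 + 4) * 24), by norm_num, fun x => ?_⟩
  have him : ((x : ℂ) + (3 / 2 : ℝ) * I).im = 3 / 2 := by simp
  rw [H.Xi_far _ (by rw [him])]
  have hs : (1 : ℂ) / 2 - I * ((x : ℂ) + (3 / 2 : ℝ) * I) = 2 - I * x := by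
    have : I * ((x : ℂ) + (3 / 2 : ℝ) * I) = I * x - 3 / 2 := by
      push_cast
      rw [mul_add, mul_left_comm, Complex.I_mul_I]
      ring
    rw [this]
    ring
  rw [hs]
  set s : ℂ := 2 - I * x with hsd
  have hx0 : 0 ≤ |x| := abs_nonneg x
  have h1 : ‖s‖ ≤ 2 + 1 * |x| := by
    rw [hsd]
    refine (norm_sub_le _ _).trans ?_
    rw [norm_mul, Complex.norm_I, Complex.norm_real, Real.norm_eq_abs]
    simp
  have h2 : ‖s - 1‖ ≤ 1 + 1 * |x| := by
    have : s - 1 = 1 - I * x := by rw [hsd]; ring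
    rw [this]
    refine (norm_sub_le _ _).trans ?_
    rw [norm_mul, Complex.norm_I, Complex.norm_real, Real.norm_eq_abs]
    simp
  have hre : s.re = 2 := by simp [hsd]
  have h3 : ‖(Real.pi : ℂ) ^ (-s / 2)‖ ≤ 1 := by
    rw [Complex.norm_cpow_eq_rpow_re_of_pos Real.pi_pos]
    have e : (-s / 2).re = -1 := by simp [hre]
    rw [e]
    apply Real.rpow_le_one_of_one_le_of_nonpos
    · have := Real.pi_gt_three
      linarith
    · norm_num
  have h4 : ‖Complex.Gamma (s / 2)‖ ≤ (1 + 4 * |x|) * Real.exp (-(3 / 4 * |x|)) := by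
    have e : s / 2 = 1 + ((-(x / 2) : ℝ) : ℂ) * I := by
      rw [hsd]
      push_cast
      ring
    rw [e]
    apply le_of_sq_le_sq _ (by positivity)
    refine (norm_Gamma_one_le _).trans ?_
    rw [abs_neg, abs_div, mul_pow, ← Real.exp_nat_mul]
    have hpi : 3 < Real.pi := Real.pi_gt_three
    have hpi4 : Real.pi < 4 := Real.pi_lt_four
    have h5 : 1 + 2 * (Real.pi * (|x| / |2|)) ≤ (1 + 4 * |x|) ^ 2 := by
      rw [abs_of_pos (by norm_num : (0 : ℝ) < 2)]
      nlinarith [mul_nonneg hx0 hx0]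
    have h6 : Real.exp (-(Real.pi * (|x| / |2|))) ≤
        Real.exp (((2 : ℕ) : ℝ) * -(3 / 4 * |x|)) := by
      apply Real.exp_le_exp.mpr
      rw [abs_of_pos (by norm_num : (0 : ℝ) < 2)]
      push_cast
      nlinarith
    gcongr
  have h5 : ‖riemannZeta s‖ ≤ 2 := zeta_upper s (by rw [hre])
  rw [norm_mul, norm_div, norm_mul, norm_mul, norm_mul, Complex.norm_ofNat]
  have b1 := one_add_le_exp 1 2 |x| one_pos (by norm_num) hx0
  have b2 := one_add_le_exp 1 1 |x| one_pos one_pos hx0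
  have b3 := one_add_le_exp 4 1 |x| (by norm_num) one_pos hx0
  have hE : Real.exp (|x| / 24) * Real.exp (|x| / 24) * Real.exp (|x| / 24) *
      Real.exp (-(3 / 4 * |x|)) ≤ Real.exp (-(1 / 2 * |x|)) := by
    rw [← Real.exp_add, ← Real.exp_add, ← Real.exp_add]
    apply Real.exp_le_exp.mpr
    linarith
  calc ‖s‖ * ‖s - 1‖ / 2 * (‖(Real.pi : ℂ) ^ (-s / 2)‖ * ‖Complex.Gamma (s / 2)‖ *
        ‖riemannZeta s‖)
      ≤ (2 + 1 * |x|) * (1 + 1 * |x|) / 2 * (1 * ((1 + 4 * |x|) * Real.exp (-(3 / 4 * |x|))) *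
        2) := by gcongr
    _ = (2 + 1 * |x|) * (1 + 1 * |x|) * (1 + 4 * |x|) * Real.exp (-(3 / 4 * |x|)) := by ring
    _ ≤ ((2 + 1) * 24 * Real.exp (|x| / 24)) * ((1 + 1) * 24 * Real.exp (|x| / 24)) *
        ((1 + 4) * 24 * Real.exp (|x| / 24)) * Real.exp (-(3 / 4 * |x|)) := by gcongr
    _ = ((2 + 1) * 24 * ((1 + 1) * 24) * ((1 + 4) * 24)) * (Real.exp (|x| / 24) *
        Real.exp (|x| / 24) * Real.exp (|x| / 24) * Real.exp (-(3 / 4 * |x|))) := by ring
    _ ≤ ((2 + 1) * 24 * ((1 + 1) * 24) * ((1 + 4) * 24)) * Real.exp (-(1 / 2 * |x|)) := by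
        gcongr

theorem XiData.Xi_line (H : XiData) :
    Integrable (fun x : ℝ => (1 + |x|) * ‖Xi ((x : ℂ) + (3 / 2 : ℝ) * I)‖) := by
  obtain ⟨C, hC, hb⟩ := H.Xi_line_bound
  have hcont : Continuous (fun x : ℝ => (1 + |x|) * ‖Xi ((x : ℂ) + (3 / 2 : ℝ) * I)‖) := by
    have hXi : Continuous Xi := H.Xi_differentiable.continuous
    have h1 : Continuous (fun x : ℝ => (x : ℂ) + (3 / 2 : ℝ) * I) := by fun_prop
    have h2 : Continuous (fun x : ℝ => Xi ((x : ℂ) + (3 / 2 : ℝ) * I)) := hXi.comp h1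
    fun_prop
  refine Integrable.mono' ((integrable_exp_neg_abs' (1 / 4) (by norm_num)).const_mul (4 * C))
    hcont.aestronglyMeasurable (Filter.Eventually.of_forall fun x => ?_)
  have hx0 : 0 ≤ |x| := abs_nonneg x
  rw [Real.norm_eq_abs, abs_of_nonneg (by positivity)]
  have h1 : 1 + |x| ≤ 4 * Real.exp (1 / 4 * |x|) := by
    have := Real.add_one_le_exp (1 / 4 * |x|)
    linarith
  calc (1 + |x|) * ‖Xi ((x : ℂ) + (3 / 2 : ℝ) * I)‖
      ≤ (4 * Real.exp (1 / 4 * |x|)) * (C * Real.exp (-(1 / 2 * |x|))) := by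
        apply mul_le_mul h1 (hb x) (norm_nonneg _) (by positivity)
    _ = 4 * C * (Real.exp (1 / 4 * |x|) * Real.exp (-(1 / 2 * |x|))) := by ring
    _ = 4 * C * Real.exp (-(1 / 4 * |x|)) := by
        rw [← Real.exp_add]
        ring_nf

end Pool.Agent.Weyl
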