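import Pool.Agent.Lib.MP_38bb4c_an.Riemann

/-!
# `K 0` positive semidefinite implies that all zeros of `Xi` are real
-/

open Complex MeasureTheory Set Filter Topology

namespace Pool.Agent.Weyl

/-- The derivative of `Xi`. -/
theorem XiData.Xi_hasDerivAt (H : XiData) (z : ℂ) :
    HasDerivAt Xi (∫ t : ℝ, (Phi t : ℂ) * (Complex.exp (I * z * t) * (I * t))) z := by
  obtain ⟨C, hC, h⟩ := H.Phi_exp (‖z‖ + 1 + 1) (by positivity)
  have hcont : ∀ w : ℂ, Continuous (fun t : ℝ => (Phi t : ℂ) * Complex.exp (I * w * t)) := by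
    intro w
    have := H.cont
    fun_prop
  have hcont' : Continuous (fun t : ℝ => (Phi t : ℂ) * (Complex.exp (I * z * t) * (I * t))) := by
    have := H.cont
    fun_prop
  have hexp : ∀ w : ℂ, ∀ t : ℝ, ‖Complex.exp (I * w * t)‖ ≤ Real.exp (‖w‖ * |t|) := by
    intro w t
    rw [Complex.norm_exp]
    apply Real.exp_le_exp.mpr
    refine (le_abs_self _).trans ((Complex.abs_re_le_norm _).trans ?_)
    rw [norm_mul, norm_mul, Complex.norm_I, Complex.norm_real, Real.norm_eq_abs, one_mul]
  have hF : Integrable (fun t : ℝ => (Phi t : ℂ) * Complex.exp (I * z * t)) := by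
    refine Integrable.mono' ((integrable_exp_neg_abs' 1 one_pos).const_mul C)
      (hcont z).aestronglyMeasurable (Eventually.of_forall fun t => ?_)
    rw [norm_mul, Complex.norm_real, Real.norm_eq_abs, abs_of_pos (H.pos t)]
    refine le_trans ?_ (h t)
    apply mul_le_mul_of_nonneg_left _ (H.pos t).le
    refine (hexp z t).trans ?_
    apply Real.exp_le_exp.mpr
    apply mul_le_mul_of_nonneg_right _ (abs_nonneg t)
    linarith
  have key := hasDerivAt_integral_of_dominated_loc_of_deriv_le (𝕜 := ℂ)
    (μ := volume) (x₀ := z) (s := Metric.ball z 1)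
    (F := fun w (t : ℝ) => (Phi t : ℂ) * Complex.exp (I * w * t))
    (F' := fun w (t : ℝ) => (Phi t : ℂ) * (Complex.exp (I * w * t) * (I * t)))
    (bound := fun t => C * Real.exp (-(1 * |t|)))
    (Metric.ball_mem_nhds z one_pos)
    (Eventually.of_forall fun w => (hcont w).aestronglyMeasurable)
    hF hcont'.aestronglyMeasurable
    (Eventually.of_forall fun t w hw => by
      have hw1 : ‖w‖ ≤ ‖z‖ + 1 := by
        rw [Metric.mem_ball, dist_eq_norm] at hw
        have := norm_add_le (w - z) z
        rw [sub_add_cancel] at this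
        linarith
      have e : ‖(Phi t : ℂ) * (Complex.exp (I * w * t) * (I * t))‖ =
          Phi t * (‖Complex.exp (I * w * t)‖ * |t|) := by
        rw [norm_mul, norm_mul, norm_mul, Complex.norm_I, Complex.norm_real, Complex.norm_real,
          Real.norm_eq_abs, Real.norm_eq_abs, abs_of_pos (H.pos t), one_mul]
      rw [e]
      refine le_trans ?_ (h t)
      apply mul_le_mul_of_nonneg_left _ (H.pos t).le
      have h1 : |t| ≤ Real.exp (1 * |t|) := by
        have := Real.add_one_le_exp (1 * |t|)
        linarith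
      calc ‖Complex.exp (I * w * t)‖ * |t| ≤ Real.exp ((‖z‖ + 1) * |t|) * Real.exp (1 * |t|) := by
            apply mul_le_mul _ h1 (abs_nonneg t) (Real.exp_pos _).le
            refine (hexp w t).trans ?_
            apply Real.exp_le_exp.mpr
            exact mul_le_mul_of_nonneg_right hw1 (abs_nonneg t)
        _ = Real.exp ((‖z‖ + 1 + 1) * |t|) := by rw [← Real.exp_add]; ring_nf)
    ((integrable_exp_neg_abs' 1 one_pos).const_mul C)
    (Eventually.of_forall fun t w _ => by
      have h1 : HasDerivAt (fun w : ℂ => I * w * t) (I * t) w := by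
        have := ((hasDerivAt_id w).const_mul I).mul_const (t : ℂ)
        simpa using this
      exact h1.cexp.const_mul _)
  exact key.2

/-- The quadratic form of `K 0`. -/
theorem XiData.K0_form (H : XiData) {N : ℕ} (a : Fin N → ℝ) (c : Fin N → ℂ) :
    ∑ i, ∑ j, (c i * (starRingEnd ℂ) (c j)).re * K 0 (a i) (a j) =
      1 / 2 * ∫ t in Ioi (0 : ℝ), ((∑ i, c i * ((Phi (a i + t) : ℝ) : ℂ)) *
        (starRingEnd ℂ) (∑ j, c j * (((a j + t) * Phi (a j + t) : ℝ) : ℂ))).re := by
  have h1 : ∀ t : ℝ, ((∑ i, c i * ((Phi (a i + t) : ℝ) : ℂ)) *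
        (starRingEnd ℂ) (∑ j, c j * (((a j + t) * Phi (a j + t) : ℝ) : ℂ))).re =
      1 / 2 * ∑ i, ∑ j, (c i * (starRingEnd ℂ) (c j)).re * kint 0 (a i) (a j) t := by
    intro t
    have e1 : ((∑ i, c i * ((Phi (a i + t) : ℝ) : ℂ)) *
        (starRingEnd ℂ) (∑ j, c j * (((a j + t) * Phi (a j + t) : ℝ) : ℂ))).re =
        ∑ i, ∑ j, (c i * (starRingEnd ℂ) (c j)).re *
          (Phi (a i + t) * ((a j + t) * Phi (a j + t))) := by
      rw [map_sum, Finset.sum_mul_sum, Complex.re_sum]
      refine Finset.sum_congr rfl fun i _ => ?_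
      rw [Complex.re_sum]
      refine Finset.sum_congr rfl fun j _ => ?_
      rw [map_mul, Complex.conj_ofReal]
      have : c i * ((Phi (a i + t) : ℝ) : ℂ) * ((starRingEnd ℂ) (c j) *
          (((a j + t) * Phi (a j + t) : ℝ) : ℂ)) = (c i * (starRingEnd ℂ) (c j)) *
          ((Phi (a i + t) * ((a j + t) * Phi (a j + t)) : ℝ) : ℂ) := by
        push_cast
        ring
      rw [this, Complex.re_mul_ofReal]
    have e2 : ∑ i, ∑ j, (c i * (starRingEnd ℂ) (c j)).re *
          (Phi (a i + t) * ((a j + t) * Phi (a j + t))) =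
        ∑ i, ∑ j, (c i * (starRingEnd ℂ) (c j)).re *
          (Phi (a j + t) * ((a i + t) * Phi (a i + t))) := by
      rw [Finset.sum_comm]
      refine Finset.sum_congr rfl fun i _ => Finset.sum_congr rfl fun j _ => ?_
      congr 1
      simp only [Complex.mul_re, Complex.conj_re, Complex.conj_im]
      ring
    have e3 : ∑ i, ∑ j, (c i * (starRingEnd ℂ) (c j)).re * kint 0 (a i) (a j) t =
        ∑ i, ∑ j, (c i * (starRingEnd ℂ) (c j)).re *
          (Phi (a i + t) * ((a j + t) * Phi (a j + t))) +
        ∑ i, ∑ j, (c i * (starRingEnd ℂ) (c j)).re *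
          (Phi (a j + t) * ((a i + t) * Phi (a i + t))) := by
      rw [← Finset.sum_add_distrib]
      refine Finset.sum_congr rfl fun i _ => ?_
      rw [← Finset.sum_add_distrib]
      refine Finset.sum_congr rfl fun j _ => ?_
      rw [kint, zero_mul, Real.cosh_zero]
      ring
    rw [e1, e3, ← e2]
    ring
  simp only [h1]
  rw [integral_const_mul, integral_finsetSum _ fun i _ => integrable_finsetSum _ fun j _ =>
    ((H.kint_integrable 0 (a i) (a j)).integrableOn.const_mul _), ← mul_assoc, Finset.mul_sum]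
  refine Finset.sum_congr rfl fun i _ => ?_
  rw [integral_finsetSum _ fun j _ => ((H.kint_integrable 0 (a i) (a j)).integrableOn.const_mul _),
    Finset.mul_sum]
  refine Finset.sum_congr rfl fun j _ => ?_
  rw [integral_const_mul, H.K_eq]
  ring

end Pool.Agent.Weyl
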