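import Pool.Agent.Lib.MP_38bb4c_an.Converse2

/-!
# Two-point plane wave forms of `K w`
-/

open Complex MeasureTheory Set Filter Topology

namespace Pool.Agent.Weyl

/-- The weighted kernel `Phi u * exp (w u)`. -/
noncomputable def pw (w u : ℝ) : ℝ := Phi u * Real.exp (w * u)

theorem re_form {N : ℕ} (c : Fin N → ℂ) (p x : Fin N → ℝ) :
    ((∑ i, c i * ((p i : ℝ) : ℂ)) *
        (starRingEnd ℂ) (∑ j, c j * ((x j * p j : ℝ) : ℂ))).re =
      ∑ i, ∑ j, (c i * (starRingEnd ℂ) (c j)).re * (1 / 2 * (p i * p j * (x i + x j))) := by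
  have e1 : ((∑ i, c i * ((p i : ℝ) : ℂ)) *
      (starRingEnd ℂ) (∑ j, c j * ((x j * p j : ℝ) : ℂ))).re =
      ∑ i, ∑ j, (c i * (starRingEnd ℂ) (c j)).re * (p i * (x j * p j)) := by
    rw [map_sum, Finset.sum_mul_sum, Complex.re_sum]
    refine Finset.sum_congr rfl fun i _ => ?_
    rw [Complex.re_sum]
    refine Finset.sum_congr rfl fun j _ => ?_
    rw [map_mul, Complex.conj_ofReal]
    have : c i * ((p i : ℝ) : ℂ) * ((starRingEnd ℂ) (c j) * ((x j * p j : ℝ) : ℂ)) =
        (c i * (starRingEnd ℂ) (c j)) * ((p i * (x j * p j) : ℝ) : ℂ) := by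
      push_cast
      ring
    rw [this, Complex.re_mul_ofReal]
  have e2 : ∑ i, ∑ j, (c i * (starRingEnd ℂ) (c j)).re * (p i * (x j * p j)) =
      ∑ i, ∑ j, (c i * (starRingEnd ℂ) (c j)).re * (p j * (x i * p i)) := by
    rw [Finset.sum_comm]
    refine Finset.sum_congr rfl fun i _ => Finset.sum_congr rfl fun j _ => ?_
    congr 1
    simp only [Complex.mul_re, Complex.conj_re, Complex.conj_im]
    ring
  have e3 : ∑ i, ∑ j, (c i * (starRingEnd ℂ) (c j)).re * (1 / 2 * (p i * p j * (x i + x j))) =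
      1 / 2 * (∑ i, ∑ j, (c i * (starRingEnd ℂ) (c j)).re * (p i * (x j * p j)) +
        ∑ i, ∑ j, (c i * (starRingEnd ℂ) (c j)).re * (p j * (x i * p i))) := by
    rw [← Finset.sum_add_distrib, Finset.mul_sum]
    refine Finset.sum_congr rfl fun i _ => ?_
    rw [← Finset.sum_add_distrib, Finset.mul_sum]
    refine Finset.sum_congr rfl fun j _ => ?_
    ring
  rw [e1, e3, ← e2]
  ring

/-- The quadratic form of `K w`. -/
theorem XiData.K_form (H : XiData) (w : ℝ) {N : ℕ} (a : Fin N → ℝ) (c : Fin N → ℂ) :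
    ∑ i, ∑ j, (c i * (starRingEnd ℂ) (c j)).re * K w (a i) (a j) =
      1 / 4 * ∫ t in Ioi (0 : ℝ), (((∑ i, c i * ((pw w (a i + t) : ℝ) : ℂ)) *
        (starRingEnd ℂ) (∑ j, c j * (((a j + t) * pw w (a j + t) : ℝ) : ℂ))).re +
        ((∑ i, c i * ((pw (-w) (a i + t) : ℝ) : ℂ)) *
        (starRingEnd ℂ) (∑ j, c j * (((a j + t) * pw (-w) (a j + t) : ℝ) : ℂ))).re) := by
  have h1 : ∀ t : ℝ, (((∑ i, c i * ((pw w (a i + t) : ℝ) : ℂ)) *
        (starRingEnd ℂ) (∑ j, c j * (((a j + t) * pw w (a j + t) : ℝ) : ℂ))).re +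
        ((∑ i, c i * ((pw (-w) (a i + t) : ℝ) : ℂ)) *
        (starRingEnd ℂ) (∑ j, c j * (((a j + t) * pw (-w) (a j + t) : ℝ) : ℂ))).re) =
      ∑ i, ∑ j, (c i * (starRingEnd ℂ) (c j)).re * kint w (a i) (a j) t := by
    intro t
    rw [re_form c (fun i => pw w (a i + t)) (fun i => a i + t),
      re_form c (fun i => pw (-w) (a i + t)) (fun i => a i + t), ← Finset.sum_add_distrib]
    refine Finset.sum_congr rfl fun i _ => ?_
    rw [← Finset.sum_add_distrib]
    refine Finset.sum_congr rfl fun j _ => ?_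
    rw [kint, pw, pw, pw, pw, Real.cosh_eq]
    have e1 : Real.exp (w * (a i + a j + 2 * t)) =
        Real.exp (w * (a i + t)) * Real.exp (w * (a j + t)) := by
      rw [← Real.exp_add]; ring_nf
    have e2 : Real.exp (-(w * (a i + a j + 2 * t))) =
        Real.exp (-w * (a i + t)) * Real.exp (-w * (a j + t)) := by
      rw [← Real.exp_add]; ring_nf
    rw [e1, e2]
    ring
  simp only [h1]
  rw [integral_finsetSum _ fun i _ => integrable_finsetSum _ fun j _ =>
    ((H.kint_integrable w (a i) (a j)).integrableOn.const_mul _), Finset.mul_sum]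
  refine Finset.sum_congr rfl fun i _ => ?_
  rw [integral_finsetSum _ fun j _ => ((H.kint_integrable w (a i) (a j)).integrableOn.const_mul _),
    Finset.mul_sum]
  refine Finset.sum_congr rfl fun j _ => ?_
  rw [integral_const_mul, H.K_eq]
  ring

/-- Admissible test functions. -/
structure Tst (c : ℝ → ℂ) (A y Y : ℝ) : Prop where
  cont : Continuous c
  hA : 0 ≤ A
  hy : 0 < y
  hY : 0 ≤ Y
  bd : ∀ t a : ℝ, 0 < t → ‖c a‖ ≤ A * Real.exp (-(y * t)) * Real.exp (Y * |a + t|)

theorem XiData.gen_bound (H : XiData) (w : ℝ) {c : ℝ → ℂ} {A y Y : ℝ} (hc : Tst c A y Y) :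
    ∃ C > 0, ∀ t a : ℝ, 0 < t →
    ‖((pw w (a + t) : ℝ) : ℂ) * c a‖ ≤
      C * Real.exp (-(y * t)) * Real.exp (-(1 * |a + t|)) ∧
    ‖(((a + t) * pw w (a + t) : ℝ) : ℂ) * c a‖ ≤
      C * Real.exp (-(y * t)) * Real.exp (-(1 * |a + t|)) := by
  have hY := hc.hY
  have hA := hc.hA
  obtain ⟨C, hC, h⟩ := H.Phi_exp (|w| + Y + 1) (by positivity)
  refine ⟨A * C + 1, by positivity, fun t a ht => ?_⟩
  have hn := hc.bd t a ht
  have hp := H.pos (a + t)
  have hu := h (a + t)
  have e : Real.exp ((|w| + Y + 1) * |a + t|) =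
      Real.exp (|w| * |a + t|) * Real.exp (Y * |a + t|) * Real.exp |a + t| := by
    rw [← Real.exp_add, ← Real.exp_add]; ring_nf
  rw [e] at hu
  have h0 : Real.exp (w * (a + t)) ≤ Real.exp (|w| * |a + t|) := by
    apply Real.exp_le_exp.mpr
    rw [← abs_mul]
    exact le_abs_self _
  have h1 : 1 ≤ Real.exp |a + t| := Real.one_le_exp (abs_nonneg _)
  have h2 : |a + t| ≤ Real.exp |a + t| := by
    have := Real.add_one_le_exp |a + t|
    linarith
  have key : ∀ k : ℝ, 0 ≤ k → k ≤ Real.exp |a + t| →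
      k * pw w (a + t) * ‖c a‖ ≤
        (A * C + 1) * Real.exp (-(y * t)) * Real.exp (-(1 * |a + t|)) := by
    intro k hk hk2
    rw [pw]
    calc k * (Phi (a + t) * Real.exp (w * (a + t))) * ‖c a‖
        ≤ Real.exp |a + t| * (Phi (a + t) * Real.exp (|w| * |a + t|)) *
          (A * Real.exp (-(y * t)) * Real.exp (Y * |a + t|)) := by
          gcongr
      _ = A * Real.exp (-(y * t)) * (Phi (a + t) * (Real.exp (|w| * |a + t|) *
          Real.exp (Y * |a + t|) * Real.exp |a + t|)) := by ring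
      _ ≤ A * Real.exp (-(y * t)) * (C * Real.exp (-(1 * |a + t|))) := by gcongr
      _ = (A * C) * Real.exp (-(y * t)) * Real.exp (-(1 * |a + t|)) := by ring
      _ ≤ _ := by
        gcongr
        linarith
  have hpw : 0 < pw w (a + t) := mul_pos hp (Real.exp_pos _)
  constructor
  · rw [norm_mul, Complex.norm_real, Real.norm_eq_abs, abs_of_pos hpw]
    have := key 1 zero_le_one h1
    rwa [one_mul] at this
  · rw [norm_mul, Complex.norm_real, Real.norm_eq_abs, abs_mul, abs_of_pos hpw]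
    exact key _ (abs_nonneg _) h2

/-- The transforms of a test function. -/
noncomputable def TA (w : ℝ) (c : ℝ → ℂ) (t : ℝ) : ℂ := ∫ a : ℝ, ((pw w (a + t) : ℝ) : ℂ) * c a

/-- The transforms of a test function, with weight. -/
noncomputable def TB (w : ℝ) (c : ℝ → ℂ) (t : ℝ) : ℂ :=
  ∫ a : ℝ, (((a + t) * pw w (a + t) : ℝ) : ℂ) * c a

theorem XiData.gen_lim (H : XiData) (w : ℝ) {c : ℝ → ℂ} {A y Y : ℝ} (hc : Tst c A y Y) :
    (∀ N : ℕ, N ≠ 0 → IntegrableOn (fun t => (RS N (fun a => ((pw w (a + t) : ℝ) : ℂ) * c a) *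
        (starRingEnd ℂ) (RS N (fun a => (((a + t) * pw w (a + t) : ℝ) : ℂ) * c a))).re)
        (Ioi (0 : ℝ))) ∧
    IntegrableOn (fun t => (TA w c t * (starRingEnd ℂ) (TB w c t)).re) (Ioi (0 : ℝ)) ∧
    Tendsto (fun N : ℕ =>
      ∫ t in Ioi (0 : ℝ), (RS N (fun a => ((pw w (a + t) : ℝ) : ℂ) * c a) *
        (starRingEnd ℂ) (RS N (fun a => (((a + t) * pw w (a + t) : ℝ) : ℂ) * c a))).re) atTop
      (𝓝 (∫ t in Ioi (0 : ℝ), (TA w c t * (starRingEnd ℂ) (TB w c t)).re)) := by
  obtain ⟨C, hC, hb⟩ := H.gen_bound w hc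
  have hy := hc.hy
  set φ : ℝ → ℝ → ℂ := fun t a => ((pw w (a + t) : ℝ) : ℂ) * c a with hφ
  set ψ : ℝ → ℝ → ℂ := fun t a => (((a + t) * pw w (a + t) : ℝ) : ℂ) * c a with hψ
  have hcont := H.cont
  have hcc := hc.cont
  have hφc : ∀ t, Continuous (φ t) := by intro t; rw [hφ]; unfold pw; fun_prop
  have hψc : ∀ t, Continuous (ψ t) := by intro t; rw [hψ]; unfold pw; fun_prop
  have hφt : ∀ a, Continuous (fun t => φ t a) := by intro a; rw [hφ]; unfold pw; fun_prop
  have hψt : ∀ a, Continuous (fun t => ψ t a) := by intro a; rw [hψ]; unfold pw; fun_prop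
  set M : ℝ := ∫ u : ℝ, Real.exp (-(1 * |u|)) with hM
  have hM0 : 0 ≤ M := integral_nonneg fun _ => (Real.exp_pos _).le
  have hRSc : ∀ N : ℕ, N ≠ 0 → Continuous (fun t => RS N (φ t)) ∧
      Continuous (fun t => RS N (ψ t)) := by
    intro N hN
    constructor
    · have : (fun t => RS N (φ t)) = fun t =>
          ∑ i : Fin (2 * N * N), ((1 / (N : ℝ) : ℝ) : ℂ) * φ t ((i : ℝ) / N - N) :=
        funext fun t => RS_eq N hN _
      rw [this]
      exact continuous_finsetSum _ fun i _ => continuous_const.mul (hφt _)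
    · have : (fun t => RS N (ψ t)) = fun t =>
          ∑ i : Fin (2 * N * N), ((1 / (N : ℝ) : ℝ) : ℂ) * ψ t ((i : ℝ) / N - N) :=
        funext fun t => RS_eq N hN _
      rw [this]
      exact continuous_finsetSum _ fun i _ => continuous_const.mul (hψt _)
  have hCt : ∀ t : ℝ, 0 ≤ C * Real.exp (-(y * t)) := fun t => by positivity
  have hmeas : ∀ N : ℕ, N ≠ 0 → Continuous
      (fun t => (RS N (φ t) * (starRingEnd ℂ) (RS N (ψ t))).re) := by
    intro N hN
    exact Complex.continuous_re.comp ((hRSc N hN).1.mul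
      (Complex.continuous_conj.comp (hRSc N hN).2))
  have hbound : ∀ N : ℕ, N ≠ 0 → ∀ t : ℝ, 0 < t →
      ‖(RS N (φ t) * (starRingEnd ℂ) (RS N (ψ t))).re‖ ≤
        (C * Real.exp 1 * M) * (C * Real.exp 1 * M) * Real.exp (-(2 * y) * t) := by
    intro N hN t ht
    have b1 := RS_norm_le N hN (φ t) (C * Real.exp (-(y * t))) t
      (fun a => (hb t a ht).1) (hCt t)
    have b2 := RS_norm_le N hN (ψ t) (C * Real.exp (-(y * t))) t
      (fun a => (hb t a ht).2) (hCt t)
    rw [← hM] at b1 b2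
    rw [Real.norm_eq_abs]
    refine (Complex.abs_re_le_norm _).trans ?_
    rw [norm_mul, RCLike.norm_conj]
    have e : Real.exp (-(2 * y) * t) = Real.exp (-(y * t)) * Real.exp (-(y * t)) := by
      rw [← Real.exp_add]; ring_nf
    calc ‖RS N (φ t)‖ * ‖RS N (ψ t)‖
        ≤ (C * Real.exp (-(y * t)) * Real.exp 1 * M) *
          (C * Real.exp (-(y * t)) * Real.exp 1 * M) := by
          apply mul_le_mul b1 b2 (norm_nonneg _) (by positivity)
      _ = _ := by rw [e]; ring
  have hdom : IntegrableOn (fun t => (C * Real.exp 1 * M) * (C * Real.exp 1 * M) *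
      Real.exp (-(2 * y) * t)) (Ioi (0 : ℝ)) := by
    apply Integrable.const_mul
    exact integrableOn_exp_mul_Ioi (by linarith) 0
  have hptw : ∀ t : ℝ, 0 < t → Tendsto (fun N : ℕ =>
      (RS N (φ t) * (starRingEnd ℂ) (RS N (ψ t))).re) atTop
      (𝓝 ((TA w c t * (starRingEnd ℂ) (TB w c t)).re)) := by
    intro t ht
    have b1 := RS_tendsto (φ t) (hφc t) (C * Real.exp (-(y * t))) t (hCt t)
      (fun a => (hb t a ht).1)
    have b2 := RS_tendsto (ψ t) (hψc t) (C * Real.exp (-(y * t))) t (hCt t)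
      (fun a => (hb t a ht).2)
    have b3 := b1.mul ((Complex.continuous_conj.tendsto _).comp b2)
    exact (Complex.continuous_re.tendsto _).comp b3
  refine ⟨fun N hN => ?_, ?_, ?_⟩
  · refine Integrable.mono' hdom (hmeas N hN).aestronglyMeasurable ?_
    exact (ae_restrict_iff' measurableSet_Ioi).mpr (Eventually.of_forall fun t ht =>
      hbound N hN t ht)
  · have hmeas2 : AEStronglyMeasurable (fun t => (TA w c t * (starRingEnd ℂ) (TB w c t)).re)
        (volume.restrict (Ioi (0 : ℝ))) := by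
      refine aestronglyMeasurable_of_tendsto_ae (u := atTop)
        (f := fun (N : ℕ) t => (RS (N + 1) (φ t) * (starRingEnd ℂ) (RS (N + 1) (ψ t))).re)
        (fun N => (hmeas (N + 1) (Nat.succ_ne_zero N)).aestronglyMeasurable) ?_
      refine (ae_restrict_iff' measurableSet_Ioi).mpr (Eventually.of_forall fun t ht => ?_)
      exact (hptw t ht).comp (tendsto_add_atTop_nat 1)
    refine Integrable.mono' hdom hmeas2 ?_
    refine (ae_restrict_iff' measurableSet_Ioi).mpr (Eventually.of_forall fun t ht => ?_)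
    have h1 := (hptw t ht).norm
    refine le_of_tendsto h1 ?_
    filter_upwards [eventually_ne_atTop 0] with N hN
    exact hbound N hN t ht
  · refine tendsto_integral_filter_of_dominated_convergence
      (fun t => (C * Real.exp 1 * M) * (C * Real.exp 1 * M) * Real.exp (-(2 * y) * t)) ?_ ?_
      hdom ?_
    · filter_upwards [eventually_ne_atTop 0] with N hN
      exact (hmeas N hN).aestronglyMeasurable
    · filter_upwards [eventually_ne_atTop 0] with N hN
      exact (ae_restrict_iff' measurableSet_Ioi).mpr (Eventually.of_forall fun t ht =>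
        hbound N hN t ht)
    · exact (ae_restrict_iff' measurableSet_Ioi).mpr (Eventually.of_forall fun t ht =>
        hptw t ht)

/-- The form of `K w` on a test function is nonnegative. -/
theorem XiData.gen_nonneg (H : XiData) (w : ℝ) (h : PSD (K w)) {c : ℝ → ℂ} {A y Y : ℝ}
    (hc : Tst c A y Y) :
    0 ≤ (∫ t in Ioi (0 : ℝ), (TA w c t * (starRingEnd ℂ) (TB w c t)).re) +
      ∫ t in Ioi (0 : ℝ), (TA (-w) c t * (starRingEnd ℂ) (TB (-w) c t)).re := by
  obtain ⟨i1, _, l1⟩ := H.gen_lim w hc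
  obtain ⟨i2, _, l2⟩ := H.gen_lim (-w) hc
  refine ge_of_tendsto (l1.add l2) ?_
  filter_upwards [eventually_ne_atTop 0] with N hN
  rw [← integral_add (i1 N hN) (i2 N hN)]
  set a : Fin (2 * N * N) → ℝ := fun i => (i : ℝ) / N - N with ha
  set d : Fin (2 * N * N) → ℂ := fun i => ((1 / (N : ℝ) : ℝ) : ℂ) * c (a i) with hd
  have h1 := (psd_iff _ (H.K_symm w)).mp h (2 * N * N) a d
  rw [H.K_form] at h1
  have h2 : ∀ v t : ℝ, RS N (fun a => ((pw v (a + t) : ℝ) : ℂ) * c a) =
      ∑ i, d i * ((pw v (a i + t) : ℝ) : ℂ) := by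
    intro v t
    rw [RS_eq N hN]
    refine Finset.sum_congr rfl fun i _ => ?_
    rw [hd]
    simp only
    ring
  have h3 : ∀ v t : ℝ, RS N (fun a => (((a + t) * pw v (a + t) : ℝ) : ℂ) * c a) =
      ∑ i, d i * (((a i + t) * pw v (a i + t) : ℝ) : ℂ) := by
    intro v t
    rw [RS_eq N hN]
    refine Finset.sum_congr rfl fun i _ => ?_
    rw [hd]
    simp only
    ring
  simp only [h2, h3]
  linarith

end Pool.Agent.Weyl
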