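import Pool.Agent.Lib.MP_38bb4c_an.Inversion
import Pool.Agent.Lib.MP_38bb4c_an.Converse

/-!
# MP_38bb4c_an: independence of `Xi(x + iw)`, `Xi(x - iw)`, `Xi'(x - iw)`
-/

open Complex MeasureTheory Set Filter Topology FourierTransform

namespace Pool.Agent.Weyl

theorem norm_exp_I_mul (z : ℂ) (t : ℝ) : ‖cexp (I * z * t)‖ ≤ Real.exp (‖z‖ * |t|) := by
  rw [Complex.norm_exp]
  apply Real.exp_le_exp.mpr
  refine (Complex.re_le_norm _).trans ?_
  simp

theorem XiData.Xi_int (_H : XiData) (z : ℂ) :
    Integrable (fun t : ℝ => (Phi t : ℂ) * cexp (I * z * t)) := Phi_integrable z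

theorem XiData.Xi_int' (_H : XiData) (z : ℂ) :
    Integrable (fun t : ℝ => (Phi t : ℂ) * (cexp (I * z * t) * (I * t))) := by
  refine (Phi_exp_integrable (‖z‖ + 1)).mono' ?_ (Eventually.of_forall fun t => ?_)
  · exact ((Complex.continuous_ofReal.comp Phi_continuous).mul (by fun_prop)).aestronglyMeasurable
  · rw [norm_mul, norm_mul, norm_mul, Complex.norm_real, Complex.norm_real, Complex.norm_I,
      one_mul, Real.norm_eq_abs, Real.norm_eq_abs, abs_of_pos (Phi_pos t)]
    apply mul_le_mul_of_nonneg_left _ (Phi_pos t).le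
    have h1 := norm_exp_I_mul z t
    have h2 : |t| ≤ Real.exp |t| := by linarith [Real.add_one_le_exp |t|]
    have h3 : Real.exp ((‖z‖ + 1) * |t|) = Real.exp (‖z‖ * |t|) * Real.exp |t| := by
      rw [← Real.exp_add]; ring_nf
    rw [h3]
    exact mul_le_mul h1 h2 (abs_nonneg _) (Real.exp_pos _).le

theorem XiData.indep (H : XiData) (w : ℝ) (hw : w ≠ 0) (al be ga : ℂ)
    (h : ∀ x : ℝ, al * Xi (x + I * w) + be * Xi (x - I * w) + ga * deriv Xi (x - I * w) = 0) :
    al = 0 ∧ be = 0 ∧ ga = 0 := by
  set F : ℝ → ℂ := fun t => (Phi t : ℂ) * (al * cexp (-(w * t)) + be * cexp (w * t) +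
    ga * (I * t) * cexp (w * t)) with hF
  have hexp : ∀ (z : ℂ) (x t : ℝ), cexp (I * (x + z) * t) = cexp (I * x * t) * cexp (I * z * t) := by
    intro z x t
    rw [← Complex.exp_add]
    congr 1
    ring
  have hsplit : ∀ x t : ℝ, F t * cexp (I * x * t) =
      al * ((Phi t : ℂ) * cexp (I * (x + I * w) * t)) +
      be * ((Phi t : ℂ) * cexp (I * (x - I * w) * t)) +
      ga * ((Phi t : ℂ) * (cexp (I * (x - I * w) * t) * (I * t))) := by
    intro x t
    have e1 : cexp (I * (x + I * w) * t) = cexp (I * x * t) * cexp (-(w * t)) := by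
      rw [← Complex.exp_add]
      congr 1
      linear_combination ((w : ℂ) * t) * I_sq
    have e2 : cexp (I * (x - I * w) * t) = cexp (I * x * t) * cexp (w * t) := by
      rw [← Complex.exp_add]
      congr 1
      linear_combination (-(w : ℂ) * t) * I_sq
    rw [hF]
    simp only
    rw [e1, e2]
    ring
  have hcont : Continuous F := by
    rw [hF]
    exact (Complex.continuous_ofReal.comp Phi_continuous).mul (by fun_prop)
  have hint : Integrable F := by
    have h0 := (((H.Xi_int ((0 : ℝ) + I * w)).const_mul al).add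
      ((H.Xi_int ((0 : ℝ) - I * w)).const_mul be)).add
      ((H.Xi_int' ((0 : ℝ) - I * w)).const_mul ga)
    refine h0.congr (Eventually.of_forall fun t => ?_)
    have := hsplit 0 t
    simp only [Pi.add_apply]
    rw [← this]
    simp
  have hval : ∀ x : ℝ, ∫ t : ℝ, F t * cexp (I * x * t) = 0 := by
    intro x
    have i1 := (H.Xi_int (x + I * w)).const_mul al
    have i2 := (H.Xi_int (x - I * w)).const_mul be
    have i3 := (H.Xi_int' (x - I * w)).const_mul ga
    have e : ∫ t : ℝ, F t * cexp (I * x * t) =
        ∫ t : ℝ, (al * ((Phi t : ℂ) * cexp (I * (x + I * w) * t)) +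
      be * ((Phi t : ℂ) * cexp (I * (x - I * w) * t)) +
      ga * ((Phi t : ℂ) * (cexp (I * (x - I * w) * t) * (I * t)))) :=
      integral_congr_ae (Eventually.of_forall fun t => hsplit x t)
    have i12 : Integrable (fun t : ℝ => al * ((Phi t : ℂ) * cexp (I * (x + I * w) * t)) +
      be * ((Phi t : ℂ) * cexp (I * (x - I * w) * t))) := i1.add i2
    rw [e, integral_add i12 i3, integral_add i1 i2, integral_const_mul,
      integral_const_mul, integral_const_mul, ← (H.Xi_hasDerivAt (x - I * w)).deriv]
    exact h x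
  have hFour : 𝓕 F = 0 := by
    funext x
    rw [Real.fourier_real_eq_integral_exp_smul]
    have := hval (-(2 * Real.pi * x))
    rw [Pi.zero_apply, ← this]
    refine integral_congr_ae (Eventually.of_forall fun t => ?_)
    beta_reduce
    rw [smul_eq_mul, mul_comm]
    congr 2
    push_cast
    ring
  have hinv := hcont.fourierInv_fourier_eq hint (by rw [hFour]; exact integrable_zero _ _ _)
  have hFzero : ∀ t, F t = 0 := by
    intro t
    have h1 := congrFun hinv t
    rw [hFour, Real.fourierInv_eq'] at h1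
    simp only [Pi.zero_apply, smul_zero, integral_zero] at h1
    exact h1.symm
  have hG : ∀ t : ℝ, al * cexp (-(w * t)) + be * cexp (w * t) + ga * (I * t) * cexp (w * t) = 0 := by
    intro t
    have h1 := hFzero t
    rw [hF] at h1
    simp only [mul_eq_zero, Complex.ofReal_eq_zero] at h1
    rcases h1 with h1 | h1
    · exact absurd h1 (Phi_pos t).ne'
    · exact h1
  have h0 := hG 0
  have h1 := hG 1
  have h2 := hG (-1)
  simp only [Complex.ofReal_zero, mul_zero, neg_zero, Complex.exp_zero, mul_one,
    add_zero] at h0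
  simp only [Complex.ofReal_one, mul_one] at h1
  simp only [Complex.ofReal_neg, Complex.ofReal_one, mul_neg, mul_one, neg_neg] at h2
  set E := cexp (w : ℂ) with hE
  set E' := cexp (-(w : ℂ)) with hE'
  have hne : E - E' ≠ 0 := by
    rw [hE, hE', ← Complex.ofReal_neg, ← Complex.ofReal_exp, ← Complex.ofReal_exp,
      ← Complex.ofReal_sub]
    intro h3
    have h4 : Real.exp w - Real.exp (-w) = 0 := by exact_mod_cast h3
    have h5 : w = -w := Real.exp_injective (by linarith)
    exact hw (by linarith)
  have hal : al = -be := by linear_combination h0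
  have hga : ga * I * (E - E') = 0 := by
    rw [hal] at h1 h2
    linear_combination h1 + h2
  have hga0 : ga = 0 := by
    rcases mul_eq_zero.mp hga with h3 | h3
    · rcases mul_eq_zero.mp h3 with h4 | h4
      · exact h4
      · exact absurd h4 I_ne_zero
    · exact absurd h3 hne
  have hbe : be * (E - E') = 0 := by
    rw [hal, hga0] at h1
    linear_combination h1
  have hbe0 : be = 0 := by
    rcases mul_eq_zero.mp hbe with h3 | h3
    · exact h3
    · exact absurd h3 hne
  exact ⟨by rw [hal, hbe0, neg_zero], hbe0, hga0⟩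

end Pool.Agent.Weyl
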