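import Pool.Agent.Lib.MP_38bb4c_an.Converse3
import Pool.Agent.Lib.MP_38bb4c_an.Indep

/-!
# `K w` positive semidefinite implies that the zeros of `Xi` satisfy `|Im z| ≤ 2 |w|`
-/

open Complex MeasureTheory Set Filter Topology

namespace Pool.Agent.Weyl

/-- A plane wave. -/
noncomputable def pl (z : ℂ) (a : ℝ) : ℂ := Complex.exp (-(I * z * a))

/-- `I` times the derivative of `Xi`. -/
noncomputable def DX (z : ℂ) : ℂ := I * deriv Xi z

theorem norm_pl (z : ℂ) (a : ℝ) : ‖pl z a‖ = Real.exp (z.im * a) := by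
  rw [pl, Complex.norm_exp]
  congr 1
  simp

theorem pl_bound (z : ℂ) (hz : 0 < z.im) (y Y : ℝ) (hy : y ≤ z.im) (hY : z.im ≤ Y) (t a : ℝ)
    (ht : 0 < t) : ‖pl z a‖ ≤ Real.exp (-(y * t)) * Real.exp (Y * |a + t|) := by
  rw [norm_pl, ← Real.exp_add]
  apply Real.exp_le_exp.mpr
  have h1 := mul_le_mul_of_nonneg_left (le_abs_self (a + t)) hz.le
  have h2 := mul_le_mul_of_nonneg_right hY (abs_nonneg (a + t))
  have h3 := mul_le_mul_of_nonneg_right hy ht.le
  linarith

theorem tst_two (z₁ z₂ l m : ℂ) (h1 : 0 < z₁.im) (h2 : 0 < z₂.im) :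
    Tst (fun a => l * pl z₁ a + m * pl z₂ a) (‖l‖ + ‖m‖) (min z₁.im z₂.im)
      (max z₁.im z₂.im) where
  cont := by unfold pl; fun_prop
  hA := by positivity
  hy := lt_min h1 h2
  hY := h1.le.trans (le_max_left _ _)
  bd := by
    intro t a ht
    have b1 := pl_bound z₁ h1 (min z₁.im z₂.im) (max z₁.im z₂.im) (min_le_left _ _)
      (le_max_left _ _) t a ht
    have b2 := pl_bound z₂ h2 (min z₁.im z₂.im) (max z₁.im z₂.im) (min_le_right _ _)
      (le_max_right _ _) t a ht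
    calc ‖l * pl z₁ a + m * pl z₂ a‖ ≤ ‖l‖ * ‖pl z₁ a‖ + ‖m‖ * ‖pl z₂ a‖ := by
          refine (norm_add_le _ _).trans ?_
          rw [norm_mul, norm_mul]
      _ ≤ ‖l‖ * (Real.exp (-(min z₁.im z₂.im * t)) * Real.exp (max z₁.im z₂.im * |a + t|)) +
          ‖m‖ * (Real.exp (-(min z₁.im z₂.im * t)) * Real.exp (max z₁.im z₂.im * |a + t|)) := by
          gcongr
      _ = _ := by ring

theorem tst_one (z : ℂ) (h : 0 < z.im) : Tst (pl z) 1 z.im z.im where
  cont := by unfold pl; fun_prop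
  hA := zero_le_one
  hy := h
  hY := h.le
  bd := by
    intro t a ht
    have b1 := pl_bound z h z.im z.im le_rfl le_rfl t a ht
    rw [one_mul]
    exact b1

theorem XiData.TA_pl (H : XiData) (w : ℝ) (z : ℂ) (t : ℝ) :
    TA w (pl z) t = Complex.exp (I * z * t) * Xi (z + I * w) := by
  have h1 := integral_add_right_eq_self
    (fun u : ℝ => ((pw w u : ℝ) : ℂ) * Complex.exp (-(I * z * (u - t)))) t (μ := volume)
  have h2 : ∀ a : ℝ, ((pw w (a + t) : ℝ) : ℂ) * pl z a = (fun u : ℝ => ((pw w u : ℝ) : ℂ) *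
      Complex.exp (-(I * z * (u - t)))) (a + t) := by
    intro a
    rw [pl]
    simp only
    push_cast
    congr 3
    ring
  rw [TA, integral_congr_ae (Eventually.of_forall h2), h1, ← H.Xi_even (z + I * w), Xi,
    ← integral_const_mul]
  congr 1
  funext u
  rw [pw, Complex.ofReal_mul, Complex.ofReal_exp]
  have e1 : Complex.exp (-(I * z * (u - t))) =
      Complex.exp (I * z * t) * Complex.exp (-(I * z * u)) := by
    rw [← Complex.exp_add]; ring_nf
  have e2 : Complex.exp (I * -(z + I * w) * u) =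
      Complex.exp (((w * u : ℝ) : ℂ)) * Complex.exp (-(I * z * u)) := by
    rw [← Complex.exp_add]
    congr 1
    push_cast
    linear_combination (-w * u : ℂ) * Complex.I_sq
  rw [e1, e2]
  ring

theorem XiData.TB_pl (H : XiData) (w : ℝ) (z : ℂ) (t : ℝ) :
    TB w (pl z) t = Complex.exp (I * z * t) * DX (z + I * w) := by
  set Y : ℂ := ∫ u : ℝ, ((u * pw w u : ℝ) : ℂ) * Complex.exp (-(I * z * u)) with hY
  have hB : TB w (pl z) t = Complex.exp (I * z * t) * Y := by
    have h1 := integral_add_right_eq_self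
      (fun u : ℝ => ((u * pw w u : ℝ) : ℂ) * Complex.exp (-(I * z * (u - t)))) t (μ := volume)
    have h2 : ∀ a : ℝ, (((a + t) * pw w (a + t) : ℝ) : ℂ) * pl z a =
        (fun u : ℝ => ((u * pw w u : ℝ) : ℂ) *
        Complex.exp (-(I * z * (u - t)))) (a + t) := by
      intro a
      rw [pl]
      simp only
      push_cast
      congr 3
      ring
    rw [TB, integral_congr_ae (Eventually.of_forall h2), h1, hY, ← integral_const_mul]
    congr 1
    funext u
    have : Complex.exp (-(I * z * (u - t))) =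
        Complex.exp (I * z * t) * Complex.exp (-(I * z * u)) := by
      rw [← Complex.exp_add]; ring_nf
    rw [this]
    ring
  have hYd : Y = I * deriv Xi (z + I * w) := by
    have h1 := (H.Xi_hasDerivAt (-(z + I * w))).deriv
    have h2 : deriv Xi (-(z + I * w)) = -deriv Xi (z + I * w) := by
      have h3 : (fun w => Xi (-w)) = Xi := funext fun w => H.Xi_even w
      have h4 : deriv (fun w => Xi (-w)) (z + I * w) = -deriv Xi (-(z + I * w)) :=
        deriv_comp_neg Xi (z + I * w)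
      rw [h3] at h4
      rw [h4, neg_neg]
    have h5 : (∫ t : ℝ, (Phi t : ℂ) * (Complex.exp (I * -(z + I * w) * t) * (I * t))) =
        I * Y := by
      rw [hY, ← integral_const_mul]
      congr 1
      funext u
      have e2 : Complex.exp (I * -(z + I * w) * u) =
          Complex.exp (((w * u : ℝ) : ℂ)) * Complex.exp (-(I * z * u)) := by
        rw [← Complex.exp_add]
        congr 1
        push_cast
        linear_combination (-w * u : ℂ) * Complex.I_sq
      rw [e2, pw]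
      push_cast
      ring
    rw [h5, h2] at h1
    have h6 : I * (I * Y) = -Y := by rw [← mul_assoc, Complex.I_mul_I]; ring
    rw [← h1] at h6
    linear_combination h6
  rw [hB, hYd, DX]

theorem XiData.T_two (H : XiData) (w : ℝ) (z₁ z₂ l m : ℂ) (h1 : 0 < z₁.im) (h2 : 0 < z₂.im)
    (t : ℝ) (ht : 0 < t) :
    TA w (fun a => l * pl z₁ a + m * pl z₂ a) t =
      l * (Complex.exp (I * z₁ * t) * Xi (z₁ + I * w)) +
      m * (Complex.exp (I * z₂ * t) * Xi (z₂ + I * w)) ∧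
    TB w (fun a => l * pl z₁ a + m * pl z₂ a) t =
      l * (Complex.exp (I * z₁ * t) * DX (z₁ + I * w)) +
      m * (Complex.exp (I * z₂ * t) * DX (z₂ + I * w)) := by
  have hint : ∀ z : ℂ, 0 < z.im →
      Integrable (fun a : ℝ => ((pw w (a + t) : ℝ) : ℂ) * pl z a) ∧
      Integrable (fun a : ℝ => (((a + t) * pw w (a + t) : ℝ) : ℂ) * pl z a) := by
    intro z hz
    obtain ⟨C, hC, hb⟩ := H.gen_bound w (tst_one z hz)
    have hd : Integrable (fun a : ℝ => C * Real.exp (-(z.im * t)) *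
        Real.exp (-(1 * |a + t|))) :=
      ((integrable_exp_neg_abs' 1 one_pos).comp_add_right t).const_mul _
    have hcont := H.cont
    constructor
    · refine Integrable.mono' hd ?_ (Eventually.of_forall fun a => (hb t a ht).1)
      apply Continuous.aestronglyMeasurable
      unfold pw pl
      fun_prop
    · refine Integrable.mono' hd ?_ (Eventually.of_forall fun a => (hb t a ht).2)
      apply Continuous.aestronglyMeasurable
      unfold pw pl
      fun_prop
  constructor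
  · rw [← H.TA_pl, ← H.TA_pl, TA, TA, TA, ← integral_const_mul, ← integral_const_mul,
      ← integral_add ((hint z₁ h1).1.const_mul l) ((hint z₂ h2).1.const_mul m)]
    congr 1
    funext a
    ring
  · rw [← H.TB_pl, ← H.TB_pl, TB, TB, TB, ← integral_const_mul, ← integral_const_mul,
      ← integral_add ((hint z₁ h1).2.const_mul l) ((hint z₂ h2).2.const_mul m)]
    congr 1
    funext a
    ring

theorem integral_two_exp (z₁ z₂ : ℂ) (h1 : 0 < z₁.im) (h2 : 0 < z₂.im) :
    IntegrableOn (fun t : ℝ => Complex.exp (I * z₁ * t) *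
      (starRingEnd ℂ) (Complex.exp (I * z₂ * t))) (Ioi 0) ∧
    ∫ t in Ioi (0 : ℝ), Complex.exp (I * z₁ * t) *
      (starRingEnd ℂ) (Complex.exp (I * z₂ * t)) = I / (z₁ - (starRingEnd ℂ) z₂) := by
  have e : ∀ t : ℝ, Complex.exp (I * z₁ * t) * (starRingEnd ℂ) (Complex.exp (I * z₂ * t)) =
      Complex.exp ((I * (z₁ - (starRingEnd ℂ) z₂)) * t) := by
    intro t
    rw [← Complex.exp_conj, ← Complex.exp_add]
    congr 1
    rw [map_mul, map_mul, Complex.conj_I, Complex.conj_ofReal]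
    ring
  have hre : (I * (z₁ - (starRingEnd ℂ) z₂)).re < 0 := by
    simp
    linarith
  simp only [e]
  constructor
  · exact integrableOn_exp_mul_complex_Ioi hre 0
  · rw [integral_exp_mul_complex_Ioi hre 0]
    have hne : z₁ - (starRingEnd ℂ) z₂ ≠ 0 := by
      intro h
      rw [h] at hre
      simp at hre
    rw [Complex.ofReal_zero, mul_zero, Complex.exp_zero]
    field_simp
    linear_combination -Complex.I_sq

/-- The polarized form at level `v`. -/
noncomputable def NF (v : ℝ) (z₁ z₂ : ℂ) : ℂ :=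
  Xi (z₁ + I * v) * (starRingEnd ℂ) (DX (z₂ + I * v)) +
    DX (z₁ + I * v) * (starRingEnd ℂ) (Xi (z₂ + I * v))

/-- The diagonal form at level `v`. -/
noncomputable def nF (v : ℝ) (z : ℂ) : ℝ := (Xi (z + I * v) * (starRingEnd ℂ) (DX (z + I * v))).re

theorem XiData.int_form (H : XiData) (v : ℝ) (z₁ z₂ l m : ℂ) (h1 : 0 < z₁.im)
    (h2 : 0 < z₂.im) :
    ∫ t in Ioi (0 : ℝ), (TA v (fun a => l * pl z₁ a + m * pl z₂ a) t *
      (starRingEnd ℂ) (TB v (fun a => l * pl z₁ a + m * pl z₂ a) t)).re =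
    ‖l‖ ^ 2 * nF v z₁ / (2 * z₁.im) + ‖m‖ ^ 2 * nF v z₂ / (2 * z₂.im) +
      (l * (starRingEnd ℂ) m * NF v z₁ z₂ * (I / (z₁ - (starRingEnd ℂ) z₂))).re := by
  set e : ℂ → ℂ → ℝ → ℂ := fun z z' t => Complex.exp (I * z * t) *
      (starRingEnd ℂ) (Complex.exp (I * z' * t)) with he
  set G : ℝ → ℂ := fun t =>
    (l * (starRingEnd ℂ) l * (Xi (z₁ + I * v) * (starRingEnd ℂ) (DX (z₁ + I * v)))) * e z₁ z₁ t +
    (m * (starRingEnd ℂ) m * (Xi (z₂ + I * v) * (starRingEnd ℂ) (DX (z₂ + I * v)))) * e z₂ z₂ t +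
    (l * (starRingEnd ℂ) m * NF v z₁ z₂) * e z₁ z₂ t with hG
  have hGint : IntegrableOn G (Ioi 0) :=
    (((integral_two_exp z₁ z₁ h1 h1).1.const_mul _).add
      ((integral_two_exp z₂ z₂ h2 h2).1.const_mul _)).add
      ((integral_two_exp z₁ z₂ h1 h2).1.const_mul _)
  have hre : ∀ t : ℝ, 0 < t → (TA v (fun a => l * pl z₁ a + m * pl z₂ a) t *
      (starRingEnd ℂ) (TB v (fun a => l * pl z₁ a + m * pl z₂ a) t)).re = (G t).re := by
    intro t ht
    obtain ⟨a1, a2⟩ := H.T_two v z₁ z₂ l m h1 h2 t ht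
    rw [a1, a2, hG, he]
    simp only [NF]
    set X1 := Xi (z₁ + I * v)
    set X2 := Xi (z₂ + I * v)
    set Y1 := DX (z₁ + I * v)
    set Y2 := DX (z₂ + I * v)
    set E1 := Complex.exp (I * z₁ * t)
    set E2 := Complex.exp (I * z₂ * t)
    simp only [map_add, map_mul, Complex.add_re, Complex.mul_re, Complex.mul_im, Complex.conj_re,
      Complex.conj_im, Complex.add_im]
    ring
  rw [setIntegral_congr_fun measurableSet_Ioi (fun t ht => hre t ht)]
  have h3 : ∫ t in Ioi (0 : ℝ), (G t).re = (∫ t in Ioi (0 : ℝ), G t).re := by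
    have := integral_re hGint
    simpa using this
  have i1 : IntegrableOn (fun t => (l * (starRingEnd ℂ) l *
      (Xi (z₁ + I * v) * (starRingEnd ℂ) (DX (z₁ + I * v)))) * e z₁ z₁ t) (Ioi 0) :=
    (integral_two_exp z₁ z₁ h1 h1).1.const_mul _
  have i2 : IntegrableOn (fun t => (m * (starRingEnd ℂ) m *
      (Xi (z₂ + I * v) * (starRingEnd ℂ) (DX (z₂ + I * v)))) * e z₂ z₂ t) (Ioi 0) :=
    (integral_two_exp z₂ z₂ h2 h2).1.const_mul _
  have i3 : IntegrableOn (fun t => (l * (starRingEnd ℂ) m * NF v z₁ z₂) * e z₁ z₂ t) (Ioi 0) :=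
    (integral_two_exp z₁ z₂ h1 h2).1.const_mul _
  have i12 : IntegrableOn (fun t => (l * (starRingEnd ℂ) l *
      (Xi (z₁ + I * v) * (starRingEnd ℂ) (DX (z₁ + I * v)))) * e z₁ z₁ t +
      (m * (starRingEnd ℂ) m *
      (Xi (z₂ + I * v) * (starRingEnd ℂ) (DX (z₂ + I * v)))) * e z₂ z₂ t) (Ioi 0) := i1.add i2
  have hval : ∫ t in Ioi (0 : ℝ), G t = (∫ t in Ioi (0 : ℝ), (l * (starRingEnd ℂ) l *
      (Xi (z₁ + I * v) * (starRingEnd ℂ) (DX (z₁ + I * v)))) * e z₁ z₁ t) +
      (∫ t in Ioi (0 : ℝ), (m * (starRingEnd ℂ) m *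
      (Xi (z₂ + I * v) * (starRingEnd ℂ) (DX (z₂ + I * v)))) * e z₂ z₂ t) +
      ∫ t in Ioi (0 : ℝ), (l * (starRingEnd ℂ) m * NF v z₁ z₂) * e z₁ z₂ t := by
    rw [hG, integral_add i12 i3, integral_add i1 i2]
  rw [h3, hval, integral_const_mul, integral_const_mul, integral_const_mul, he]
  simp only
  rw [(integral_two_exp z₁ z₁ h1 h1).2, (integral_two_exp z₂ z₂ h2 h2).2,
    (integral_two_exp z₁ z₂ h1 h2).2]
  have hd : ∀ z : ℂ, 0 < z.im → I / (z - (starRingEnd ℂ) z) = ((1 / (2 * z.im) : ℝ) : ℂ) := by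
    intro z hz
    have hne : (z.im : ℂ) ≠ 0 := by exact_mod_cast hz.ne'
    rw [Complex.sub_conj]
    push_cast
    field_simp
  rw [hd z₁ h1, hd z₂ h2, Complex.add_re, Complex.add_re, Complex.re_mul_ofReal,
    Complex.re_mul_ofReal, Complex.mul_conj, Complex.mul_conj, Complex.re_ofReal_mul,
    Complex.re_ofReal_mul, Complex.normSq_eq_norm_sq, Complex.normSq_eq_norm_sq, nF, nF]
  ring

/-- The two-point inequality. -/
theorem XiData.two_form (H : XiData) (w : ℝ) (h : PSD (K w)) (z₁ z₂ l m : ℂ) (h1 : 0 < z₁.im)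
    (h2 : 0 < z₂.im) :
    0 ≤ ‖l‖ ^ 2 * (nF w z₁ + nF (-w) z₁) / (2 * z₁.im) +
      ‖m‖ ^ 2 * (nF w z₂ + nF (-w) z₂) / (2 * z₂.im) +
      (l * (starRingEnd ℂ) m * (NF w z₁ z₂ + NF (-w) z₁ z₂) *
        (I / (z₁ - (starRingEnd ℂ) z₂))).re := by
  have h0 := H.gen_nonneg w h (tst_two z₁ z₂ l m h1 h2)
  rw [H.int_form w z₁ z₂ l m h1 h2, H.int_form (-w) z₁ z₂ l m h1 h2] at h0
  have e : (l * (starRingEnd ℂ) m * (NF w z₁ z₂ + NF (-w) z₁ z₂) *
        (I / (z₁ - (starRingEnd ℂ) z₂))).re =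
      (l * (starRingEnd ℂ) m * NF w z₁ z₂ * (I / (z₁ - (starRingEnd ℂ) z₂))).re +
      (l * (starRingEnd ℂ) m * NF (-w) z₁ z₂ * (I / (z₁ - (starRingEnd ℂ) z₂))).re := by
    rw [← Complex.add_re]
    congr 1
    ring
  rw [e]
  have e2 : ∀ a b c d : ℝ, a * (b + c) / d = a * b / d + a * c / d := by intros; ring
  rw [e2, e2]
  linarith

theorem XiData.diag_nonneg (H : XiData) (w : ℝ) (h : PSD (K w)) (z : ℂ) (hz : 0 < z.im) :
    0 ≤ nF w z + nF (-w) z := by
  have h0 := H.two_form w h z z 1 0 hz hz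
  simp only [norm_one, norm_zero, one_pow, one_mul, ne_eq, OfNat.ofNat_ne_zero,
    not_false_eq_true, zero_pow, zero_mul, zero_div, add_zero, map_zero, mul_zero,
    Complex.zero_re] at h0
  have h2 : (0 : ℝ) < 2 * z.im := by linarith
  by_contra hn
  push Not at hn
  have := div_neg_of_neg_of_pos hn h2
  linarith

theorem XiData.cross_zero (H : XiData) (w : ℝ) (h : PSD (K w)) (z₁ z₂ : ℂ) (h1 : 0 < z₁.im)
    (h2 : 0 < z₂.im) (h0 : nF w z₁ + nF (-w) z₁ = 0) : NF w z₁ z₂ + NF (-w) z₁ z₂ = 0 := by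
  set q : ℂ := (NF w z₁ z₂ + NF (-w) z₁ z₂) * (I / (z₁ - (starRingEnd ℂ) z₂)) with hq
  have hq0 : q = 0 := by
    by_contra hne
    have hqs : 0 < ‖q‖ ^ 2 := by positivity
    set B : ℝ := (nF w z₂ + nF (-w) z₂) / (2 * z₂.im) with hB
    have hB0 : 0 ≤ B := div_nonneg (H.diag_nonneg w h z₂ h2) (by linarith)
    set r : ℝ := (B + 1) / ‖q‖ ^ 2 with hr
    have h3 := H.two_form w h z₁ z₂ (-(r : ℂ) * (starRingEnd ℂ) q) 1 h1 h2
    rw [h0] at h3
    have e1 : (-(r : ℂ) * (starRingEnd ℂ) q * (starRingEnd ℂ) 1 *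
        (NF w z₁ z₂ + NF (-w) z₁ z₂) * (I / (z₁ - (starRingEnd ℂ) z₂))) =
        ((-(r * ‖q‖ ^ 2) : ℝ) : ℂ) := by
      have : (starRingEnd ℂ) q * q = ((‖q‖ ^ 2 : ℝ) : ℂ) := by
        rw [mul_comm, Complex.mul_conj, Complex.normSq_eq_norm_sq]
      rw [map_one, mul_one]
      calc -(r : ℂ) * (starRingEnd ℂ) q * (NF w z₁ z₂ + NF (-w) z₁ z₂) *
            (I / (z₁ - (starRingEnd ℂ) z₂)) = -(r : ℂ) * ((starRingEnd ℂ) q * q) := by
            rw [hq]; ring
        _ = _ := by rw [this]; push_cast; ring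
    rw [e1, Complex.ofReal_re, norm_one] at h3
    have e2 : r * ‖q‖ ^ 2 = B + 1 := by
      rw [hr]; field_simp
    have e3 : (1 : ℝ) ^ 2 * (nF w z₂ + nF (-w) z₂) / (2 * z₂.im) = B := by
      rw [hB]; ring
    rw [e2, e3] at h3
    simp at h3
    linarith
  have hne : I / (z₁ - (starRingEnd ℂ) z₂) ≠ 0 := by
    apply div_ne_zero Complex.I_ne_zero
    intro hz
    have := congrArg Complex.im hz
    simp at this
    linarith
  rw [hq] at hq0
  exact (mul_eq_zero.mp hq0).resolve_right hne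

end Pool.Agent.Weyl
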