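import Pool.Agent.Lib.MP_38bb4c_an.Converse4

/-!
# `K w` positive semidefinite implies that the zeros of `Xi` satisfy `|Im z| ≤ 2 |w|`: conclusion
-/

open Complex MeasureTheory Set Filter Topology

namespace Pool.Agent.Weyl

/-- `|Xi|^2` on a vertical line. -/
noncomputable def hX (x y : ℝ) : ℝ := ‖Xi (x + y * I)‖ ^ 2

/-- Half of the derivative of `|Xi|^2` on a vertical line. -/
noncomputable def gX (x y : ℝ) : ℝ := (Xi (x + y * I) * (starRingEnd ℂ) (DX (x + y * I))).re

theorem XiData.hX_hasDerivAt (H : XiData) (x y : ℝ) : HasDerivAt (hX x) (2 * gX x y) y := by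
  have h1 : HasDerivAt (fun y : ℝ => (x : ℂ) + y * I) I y := by
    have := ((Complex.ofRealCLM.hasDerivAt (x := y)).mul_const I).const_add (x : ℂ)
    simpa using this
  have h2 : HasDerivAt (fun y : ℝ => Xi (x + y * I)) (deriv Xi (x + y * I) * I) y :=
    (H.Xi_differentiable _).hasDerivAt.comp y h1
  have h3 := h2.norm_sq
  have e : 2 * inner ℝ (Xi (x + y * I)) (deriv Xi (x + y * I) * I) = 2 * gX x y := by
    rw [Complex.inner, gX, DX]
    simp only [Complex.mul_re, Complex.conj_re, Complex.conj_im, Complex.mul_im, Complex.I_re,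
      Complex.I_im]
    ring
  rw [← e]
  exact h3

theorem nF_eq (v x y : ℝ) : nF v (x + y * I) = gX x (y + v) := by
  rw [nF, gX]
  have e : (x : ℂ) + y * I + I * v = x + ((y + v : ℝ) : ℂ) * I := by push_cast; ring
  rw [e]

theorem XiData.hX_neg (H : XiData) (x y : ℝ) : hX x (-y) = hX x y := by
  rw [hX, hX]
  congr 1
  rw [← H.norm_Xi_conj]
  congr 2
  rw [map_add, map_mul, Complex.conj_ofReal, Complex.conj_ofReal, Complex.conj_I]
  push_cast
  ring

theorem XiData.not_zero_on (H : XiData) (x d : ℝ) (hd : 0 < d)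
    (h : ∀ y : ℝ, 0 < y → y < d → Xi (x + y * I) = 0) : False := by
  have han : AnalyticOnNhd ℂ Xi univ := by
    have := H.Xi_differentiable.differentiableOn (s := univ)
    exact this.analyticOnNhd isOpen_univ
  have hfreq : ∃ᶠ v in 𝓝[≠] ((x : ℂ) + (d / 2 : ℝ) * I), Xi v = 0 := by
    have ht : Tendsto (fun y : ℝ => (x : ℂ) + y * I) (𝓝[≠] (d / 2))
        (𝓝[≠] ((x : ℂ) + (d / 2 : ℝ) * I)) := by
      apply tendsto_nhdsWithin_of_tendsto_nhds_of_eventually_within
      · have : Continuous (fun y : ℝ => (x : ℂ) + y * I) := by fun_prop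
        exact (this.tendsto (d / 2)).mono_left nhdsWithin_le_nhds
      · filter_upwards [self_mem_nhdsWithin] with y hy
        simp only [mem_compl_iff, mem_singleton_iff] at hy ⊢
        intro heq
        apply hy
        have := congrArg Complex.im heq
        simpa using this
    refine ht.frequently (Eventually.frequently ?_)
    have h1 : ∀ᶠ y : ℝ in 𝓝 (d / 2), 0 < y ∧ y < d := by
      apply Ioo_mem_nhds <;> linarith
    filter_upwards [h1.filter_mono nhdsWithin_le_nhds] with y hy
    exact h y hy.1 hy.2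
  have hEq := han.eqOn_zero_of_preconnected_of_frequently_eq_zero isPreconnected_univ
    (mem_univ _) hfreq
  exact H.Xi_zero_ne (hEq (mem_univ 0))

theorem K_neg (w a b : ℝ) : K (-w) a b = K w a b := by
  rw [K, K]
  congr 2
  funext y
  have : 2 * -w * y = -(2 * w * y) := by ring
  rw [this, Real.cosh_neg]

/-- Strict form for `w > 0`. -/
theorem XiData.zeros_two_pos (H : XiData) (w : ℝ) (hw : 0 < w) (h : PSD (K w)) (x d : ℝ)
    (hz : Xi (x + d * I) = 0) : d < 2 * w := by
  by_contra hd
  push Not at hd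
  have hd0 : hX x d = 0 := by rw [hX, hz]; simp
  have hnn : ∀ y, 0 ≤ hX x y := fun y => by unfold hX; positivity
  -- monotonicity of `h(u) + h(u - 2w)` on `u ≥ w`
  have hder : ∀ u : ℝ, HasDerivAt (fun u => hX x u + hX x (u - 2 * w))
      (2 * gX x u + 2 * gX x (u - 2 * w)) u := by
    intro u
    have h1 := H.hX_hasDerivAt x u
    have h2 := (H.hX_hasDerivAt x (u - 2 * w)).comp_sub_const u (2 * w)
    exact h1.add h2
  have hpos : ∀ u : ℝ, w < u → 0 ≤ gX x u + gX x (u - 2 * w) := by
    intro u hu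
    have h1 := H.diag_nonneg w h (x + ((u - w : ℝ) : ℂ) * I) (by simp; exact hu)
    rw [nF_eq, nF_eq] at h1
    have e1 : u - w + w = u := by ring
    have e2 : u - w + -w = u - 2 * w := by ring
    rwa [e1, e2] at h1
  have hmono : MonotoneOn (fun u => hX x u + hX x (u - 2 * w)) (Ici w) := by
    refine monotoneOn_of_deriv_nonneg (convex_Ici w)
      (fun u _ => (hder u).continuousAt.continuousWithinAt)
      (fun u _ => (hder u).differentiableAt.differentiableWithinAt) ?_
    intro u hu
    rw [interior_Ici] at hu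
    rw [(hder u).deriv]
    have := hpos u hu
    linarith
  -- the bound on `|v| ≤ d`
  set M : ℝ := hX x (d - 2 * w) with hM
  have hle1 : ∀ v : ℝ, w ≤ v → v ≤ d → hX x v + hX x (v - 2 * w) ≤ M := by
    intro v hv hvd
    have h1 := hmono (mem_Ici.mpr hv) (mem_Ici.mpr (by linarith)) hvd
    simp only at h1
    rw [hd0, zero_add] at h1
    exact h1
  have hle : ∀ v : ℝ, |v| ≤ d → hX x v ≤ M := by
    intro v hv
    have hev : hX x v = hX x |v| := by
      rcases abs_choice v with h0 | h0
      · rw [h0]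
      · rw [h0, H.hX_neg]
    rw [hev]
    rcases le_total w |v| with h0 | h0
    · have := hle1 |v| h0 hv
      have := hnn (|v| - 2 * w)
      linarith
    · have h1 := hle1 (2 * w - |v|) (by linarith) (by
        have := abs_nonneg v
        linarith)
      have e : 2 * w - |v| - 2 * w = -|v| := by ring
      rw [e, H.hX_neg] at h1
      have := hnn (2 * w - |v|)
      linarith
  -- critical points
  have hg1 : gX x d = 0 := by rw [gX, hz]; simp
  have hg2 : gX x (d - 2 * w) = 0 := by
    have hmax : IsLocalMax (hX x) (d - 2 * w) := by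
      have hnear : ∀ᶠ v : ℝ in 𝓝 (d - 2 * w), |v| < d := by
        have hc : Continuous (fun v : ℝ => |v|) := continuous_abs
        have : |d - 2 * w| < d := by
          rw [abs_of_nonneg (by linarith)]
          linarith
        exact hc.continuousAt.eventually_lt continuousAt_const this
      filter_upwards [hnear] with v hv
      exact hle v hv.le
    have := hmax.hasDerivAt_eq_zero (H.hX_hasDerivAt x (d - 2 * w))
    linarith
  -- the diagonal vanishes
  set z₁ : ℂ := x + ((d - w : ℝ) : ℂ) * I with hz₁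
  have him : 0 < z₁.im := by
    rw [hz₁]
    simp
    linarith
  have hdiag : nF w z₁ + nF (-w) z₁ = 0 := by
    rw [hz₁, nF_eq, nF_eq]
    have e1 : d - w + w = d := by ring
    have e2 : d - w + -w = d - 2 * w := by ring
    rw [e1, e2, hg1, hg2, add_zero]
  have hcross : ∀ z₂ : ℂ, 0 < z₂.im → NF w z₁ z₂ + NF (-w) z₁ z₂ = 0 := fun z₂ h2 =>
    H.cross_zero w h z₁ z₂ him h2 hdiag
  have hzw : z₁ + I * w = x + d * I := by
    rw [hz₁]; push_cast; ring
  -- relation on the real line
  set P : ℂ := DX (z₁ + I * w) with hP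
  set Q : ℂ := Xi (z₁ + I * ((-w : ℝ) : ℂ)) with hQ
  set R : ℂ := DX (z₁ + I * ((-w : ℝ) : ℂ)) with hR
  have hrel : ∀ z₂ : ℂ, 0 < z₂.im → (starRingEnd ℂ) P * Xi (z₂ + I * w) +
      (starRingEnd ℂ) R * Xi (z₂ - I * w) +
      ((starRingEnd ℂ) Q * I) * deriv Xi (z₂ - I * w) = 0 := by
    intro z₂ h2
    have h3 := congrArg (starRingEnd ℂ) (hcross z₂ h2)
    have e : z₂ + I * ((-w : ℝ) : ℂ) = z₂ - I * w := by push_cast; ring
    rw [NF, NF, hzw, hz, e, ← hQ, ← hR] at h3
    have h4 : DX (x + d * I) = P := by rw [hP, hzw]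
    have h5 : DX (z₂ - I * w) = I * deriv Xi (z₂ - I * w) := rfl
    rw [h4, h5] at h3
    simp only [map_add, map_mul, map_zero, Complex.conj_conj, zero_mul, zero_add,
      Complex.conj_I, map_neg, neg_neg] at h3
    linear_combination h3
  have hcont : Continuous (fun z₂ : ℂ => (starRingEnd ℂ) P * Xi (z₂ + I * w) +
      (starRingEnd ℂ) R * Xi (z₂ - I * w) +
      ((starRingEnd ℂ) Q * I) * deriv Xi (z₂ - I * w)) := by
    have c1 : Continuous Xi := H.Xi_differentiable.continuous
    have c2 : Continuous (deriv Xi) := by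
      have : AnalyticOnNhd ℂ Xi univ :=
        (H.Xi_differentiable.differentiableOn (s := univ)).analyticOnNhd isOpen_univ
      have h7 := this.deriv
      exact continuousOn_univ.mp h7.continuousOn
    fun_prop
  have hreal : ∀ s : ℝ, (starRingEnd ℂ) P * Xi (s + I * w) +
      (starRingEnd ℂ) R * Xi (s - I * w) +
      ((starRingEnd ℂ) Q * I) * deriv Xi (s - I * w) = 0 := by
    intro s
    have ht : Tendsto (fun e : ℝ => (s : ℂ) + e * I) (𝓝[>] 0) (𝓝 (s : ℂ)) := by
      have hc : Continuous (fun e : ℝ => (s : ℂ) + e * I) := by fun_prop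
      have := hc.tendsto 0
      simp only [Complex.ofReal_zero, zero_mul, add_zero] at this
      exact this.mono_left nhdsWithin_le_nhds
    have h1 := (hcont.tendsto (s : ℂ)).comp ht
    refine tendsto_nhds_unique h1 ?_
    refine (tendsto_congr' ?_).mpr tendsto_const_nhds
    filter_upwards [self_mem_nhdsWithin] with e he
    have he' : 0 < e := he
    exact hrel ((s : ℂ) + e * I) (by simpa using he')
  obtain ⟨_, _, h3⟩ := H.indep w hw.ne' _ _ _ hreal
  have hQ0 : Q = 0 := by
    have h4 := (mul_eq_zero.mp h3).resolve_right Complex.I_ne_zero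
    exact (map_eq_zero _).mp h4
  have hM0 : M = 0 := by
    rw [hM, hX]
    have e : z₁ + I * ((-w : ℝ) : ℂ) = x + ((d - 2 * w : ℝ) : ℂ) * I := by
      rw [hz₁]; push_cast; ring
    rw [← e, ← hQ, hQ0]
    simp
  refine H.not_zero_on x d (by linarith) fun y hy hyd => ?_
  have h1 := hle y (by rw [abs_of_pos hy]; exact hyd.le)
  rw [hM0, hX] at h1
  have h2 : ‖Xi (x + y * I)‖ = 0 := by
    have := sq_nonneg ‖Xi (x + y * I)‖
    exact pow_eq_zero_iff (two_ne_zero) |>.mp (le_antisymm h1 this)
  exact norm_eq_zero.mp h2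

/-- If `K w` is positive semidefinite with `w ≠ 0`, then the zeros of `Xi` satisfy
`|Im z| < 2 |w|`. -/
theorem XiData.zeros_two_lt (H : XiData) (w : ℝ) (hw : w ≠ 0) (h : PSD (K w)) (z : ℂ)
    (hz : Xi z = 0) : |z.im| < 2 * |w| := by
  have hK : PSD (K |w|) := by
    rcases abs_choice w with h0 | h0
    · rw [h0]; exact h
    · rw [h0]
      have : K (-w) = K w := by
        funext a b
        exact K_neg w a b
      rw [this]
      exact h
  have key : ∀ v : ℂ, Xi v = 0 → v.im < 2 * |w| := by
    intro v hv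
    refine H.zeros_two_pos |w| (abs_pos.mpr hw) hK v.re v.im ?_
    rw [Complex.re_add_im]
    exact hv
  rw [abs_lt]
  constructor
  · have := key (-z) (by rw [H.Xi_even, hz])
    rw [Complex.neg_im] at this
    linarith
  · exact key z hz

/-- Zeros of `Xi` when `K w` is positive semidefinite. -/
theorem XiData.zeros_two (H : XiData) (w : ℝ) (h : PSD (K w)) (z : ℂ)
    (hz : Xi z = 0) : |z.im| ≤ 2 * |w| := by
  rcases eq_or_ne w 0 with h0 | h0
  · subst h0
    rw [H.zeros_real h z hz]
    simp
  · exact (H.zeros_two_lt w h0 h z hz).le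

end Pool.Agent.Weyl
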