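import Mathlib

/-!
# Definitions for MP_38bb4c_an (Weyl kernel built from the Riemann kernel)
-/

open MeasureTheory Complex

namespace Pool.Agent.Weyl

/-- The Riemann kernel, extended evenly from `x ≥ 0`. -/
noncomputable def Phi (x : ℝ) : ℝ :=
  ∑' n : ℕ, (4 * Real.pi ^ 2 * ((n : ℝ) + 1) ^ 4 * Real.exp (9 * |x| / 2)
      - 6 * Real.pi * ((n : ℝ) + 1) ^ 2 * Real.exp (5 * |x| / 2)) *
    Real.exp (-Real.pi * ((n : ℝ) + 1) ^ 2 * Real.exp (2 * |x|))

/-- The kernel of the problem. -/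
noncomputable def K (ω a b : ℝ) : ℝ :=
  1 / 2 * ∫ y in Set.Ioi (|a + b| / 2),
    Phi (y + (a - b) / 2) * Phi (y - (a - b) / 2) * y * Real.cosh (2 * ω * y)

open scoped ComplexOrder in
/-- Positive semidefinite kernels (the sum is a nonnegative real number). -/
def PSD (k : ℝ → ℝ → ℝ) : Prop :=
  ∀ (N : ℕ) (a : Fin N → ℝ) (c : Fin N → ℂ),
    0 ≤ ∑ i, ∑ j, c i * (starRingEnd ℂ) (c j) * ((k (a i) (a j) : ℝ) : ℂ)

/-- The Fourier transform of the Riemann kernel. -/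
noncomputable def Xi (z : ℂ) : ℂ := ∫ t : ℝ, (Phi t : ℂ) * Complex.exp (I * z * t)

end Pool.Agent.Weyl
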