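import Pool.Agent.Lib.MP_38bb4c_an.KForm

/-!
# The kernel as a derivative in `ω`
-/

open Complex MeasureTheory Set Filter Topology

namespace Pool.Agent.Weyl

/-- The integrand of the form `S`. -/
noncomputable def sint (w a b t : ℝ) : ℝ :=
  Phi (a + t) * Phi (b + t) * (2 * Real.sinh (w * (a + b + 2 * t)))

/-- The primitive of the kernel in `w`. -/
noncomputable def Sf (w a b : ℝ) : ℝ := ∫ t in Ioi (0 : ℝ), sint w a b t

theorem abs_two_sinh_le (w x : ℝ) : |2 * Real.sinh (w * x)| ≤ 2 * Real.exp (|w| * |x|) := by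
  rw [abs_mul, abs_of_pos (by norm_num : (0 : ℝ) < 2), Real.abs_sinh, abs_mul, Real.sinh_eq]
  have : 0 < Real.exp (-(|w| * |x|)) := Real.exp_pos _
  have h2 : 0 < Real.exp (|w| * |x|) := Real.exp_pos _
  linarith

theorem XiData.sint_integrable (H : XiData) (w a b : ℝ) : Integrable (sint w a b) := by
  obtain ⟨C, hC, h⟩ := H.dom |w| (abs_nonneg w)
  have hc : Continuous (sint w a b) := by
    have h := H.cont
    unfold sint
    fun_prop
  refine Integrable.mono' ((integrable_exp_shift a).const_mul (2 * C))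
    hc.aestronglyMeasurable (Eventually.of_forall fun t => ?_)
  rw [sint, Real.norm_eq_abs, abs_mul, abs_of_pos (mul_pos (H.pos _) (H.pos _))]
  have h1 := h a b t
  have h2 := abs_two_sinh_le w (a + b + 2 * t)
  have hp := mul_pos (H.pos (a + t)) (H.pos (b + t))
  calc Phi (a + t) * Phi (b + t) * |2 * Real.sinh (w * (a + b + 2 * t))|
      ≤ Phi (a + t) * Phi (b + t) * (2 * Real.exp (|w| * |a + b + 2 * t|)) := by gcongr
    _ = 2 * (Phi (a + t) * Phi (b + t) * Real.exp (|w| * |a + b + 2 * t|)) := by ring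
    _ ≤ 2 * (C * Real.exp (-(1 * |a + t|))) := by gcongr
    _ = _ := by ring

theorem XiData.Sf_hasDerivAt (H : XiData) (w a b : ℝ) :
    HasDerivAt (fun w => Sf w a b) (8 * K w a b) w := by
  obtain ⟨C, hC, h⟩ := H.dom (|w| + 1 + 1) (by positivity)
  have key := hasDerivAt_integral_of_dominated_loc_of_deriv_le (𝕜 := ℝ)
    (μ := volume.restrict (Ioi (0 : ℝ))) (x₀ := w) (s := Metric.ball w 1)
    (F := fun w t => sint w a b t) (F' := fun w t => 2 * kint w a b t)
    (bound := fun t => 2 * (C * Real.exp (-(1 * |a + t|))))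
    (Metric.ball_mem_nhds w one_pos)
    (Eventually.of_forall fun w => (H.sint_integrable w a b).integrableOn.aestronglyMeasurable)
    (H.sint_integrable w a b).integrableOn
    ((H.kint_integrable w a b).integrableOn.const_mul 2).aestronglyMeasurable
    (Eventually.of_forall fun t x hx => by
      have hx1 : |x| ≤ |w| + 1 := by
        rw [Metric.mem_ball, Real.dist_eq] at hx
        have := abs_add_le (x - w) w
        rw [sub_add_cancel] at this
        linarith
      have h1 := h a b t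
      have h2 := abs_mul_cosh_le x (a + b + 2 * t)
      have hp := mul_pos (H.pos (a + t)) (H.pos (b + t))
      rw [kint, Real.norm_eq_abs, abs_mul, abs_of_pos (by norm_num : (0 : ℝ) < 2), abs_mul,
        abs_of_pos hp]
      have h3 : Real.exp ((|x| + 1) * |a + b + 2 * t|) ≤
          Real.exp ((|w| + 1 + 1) * |a + b + 2 * t|) := by gcongr
      have h4 : Phi (a + t) * Phi (b + t) *
          |(a + b + 2 * t) * Real.cosh (x * (a + b + 2 * t))| ≤
          C * Real.exp (-(1 * |a + t|)) := by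
        refine le_trans ?_ h1
        apply mul_le_mul_of_nonneg_left (h2.trans h3) hp.le
      linarith)
    (((integrable_exp_shift a).const_mul C).const_mul 2).integrableOn
    (Eventually.of_forall fun t x _ => by
      have h1 : HasDerivAt (fun w : ℝ => w * (a + b + 2 * t)) (a + b + 2 * t) x := by
        simpa using (hasDerivAt_id x).mul_const (a + b + 2 * t)
      have h2 := h1.sinh
      have h3 := (h2.const_mul 2).const_mul (Phi (a + t) * Phi (b + t))
      have e : 2 * kint x a b t = Phi (a + t) * Phi (b + t) *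
          (2 * (Real.cosh (x * (a + b + 2 * t)) * (a + b + 2 * t))) := by
        rw [kint]; ring
      rw [e]
      exact h3)
  have h5 := key.2
  have e : 8 * K w a b = ∫ t in Ioi (0 : ℝ), 2 * kint w a b t := by
    rw [H.K_eq, integral_const_mul]
    ring
  rw [e]
  exact h5

/-- The combination `V_w`. -/
noncomputable def Vf {N : ℕ} (a : Fin N → ℝ) (c : Fin N → ℂ) (w t : ℝ) : ℂ :=
  ∑ j, c j * ((Phi (a j + t) * Real.exp (w * (a j + t)) : ℝ) : ℂ)

/-- The quadratic form `Q(w)`. -/
noncomputable def Qf {N : ℕ} (a : Fin N → ℝ) (c : Fin N → ℂ) (w : ℝ) : ℝ :=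
  ∫ t in Ioi (0 : ℝ), (‖Vf a c w t‖ ^ 2 - ‖Vf a c (-w) t‖ ^ 2)

theorem norm_sq_sum {N : ℕ} (c : Fin N → ℂ) (u : Fin N → ℝ) :
    ‖∑ j, c j * ((u j : ℝ) : ℂ)‖ ^ 2 =
      ∑ i, ∑ j, (c i * (starRingEnd ℂ) (c j)).re * (u i * u j) := by
  rw [← Complex.normSq_eq_norm_sq]
  have h : ((Complex.normSq (∑ j, c j * ((u j : ℝ) : ℂ)) : ℝ) : ℂ) =
      ∑ i, ∑ j, (c i * (starRingEnd ℂ) (c j)) * ((u i * u j : ℝ) : ℂ) := by
    rw [← Complex.mul_conj, map_sum, Finset.sum_mul_sum]
    refine Finset.sum_congr rfl fun i _ => Finset.sum_congr rfl fun j _ => ?_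
    rw [map_mul, Complex.conj_ofReal]
    push_cast
    ring
  have h2 := congrArg Complex.re h
  rw [Complex.ofReal_re] at h2
  rw [h2, Complex.re_sum]
  refine Finset.sum_congr rfl fun i _ => ?_
  rw [Complex.re_sum]
  refine Finset.sum_congr rfl fun j _ => ?_
  rw [Complex.re_mul_ofReal]

theorem Qint_eq {N : ℕ} (a : Fin N → ℝ) (c : Fin N → ℂ) (w t : ℝ) :
    ‖Vf a c w t‖ ^ 2 - ‖Vf a c (-w) t‖ ^ 2 =
      ∑ i, ∑ j, (c i * (starRingEnd ℂ) (c j)).re * sint w (a i) (a j) t := by
  rw [Vf, Vf, norm_sq_sum, norm_sq_sum, ← Finset.sum_sub_distrib]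
  refine Finset.sum_congr rfl fun i _ => ?_
  rw [← Finset.sum_sub_distrib]
  refine Finset.sum_congr rfl fun j _ => ?_
  rw [sint, Real.sinh_eq]
  have e1 : Real.exp (w * (a i + t)) * Real.exp (w * (a j + t)) =
      Real.exp (w * (a i + a j + 2 * t)) := by rw [← Real.exp_add]; ring_nf
  have e2 : Real.exp (-w * (a i + t)) * Real.exp (-w * (a j + t)) =
      Real.exp (-(w * (a i + a j + 2 * t))) := by rw [← Real.exp_add]; ring_nf
  rw [← e1, ← e2]
  ring

theorem XiData.Qf_eq (H : XiData) {N : ℕ} (a : Fin N → ℝ) (c : Fin N → ℂ) (w : ℝ) :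
    Qf a c w = ∑ i, ∑ j, (c i * (starRingEnd ℂ) (c j)).re * Sf w (a i) (a j) := by
  rw [Qf]
  simp only [Qint_eq]
  rw [integral_finsetSum _ fun i _ => integrable_finsetSum _ fun j _ =>
    ((H.sint_integrable w (a i) (a j)).integrableOn.const_mul _)]
  refine Finset.sum_congr rfl fun i _ => ?_
  rw [integral_finsetSum _ fun j _ => ((H.sint_integrable w (a i) (a j)).integrableOn.const_mul _)]
  refine Finset.sum_congr rfl fun j _ => ?_
  rw [integral_const_mul, Sf]

theorem XiData.Qf_hasDerivAt (H : XiData) {N : ℕ} (a : Fin N → ℝ) (c : Fin N → ℂ) (w : ℝ) :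
    HasDerivAt (Qf a c)
      (8 * ∑ i, ∑ j, (c i * (starRingEnd ℂ) (c j)).re * K w (a i) (a j)) w := by
  have e : Qf a c = fun w => ∑ i, ∑ j, (c i * (starRingEnd ℂ) (c j)).re * Sf w (a i) (a j) :=
    funext fun w => H.Qf_eq a c w
  rw [e]
  have h : HasDerivAt (fun w => ∑ i, ∑ j, (c i * (starRingEnd ℂ) (c j)).re * Sf w (a i) (a j))
      (∑ i, ∑ j, (c i * (starRingEnd ℂ) (c j)).re * (8 * K w (a i) (a j))) w := by
    apply HasDerivAt.fun_sum
    intro i _
    apply HasDerivAt.fun_sum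
    intro j _
    exact (H.Sf_hasDerivAt w (a i) (a j)).const_mul _
  convert h using 1
  rw [Finset.mul_sum]
  refine Finset.sum_congr rfl fun i _ => ?_
  rw [Finset.mul_sum]
  refine Finset.sum_congr rfl fun j _ => ?_
  ring

open scoped ComplexOrder in
/-- For a symmetric kernel only the real part matters. -/
theorem psd_iff (k : ℝ → ℝ → ℝ) (hk : ∀ a b, k a b = k b a) :
    PSD k ↔ ∀ (N : ℕ) (a : Fin N → ℝ) (c : Fin N → ℂ),
      0 ≤ ∑ i, ∑ j, (c i * (starRingEnd ℂ) (c j)).re * k (a i) (a j) := by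
  have hre : ∀ (N : ℕ) (a : Fin N → ℝ) (c : Fin N → ℂ),
      (∑ i, ∑ j, c i * (starRingEnd ℂ) (c j) * ((k (a i) (a j) : ℝ) : ℂ)).re =
      ∑ i, ∑ j, (c i * (starRingEnd ℂ) (c j)).re * k (a i) (a j) := by
    intro N a c
    rw [Complex.re_sum]
    refine Finset.sum_congr rfl fun i _ => ?_
    rw [Complex.re_sum]
    refine Finset.sum_congr rfl fun j _ => ?_
    rw [Complex.re_mul_ofReal]
  have him : ∀ (N : ℕ) (a : Fin N → ℝ) (c : Fin N → ℂ),
      (∑ i, ∑ j, c i * (starRingEnd ℂ) (c j) * ((k (a i) (a j) : ℝ) : ℂ)).im = 0 := by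
    intro N a c
    rw [← Complex.conj_eq_iff_im, map_sum]
    have : ∀ i, (starRingEnd ℂ) (∑ j, c i * (starRingEnd ℂ) (c j) * ((k (a i) (a j) : ℝ) : ℂ)) =
        ∑ j, c j * (starRingEnd ℂ) (c i) * ((k (a j) (a i) : ℝ) : ℂ) := by
      intro i
      rw [map_sum]
      refine Finset.sum_congr rfl fun j _ => ?_
      rw [map_mul, map_mul, Complex.conj_conj, Complex.conj_ofReal, hk (a i) (a j)]
      ring
    simp only [this]
    rw [Finset.sum_comm]
  constructor
  · intro h N a c
    have := h N a c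
    rw [Complex.le_def] at this
    rw [← hre N a c]
    simpa using this.1
  · intro h N a c
    rw [Complex.le_def]
    refine ⟨?_, ?_⟩
    · rw [hre N a c]
      simpa using h N a c
    · rw [him N a c]
      simp

/-- Module G: if every form `Q` is at least its value at `w` to the right of `w`, then the kernel
is positive semidefinite. -/
theorem XiData.psd_of_right (H : XiData) (w : ℝ)
    (h : ∀ (N : ℕ) (a : Fin N → ℝ) (c : Fin N → ℂ), ∀ᶠ w' in 𝓝[>] w, Qf a c w ≤ Qf a c w') :
    PSD (K w) := by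
  rw [psd_iff _ (H.K_symm w)]
  intro N a c
  have hd := H.Qf_hasDerivAt a c w
  rw [hasDerivAt_iff_tendsto_slope] at hd
  have hd' : Tendsto (slope (Qf a c) w) (𝓝[>] w)
      (𝓝 (8 * ∑ i, ∑ j, (c i * (starRingEnd ℂ) (c j)).re * K w (a i) (a j))) :=
    hd.mono_left (nhdsWithin_mono w (fun x hx => by
      simp only [mem_Ioi] at hx
      simp only [mem_compl_iff, mem_singleton_iff]
      exact ne_of_gt hx))
  have h0 : 0 ≤ 8 * ∑ i, ∑ j, (c i * (starRingEnd ℂ) (c j)).re * K w (a i) (a j) := by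
    refine ge_of_tendsto hd' ?_
    filter_upwards [h N a c, self_mem_nhdsWithin] with x hx hxw
    rw [slope_def_field]
    apply div_nonneg
    · linarith
    · have : w < x := hxw
      linarith
  linarith

end Pool.Agent.Weyl
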