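import Mathlib

/-!
# The Hilbert space algebra of step E, on functions of decay `1/(1+|t|)` on the line
-/

open Complex MeasureTheory Set Filter Topology

namespace Pool.Agent.Weyl

/-- Continuous functions on the line of decay `1/(1+|t|)`. -/
structure Dec (u : ℝ → ℂ) : Prop where
  cont : Continuous u
  le : ∃ C, ∀ t : ℝ, ‖u t‖ ≤ C / (1 + |t|)

theorem integrable_inv_sq : Integrable (fun t : ℝ => ((1 + |t|) * (1 + |t|))⁻¹) := by
  refine Integrable.mono' integrable_inv_one_add_sq ?_ (Eventually.of_forall fun t => ?_)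
  · apply Continuous.aestronglyMeasurable
    apply Continuous.inv₀ (by fun_prop)
    intro t
    positivity
  · have h0 : 0 ≤ |t| := abs_nonneg t
    rw [Real.norm_eq_abs, abs_of_nonneg (by positivity)]
    apply inv_anti₀ (by positivity)
    have : t ^ 2 = |t| ^ 2 := (sq_abs t).symm
    nlinarith

theorem Dec.nonneg_const {u : ℝ → ℂ} (h : Dec u) : ∃ C, 0 ≤ C ∧ ∀ t : ℝ, ‖u t‖ ≤ C / (1 + |t|) := by
  obtain ⟨C, hC⟩ := h.le
  refine ⟨C, ?_, hC⟩
  have h0 := hC 0
  have h1 := norm_nonneg (u 0)
  simp only [abs_zero, add_zero, div_one] at h0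
  linarith

theorem Dec.sub {u v : ℝ → ℂ} (hu : Dec u) (hv : Dec v) : Dec (fun t => u t - v t) := by
  obtain ⟨C, hC0, hC⟩ := hu.nonneg_const
  obtain ⟨D, hD0, hD⟩ := hv.nonneg_const
  refine ⟨hu.cont.sub hv.cont, C + D, fun t => ?_⟩
  refine (norm_sub_le _ _).trans ?_
  rw [add_div]
  exact add_le_add (hC t) (hD t)

theorem Dec.mul {u b : ℝ → ℂ} (hu : Dec u) (hb : Continuous b) (hb1 : ∀ t, ‖b t‖ ≤ 1) :
    Dec (fun t => b t * u t) := by
  obtain ⟨C, hC0, hC⟩ := hu.nonneg_const
  refine ⟨hb.mul hu.cont, C, fun t => ?_⟩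
  rw [norm_mul]
  have := hb1 t
  have h1 := norm_nonneg (u t)
  have h2 := hC t
  nlinarith

theorem Dec.integrable_mul {u v : ℝ → ℂ} (hu : Dec u) (hv : Dec v) :
    Integrable (fun t => u t * (starRingEnd ℂ) (v t)) := by
  obtain ⟨C, hC0, hC⟩ := hu.nonneg_const
  obtain ⟨D, hD0, hD⟩ := hv.nonneg_const
  refine Integrable.mono' (integrable_inv_sq.const_mul (C * D)) ?_
    (Eventually.of_forall fun t => ?_)
  · exact (hu.cont.mul (Complex.continuous_conj.comp hv.cont)).aestronglyMeasurable
  · rw [norm_mul, RCLike.norm_conj]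
    calc ‖u t‖ * ‖v t‖ ≤ (C / (1 + |t|)) * (D / (1 + |t|)) := by
          apply mul_le_mul (hC t) (hD t) (norm_nonneg _) (by positivity)
      _ = _ := by
          rw [div_mul_div_comm, div_eq_mul_inv]

/-- The inner product. -/
noncomputable def ipr (u v : ℝ → ℂ) : ℂ := ∫ t : ℝ, u t * (starRingEnd ℂ) (v t)

/-- The square of the norm. -/
noncomputable def nqr (u : ℝ → ℂ) : ℝ := ∫ t : ℝ, ‖u t‖ ^ 2

theorem ipr_conj (u v : ℝ → ℂ) : ipr v u = (starRingEnd ℂ) (ipr u v) := by
  rw [ipr, ipr, ← integral_conj]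
  congr 1
  funext t
  rw [map_mul, Complex.conj_conj]
  ring

theorem ipr_self (u : ℝ → ℂ) : ipr u u = (nqr u : ℂ) := by
  rw [ipr, nqr, ← integral_complex_ofReal]
  congr 1
  funext t
  rw [Complex.mul_conj, Complex.normSq_eq_norm_sq]

theorem nqr_nonneg (u : ℝ → ℂ) : 0 ≤ nqr u := integral_nonneg fun t => by positivity

theorem ipr_sub_left {u v w : ℝ → ℂ} (hu : Dec u) (hv : Dec v) (hw : Dec w) :
    ipr (fun t => u t - v t) w = ipr u w - ipr v w := by
  rw [ipr, ipr, ipr, ← integral_sub (hu.integrable_mul hw) (hv.integrable_mul hw)]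
  congr 1
  funext t
  ring

theorem nqr_sub {u v : ℝ → ℂ} (hu : Dec u) (hv : Dec v) :
    nqr (fun t => u t - v t) = nqr u - 2 * (ipr u v).re + nqr v := by
  have h1 : (nqr (fun t => u t - v t) : ℂ) = ipr u u - ipr u v - ipr v u + ipr v v := by
    rw [← ipr_self]
    have e1 := ipr_sub_left hu hv (hu.sub hv)
    have e2 : ∀ w : ℝ → ℂ, Dec w → ipr w (fun t => u t - v t) = ipr w u - ipr w v := by
      intro w hw
      rw [ipr_conj (fun t => u t - v t) w, ipr_sub_left hu hv hw, map_sub, ← ipr_conj, ← ipr_conj]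
    rw [e1, e2 u hu, e2 v hv]
    ring
  have h2 := congrArg Complex.re h1
  rw [ipr_conj u v, ipr_self, ipr_self] at h2
  simp only [Complex.ofReal_re, Complex.sub_re, Complex.add_re, Complex.conj_re] at h2
  rw [h2]
  ring

/-- Steps (a), (b), (c). -/
theorem step_abc {T P S f ft fp fs : ℝ → ℂ} (hf : Dec f) (hft : Dec ft) (hfp : Dec fp)
    (hfs : Dec fs) (hT : Continuous T) (hP : Continuous P) (hT1 : ∀ t, ‖T t‖ = 1)
    (hP1 : ∀ t, ‖P t‖ ≤ 1) (hS : ∀ t, S t = (starRingEnd ℂ) (P t) * T t)
    (hpair_t : ipr ft ft = ipr (fun t => T t * ft t) f)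
    (hpair_p : ipr fp fp = ipr (fun t => P t * fp t) f)
    (hpair_s : ipr fs fs = ipr (fun t => S t * fs t) f)
    (hpair_u : ipr (fun t => P t * ft t - fs t) fs =
      ipr (fun t => S t * (P t * ft t - fs t)) f) :
    0 ≤ nqr f - nqr ft - nqr fp + nqr fs := by
  have hT1' : ∀ t, ‖T t‖ ≤ 1 := fun t => (hT1 t).le
  have hTT : ∀ t, T t * (starRingEnd ℂ) (T t) = 1 := by
    intro t
    rw [Complex.mul_conj, Complex.normSq_eq_norm_sq, hT1 t]
    simp
  have hPc : Continuous (fun t => (starRingEnd ℂ) (P t)) := Complex.continuous_conj.comp hP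
  have hPc1 : ∀ t, ‖(starRingEnd ℂ) (P t)‖ ≤ 1 := by
    intro t; rw [RCLike.norm_conj]; exact hP1 t
  have hPf : Dec (fun t => P t * f t) := hf.mul hP hP1
  have hPcf : Dec (fun t => (starRingEnd ℂ) (P t) * f t) := hf.mul hPc hPc1
  have hTft : Dec (fun t => T t * ft t) := hft.mul hT hT1'
  have hTfs : Dec (fun t => T t * fs t) := hfs.mul hT hT1'
  have hPft : Dec (fun t => P t * ft t) := hft.mul hP hP1
  -- (a)
  have a1 : nqr (fun t => (starRingEnd ℂ) (P t) * f t) = nqr (fun t => P t * f t) := by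
    rw [nqr, nqr]
    congr 1
    funext t
    rw [norm_mul, norm_mul, RCLike.norm_conj]
  have a2 : nqr fp ≤ nqr (fun t => P t * f t) := by
    have h1 := nqr_sub hfp hPcf
    have h2 : ipr fp (fun t => (starRingEnd ℂ) (P t) * f t) = ipr fp fp := by
      rw [hpair_p, ipr, ipr]
      congr 1
      funext t
      rw [map_mul, Complex.conj_conj]
      ring
    rw [h2, ipr_self, Complex.ofReal_re, a1] at h1
    have h3 := nqr_nonneg (fun t => fp t - (starRingEnd ℂ) (P t) * f t)
    linarith
  -- (b)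
  have nT : ∀ u : ℝ → ℂ, nqr (fun t => T t * u t) = nqr u := by
    intro u
    rw [nqr, nqr]
    congr 1
    funext t
    rw [norm_mul, hT1 t, one_mul]
  set p : ℝ → ℂ := fun t => f t - T t * ft t with hp
  have hpD : Dec p := hf.sub hTft
  have b1 : nqr p = nqr f - nqr ft := by
    have h1 := nqr_sub hf hTft
    have h2 : (ipr f (fun t => T t * ft t)).re = nqr ft := by
      rw [ipr_conj (fun t => T t * ft t) f, ← hpair_t, ipr_self]
      simp
    rw [h2, nT] at h1
    rw [hp, h1]
    ring
  set q : ℝ → ℂ := fun t => P t * f t - T t * fs t with hq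
  have hqD : Dec q := hPf.sub hTfs
  have b2 : nqr q = nqr (fun t => P t * f t) - nqr fs := by
    have h1 := nqr_sub hPf hTfs
    have h2 : (ipr (fun t => P t * f t) (fun t => T t * fs t)).re = nqr fs := by
      have h3 : ipr (fun t => T t * fs t) (fun t => P t * f t) = ipr fs fs := by
        rw [hpair_s, ipr, ipr]
        congr 1
        funext t
        rw [hS, map_mul]
        ring
      rw [ipr_conj (fun t => T t * fs t) (fun t => P t * f t), h3, ipr_self]
      simp
    rw [h2, nT] at h1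
    rw [hq, h1]
    ring
  -- (c)
  have hu : Dec (fun t => P t * ft t - fs t) := hPft.sub hfs
  have c1 : ipr q (fun t => T t * (P t * ft t - fs t)) = 0 := by
    have h1 : ipr q (fun t => T t * (P t * ft t - fs t)) =
        ipr (fun t => P t * f t * (starRingEnd ℂ) (T t)) (fun t => P t * ft t - fs t) -
          ipr fs (fun t => P t * ft t - fs t) := by
      have hD1 : Dec (fun t => P t * f t * (starRingEnd ℂ) (T t)) := by
        have := hPf.mul (b := fun t => (starRingEnd ℂ) (T t)) (Complex.continuous_conj.comp hT)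
          (fun t => by rw [RCLike.norm_conj]; exact hT1' t)
        convert this using 2
        ring
      rw [← ipr_sub_left hD1 hfs hu, ipr, ipr]
      congr 1
      funext t
      rw [hq, map_mul]
      simp only
      have := hTT t
      linear_combination (-(fs t) * (starRingEnd ℂ) (P t * ft t - fs t)) * this
    have h2 : ipr (fun t => P t * f t * (starRingEnd ℂ) (T t)) (fun t => P t * ft t - fs t) =
        (starRingEnd ℂ) (ipr (fun t => S t * (P t * ft t - fs t)) f) := by
      rw [← ipr_conj, ipr, ipr]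
      congr 1
      funext t
      rw [map_mul, hS, map_mul, Complex.conj_conj]
      ring
    rw [h1, h2, ← hpair_u, ← ipr_conj, sub_self]
  have hPp : Dec (fun t => P t * p t) := hpD.mul hP hP1
  have hTu : Dec (fun t => T t * (P t * ft t - fs t)) := hu.mul hT hT1'
  have c2 : ipr q q = ipr q (fun t => P t * p t) := by
    have h1 : ipr q (fun t => q t - P t * p t) = 0 := by
      rw [← c1]
      congr 1
      funext t
      rw [hq, hp]
      simp only
      ring
    have h2 : ipr q (fun t => q t - P t * p t) = ipr q q - ipr q (fun t => P t * p t) := by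
      rw [ipr_conj (fun t => q t - P t * p t) q, ipr_sub_left hqD hPp hqD, map_sub, ← ipr_conj,
        ← ipr_conj]
    rw [h2] at h1
    exact sub_eq_zero.mp h1
  have c3 : nqr q ≤ nqr (fun t => P t * p t) := by
    have h1 := nqr_sub hqD hPp
    rw [← c2, ipr_self, Complex.ofReal_re] at h1
    have h3 := nqr_nonneg (fun t => q t - P t * p t)
    linarith
  have c4 : nqr (fun t => P t * p t) ≤ nqr p := by
    rw [nqr, nqr]
    have hi : ∀ u : ℝ → ℂ, Dec u → Integrable (fun t => ‖u t‖ ^ 2) := by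
      intro u hu
      have h1 := (hu.integrable_mul hu).norm
      refine h1.congr (Eventually.of_forall fun t => ?_)
      simp only
      rw [norm_mul, RCLike.norm_conj]
      ring
    apply integral_mono (hi _ hPp) (hi _ hpD)
    intro t
    simp only
    rw [norm_mul, mul_pow]
    have h1 : ‖P t‖ ^ 2 ≤ 1 := by
      have := hP1 t
      have h0 := norm_nonneg (P t)
      nlinarith
    have h2 : 0 ≤ ‖p t‖ ^ 2 := by positivity
    nlinarith
  linarith

end Pool.Agent.Weyl
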