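import Pool.Agent.Lib.MP_38bb4c_an.Pairing

/-!
# MP_38bb4c_an: the final theorem
-/

open Complex MeasureTheory Set Filter Topology

namespace Pool.Agent.Weyl

theorem stE : StE := by
  refine stE_of Nice fX (fun u hu => hu.cont) (fun u hu => hu.bd)
    (fun u X hu hX => hu.ball_mul hX) (fun u v hu hv => hu.sub hv)
    (fun g X eta hX h hg hI => nice_fX hg hI hX h)
    (fun g X eta hX h hg hI u hu => pairing hg hI hX h hu)
    (fun g X eta hX h hg hI => ?_)
  have key := ip_fX_self hg hI hX h
  have h1 : ip (fX g X eta) (fX g X eta) = ((∫ t : ℝ, ‖fX g X eta t‖ ^ 2 : ℝ) : ℂ) := by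
    unfold ip
    rw [← integral_complex_ofReal]
    refine integral_congr_ae (Eventually.of_forall fun t => ?_)
    beta_reduce
    rw [Complex.mul_conj, Complex.normSq_eq_norm_sq]
  rw [h1] at key
  exact_mod_cast key

/-- Q1 is equivalent to the Riemann hypothesis and to its own case `ω = 0`; more precisely a
zero free half plane `Re s > 1/2 + |ω|` gives the positivity of `K_ω`. -/
theorem final :
    ((∀ w : ℝ, |w| < 1 / 2 → PSD (K w)) ↔ RiemannHypothesis) ∧
    (PSD (K 0) ↔ RiemannHypothesis) ∧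
    (∀ w : ℝ, |w| < 3 / 2 → (∀ s : ℂ, 1 / 2 + |w| < s.re → riemannZeta s ≠ 0) → PSD (K w)) :=
  xiData.main stE

end Pool.Agent.Weyl
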