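import Mathlib

/-!
# MP_38bb4c_an: Cauchy's formula in the upper half plane
-/

open Complex MeasureTheory Set Filter Topology

namespace Pool.Agent.Weyl

theorem line_continuous {F : ℂ → ℂ} (hc : ContinuousOn F {z | 0 ≤ z.im}) :
    Continuous (fun x : ℝ => F x) := by
  have : ContinuousOn (fun x : ℝ => F x) univ :=
    hc.comp Complex.continuous_ofReal.continuousOn (fun x _ => by simp)
  exact continuousOn_univ.mp this

/-- The integral over the real line of a function analytic on the upper half plane with decay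
`O(|z|^{-2})` vanishes. -/
theorem upper_integral_eq_zero {F : ℂ → ℂ} (hd : DifferentiableOn ℂ F {z | 0 < z.im})
    (hc : ContinuousOn F {z | 0 ≤ z.im}) {C : ℝ}
    (hb : ∀ z : ℂ, 0 ≤ z.im → ‖F z‖ ≤ C / (1 + ‖z‖ ^ 2)) : ∫ x : ℝ, F x = 0 := by
  have hC : 0 ≤ C := by
    have := (norm_nonneg _).trans (hb 0 (by simp))
    simpa using this
  have hline := line_continuous hc
  have hint : Integrable (fun x : ℝ => F x) := by
    refine (integrable_inv_one_add_sq.const_mul C).mono' hline.aestronglyMeasurable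
      (Eventually.of_forall fun x => ?_)
    have := hb x (by simp)
    rw [Complex.norm_real, Real.norm_eq_abs, sq_abs] at this
    rwa [← div_eq_mul_inv]
  have hbound : ∀ z : ℂ, 0 ≤ z.im → ∀ R : ℝ, 0 ≤ R → R ≤ ‖z‖ → ‖F z‖ ≤ C / (1 + R ^ 2) := by
    intro z hz R hR hRz
    refine (hb z hz).trans ?_
    apply div_le_div_of_nonneg_left hC (by positivity)
    have := pow_le_pow_left₀ hR hRz 2
    linarith
  have hI0 : ∀ R : ℝ, 0 < R → ‖∫ x in (-R)..R, F x‖ ≤ 4 * C * (R / (1 + R ^ 2)) := by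
    intro R hR
    have hrect := integral_boundary_rect_eq_zero_of_continuousOn_of_differentiableOn F
      (-R : ℂ) (R + R * I) ?_ ?_
    · simp only [Complex.neg_re, Complex.ofReal_re, Complex.neg_im, Complex.ofReal_im, neg_zero,
        Complex.ofReal_zero, zero_mul, add_zero, Complex.add_re, Complex.mul_re, Complex.I_re,
        mul_zero, Complex.I_im, mul_one, sub_self, Complex.add_im, Complex.mul_im, zero_add,
        Complex.ofReal_neg, smul_eq_mul] at hrect
      have h1 : ‖∫ x in (-R)..R, F (x + R * I)‖ ≤ C / (1 + R ^ 2) * |R - -R| := by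
        refine intervalIntegral.norm_integral_le_of_norm_le_const (fun x _ => ?_)
        refine hbound _ (by simpa using hR.le) R hR.le ?_
        refine le_trans ?_ (Complex.abs_im_le_norm _)
        simp [abs_of_pos hR]
      have h2 : ‖∫ y in (0 : ℝ)..R, F (R + y * I)‖ ≤ C / (1 + R ^ 2) * |R - 0| := by
        refine intervalIntegral.norm_integral_le_of_norm_le_const (fun y hy => ?_)
        rw [uIoc_of_le hR.le] at hy
        refine hbound _ (by simpa using hy.1.le) R hR.le ?_
        refine le_trans ?_ (Complex.abs_re_le_norm _)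
        simp [abs_of_pos hR]
      have h3 : ‖∫ y in (0 : ℝ)..R, F (-R + y * I)‖ ≤ C / (1 + R ^ 2) * |R - 0| := by
        refine intervalIntegral.norm_integral_le_of_norm_le_const (fun y hy => ?_)
        rw [uIoc_of_le hR.le] at hy
        refine hbound _ (by simpa using hy.1.le) R hR.le ?_
        refine le_trans ?_ (Complex.abs_re_le_norm _)
        simp [abs_of_pos hR]
      have h4 : ∫ x in (-R)..R, F x = (∫ x in (-R)..R, F (x + R * I)) -
          I * (∫ y in (0 : ℝ)..R, F (R + y * I)) + I * (∫ y in (0 : ℝ)..R, F (-R + y * I)) := by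
        linear_combination hrect
      rw [h4]
      refine (norm_add_le _ _).trans ((add_le_add (norm_sub_le _ _) le_rfl).trans ?_)
      rw [norm_mul, norm_mul, Complex.norm_I, one_mul, one_mul]
      rw [show |R - -R| = 2 * R by rw [abs_of_pos (by linarith)]; ring] at h1
      rw [sub_zero, abs_of_pos hR] at h2 h3
      have e : 4 * C * (R / (1 + R ^ 2)) = C / (1 + R ^ 2) * (2 * R) + C / (1 + R ^ 2) * R +
          C / (1 + R ^ 2) * R := by ring
      rw [e]
      linarith
    · refine hc.mono (fun z hz => ?_)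
      rw [Complex.mem_reProdIm] at hz
      have := hz.2
      simp only [Complex.neg_im, Complex.ofReal_im, neg_zero, Complex.add_im, Complex.mul_im,
        Complex.ofReal_re, Complex.I_im, mul_one, Complex.I_re, mul_zero, add_zero, zero_add,
        uIcc_of_le hR.le] at this
      exact this.1
    · refine hd.mono (fun z hz => ?_)
      rw [Complex.mem_reProdIm] at hz
      have := hz.2
      simp only [Complex.neg_im, Complex.ofReal_im, neg_zero, Complex.add_im, Complex.mul_im,
        Complex.ofReal_re, Complex.I_im, mul_one, Complex.I_re, mul_zero, add_zero, zero_add,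
        min_eq_left hR.le] at this
      exact this.1
  have hlim1 : Tendsto (fun R : ℝ => ∫ x in (-R)..R, F x) atTop (𝓝 (∫ x : ℝ, F x)) :=
    intervalIntegral_tendsto_integral hint tendsto_neg_atTop_atBot tendsto_id
  have hlim2 : Tendsto (fun R : ℝ => ∫ x in (-R)..R, F x) atTop (𝓝 0) := by
    have h5 : Tendsto (fun R : ℝ => 4 * C * (R⁻¹)) atTop (𝓝 (4 * C * 0)) :=
      tendsto_inv_atTop_zero.const_mul _
    rw [mul_zero] at h5
    refine squeeze_zero_norm' ?_ h5
    filter_upwards [eventually_gt_atTop 0] with R hR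
    refine (hI0 R hR).trans ?_
    apply mul_le_mul_of_nonneg_left _ (by positivity)
    rw [div_le_iff₀ (by positivity)]
    field_simp
    nlinarith
  exact tendsto_nhds_unique hlim1 hlim2

/-- `|z - p| ≥ (1 + |z|) / K` if `|z - p| ≥ r`. -/
theorem one_add_norm_le {z p : ℂ} {r : ℝ} (hr : 0 < r) (h : r ≤ ‖z - p‖) :
    1 + ‖z‖ ≤ (1 + (1 + ‖p‖) / r) * ‖z - p‖ := by
  have h1 : ‖z‖ ≤ ‖z - p‖ + ‖p‖ := by
    have := norm_add_le (z - p) p
    rwa [sub_add_cancel] at this
  have h2 : 1 + ‖p‖ ≤ (1 + ‖p‖) / r * ‖z - p‖ := by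
    rw [div_mul_eq_mul_div, le_div_iff₀ hr]
    exact mul_le_mul_of_nonneg_left h (by positivity)
  linarith

theorem norm_sub_conj_ge {z w : ℂ} (hz : 0 ≤ z.im) : w.im ≤ ‖z - (starRingEnd ℂ) w‖ := by
  refine le_trans ?_ ((le_abs_self _).trans (Complex.abs_im_le_norm _))
  simp only [Complex.sub_im, Complex.conj_im, sub_neg_eq_add]
  linarith

theorem div_bound {A B D K z : ℝ} (hz : 0 ≤ z) (hA : A ≤ D / (1 + z))
    (hD : 0 ≤ D) (hK : 0 ≤ K) (hB : 1 + z ≤ K * B) : A / B ≤ D * K / (1 + z ^ 2) := by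
  have hBpos : 0 < B := by
    rcases le_or_gt B 0 with h | h
    · have : K * B ≤ 0 := mul_nonpos_of_nonneg_of_nonpos hK h
      linarith
    · exact h
  rw [div_le_iff₀ hBpos]
  refine hA.trans ?_
  rw [div_mul_eq_mul_div, div_le_div_iff₀ (by positivity) (by positivity)]
  have h1 : D * (1 + z ^ 2) ≤ D * ((1 + z) * (1 + z)) :=
    mul_le_mul_of_nonneg_left (by nlinarith) hD
  have h2 : D * ((1 + z) * (1 + z)) ≤ D * ((K * B) * (1 + z)) :=
    mul_le_mul_of_nonneg_left (mul_le_mul_of_nonneg_right hB (by positivity)) hD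
  nlinarith

/-- No pole in the upper half plane. -/
theorem cauchy_conj {u : ℂ → ℂ} (hd : DifferentiableOn ℂ u {z | 0 < z.im})
    (hc : ContinuousOn u {z | 0 ≤ z.im}) {C : ℝ}
    (hb : ∀ z : ℂ, 0 ≤ z.im → ‖u z‖ ≤ C / (1 + ‖z‖)) {w : ℂ} (hw : 0 < w.im) :
    ∫ x : ℝ, u x / ((x : ℂ) - (starRingEnd ℂ) w) = 0 := by
  have hC : 0 ≤ C := by
    have := (norm_nonneg _).trans (hb 0 (by simp))
    simpa using this
  have hne : ∀ z : ℂ, 0 ≤ z.im → z - (starRingEnd ℂ) w ≠ 0 := by
    intro z hz h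
    have := norm_sub_conj_ge (w := w) hz
    rw [h, norm_zero] at this
    linarith
  refine upper_integral_eq_zero (F := fun z => u z / (z - (starRingEnd ℂ) w))
    (C := C * (1 + (1 + ‖(starRingEnd ℂ) w‖) / w.im)) ?_ ?_ ?_
  · exact hd.div (by fun_prop) (fun z hz => hne z (le_of_lt hz))
  · exact hc.div (by fun_prop) (fun z hz => hne z hz)
  · intro z hz
    rw [norm_div]
    exact div_bound (norm_nonneg z) (hb z hz) hC (by positivity)
      (one_add_norm_le hw (norm_sub_conj_ge hz))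

theorem poisson_integral {w : ℂ} (hw : 0 < w.im) :
    ∫ x : ℝ, (w - (starRingEnd ℂ) w) / (((x : ℂ) - (starRingEnd ℂ) w) * ((x : ℂ) - w)) =
      2 * Real.pi * I := by
  have h1 : ∀ x : ℝ, (w - (starRingEnd ℂ) w) /
      (((x : ℂ) - (starRingEnd ℂ) w) * ((x : ℂ) - w)) =
      2 * I * (((w.im)⁻¹ * (1 + ((x - w.re) / w.im) ^ 2)⁻¹ : ℝ) : ℂ) := by
    intro x
    have e1 : w - (starRingEnd ℂ) w = 2 * I * (w.im : ℂ) := by
      apply Complex.ext
      · simp
      · simp
        ring
    have e2 : ((x : ℂ) - (starRingEnd ℂ) w) * ((x : ℂ) - w) =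
        (((x - w.re) ^ 2 + w.im ^ 2 : ℝ) : ℂ) := by
      have e4 : (x : ℂ) - (starRingEnd ℂ) w = (starRingEnd ℂ) ((x : ℂ) - w) := by simp
      rw [e4, mul_comm, Complex.mul_conj, Complex.normSq_apply]
      congr 1
      simp
      ring
    have e3 : (w.im)⁻¹ * (1 + ((x - w.re) / w.im) ^ 2)⁻¹ =
        w.im / ((x - w.re) ^ 2 + w.im ^ 2) := by
      field_simp
      ring
    rw [e1, e2, e3]
    push_cast
    ring
  simp_rw [h1]
  rw [integral_const_mul, integral_complex_ofReal, integral_const_mul]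
  have h2 : ∫ x : ℝ, (1 + ((x - w.re) / w.im) ^ 2)⁻¹ = w.im * Real.pi := by
    have h3 := integral_sub_right_eq_self (μ := volume)
      (fun x : ℝ => (1 + (x / w.im) ^ 2)⁻¹) w.re
    rw [h3]
    have h4 := Measure.integral_comp_div (fun x : ℝ => (1 + x ^ 2)⁻¹) w.im
    rw [h4, integral_univ_inv_one_add_sq, abs_of_pos hw, smul_eq_mul]
  rw [h2]
  have : (w.im)⁻¹ * (w.im * Real.pi) = Real.pi := by field_simp
  rw [this]
  ring

/-- Cauchy's formula in the upper half plane. -/
theorem cauchy_upper {u : ℂ → ℂ} (hd : DifferentiableOn ℂ u {z | 0 < z.im})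
    (hc : ContinuousOn u {z | 0 ≤ z.im}) {C : ℝ}
    (hb : ∀ z : ℂ, 0 ≤ z.im → ‖u z‖ ≤ C / (1 + ‖z‖)) {w : ℂ} (hw : 0 < w.im) :
    ∫ x : ℝ, u x / ((x : ℂ) - w) = 2 * Real.pi * I * u w := by
  have hC : 0 ≤ C := by
    have := (norm_nonneg _).trans (hb 0 (by simp))
    simpa using this
  have hne : ∀ z : ℂ, 0 ≤ z.im → z - (starRingEnd ℂ) w ≠ 0 := by
    intro z hz h
    have := norm_sub_conj_ge (w := w) hz
    rw [h, norm_zero] at this
    linarith
  set A : ℂ := u w * (w - (starRingEnd ℂ) w) with hA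
  set v : ℂ → ℂ := fun z => u z - A / (z - (starRingEnd ℂ) w) with hv
  have hvd : DifferentiableOn ℂ v {z | 0 < z.im} :=
    hd.sub ((differentiableOn_const _).div (by fun_prop) (fun z hz => hne z (le_of_lt hz)))
  have hvc : ContinuousOn v {z | 0 ≤ z.im} :=
    hc.sub (continuousOn_const.div (by fun_prop) (fun z hz => hne z hz))
  have hvw : v w = 0 := by
    rw [hv]
    simp only
    rw [hA, mul_div_assoc, div_self (hne w hw.le)]
    ring
  have hopen : IsOpen {z : ℂ | 0 < z.im} := isOpen_lt continuous_const Complex.continuous_im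
  have hnhds : {z : ℂ | 0 < z.im} ∈ 𝓝 w := hopen.mem_nhds hw
  have hnhds' : {z : ℂ | 0 ≤ z.im} ∈ 𝓝 w :=
    mem_of_superset hnhds (fun z (hz : 0 < z.im) => (le_of_lt hz : 0 ≤ z.im))
  set F := dslope v w with hF
  have hFd : DifferentiableOn ℂ F {z | 0 < z.im} :=
    (Complex.differentiableOn_dslope hnhds).mpr hvd
  have hFc : ContinuousOn F {z | 0 ≤ z.im} :=
    (continuousOn_dslope hnhds').mpr ⟨hvc, hvd.differentiableAt hnhds⟩
  have hFz : ∀ z, z ≠ w → F z = v z / (z - w) := by
    intro z hz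
    rw [hF, dslope_of_ne _ hz, slope_def_field, hvw, sub_zero]
  set K1 := 1 + (1 + ‖(starRingEnd ℂ) w‖) / w.im with hK1
  set K2 := 1 + (1 + ‖w‖) / w.im with hK2
  have hK1p : 0 ≤ K1 := by positivity
  have hK2p : 0 ≤ K2 := by positivity
  have hvb : ∀ z : ℂ, 0 ≤ z.im → ‖v z‖ ≤ (C + ‖A‖ * K1) / (1 + ‖z‖) := by
    intro z hz
    rw [hv]
    refine (norm_sub_le _ _).trans ?_
    rw [add_div]
    refine add_le_add (hb z hz) ?_
    rw [norm_div]
    have h1 := one_add_norm_le hw (norm_sub_conj_ge (w := w) hz)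
    have h2 : 0 < ‖z - (starRingEnd ℂ) w‖ := norm_pos_iff.mpr (hne z hz)
    rw [div_le_div_iff₀ h2 (by positivity)]
    calc ‖A‖ * (1 + ‖z‖) ≤ ‖A‖ * (K1 * ‖z - (starRingEnd ℂ) w‖) :=
          mul_le_mul_of_nonneg_left h1 (norm_nonneg _)
      _ = ‖A‖ * K1 * ‖z - (starRingEnd ℂ) w‖ := by ring
  -- bound near w
  obtain ⟨M, hM⟩ := (isCompact_closedBall w w.im).exists_bound_of_continuousOn
    (f := F) (hFc.mono (fun z hz => by
      have h1 : |(z - w).im| ≤ w.im := by
        refine (Complex.abs_im_le_norm _).trans ?_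
        simpa [dist_eq_norm] using hz
      have h2 := (abs_le.mp h1).1
      simp only [Complex.sub_im] at h2
      show 0 ≤ z.im
      linarith))
  have hM0 : 0 ≤ M := (norm_nonneg _).trans (hM w (Metric.mem_closedBall_self hw.le))
  have hFb : ∀ z : ℂ, 0 ≤ z.im → ‖F z‖ ≤
      ((C + ‖A‖ * K1) * K2 + M * (1 + (‖w‖ + w.im) ^ 2)) / (1 + ‖z‖ ^ 2) := by
    intro z hz
    rw [add_div]
    rcases le_or_gt ‖z - w‖ w.im with h | h
    · have h1 := hM z (by simpa [dist_eq_norm] using h)
      have h2 : ‖z‖ ≤ ‖w‖ + w.im := by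
        have := norm_add_le (z - w) w
        rw [sub_add_cancel] at this
        linarith
      have h3 : M ≤ M * (1 + (‖w‖ + w.im) ^ 2) / (1 + ‖z‖ ^ 2) := by
        rw [le_div_iff₀ (by positivity)]
        apply mul_le_mul_of_nonneg_left _ hM0
        have := pow_le_pow_left₀ (norm_nonneg z) h2 2
        linarith
      have h4 : 0 ≤ (C + ‖A‖ * K1) * K2 / (1 + ‖z‖ ^ 2) := by positivity
      linarith
    · have hzw : z ≠ w := by
        rintro rfl
        simp at h
        linarith
      rw [hFz z hzw, norm_div]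
      have h1 := div_bound (norm_nonneg z) (hvb z hz) (by positivity) hK2p
        (one_add_norm_le hw h.le)
      have h4 : 0 ≤ M * (1 + (‖w‖ + w.im) ^ 2) / (1 + ‖z‖ ^ 2) := by positivity
      linarith
  have key := upper_integral_eq_zero hFd hFc hFb
  have hxne : ∀ x : ℝ, (x : ℂ) ≠ w := by
    intro x h
    rw [← h] at hw
    simp at hw
  have hxw : ∀ x : ℝ, (x : ℂ) - w ≠ 0 := fun x => sub_ne_zero.mpr (hxne x)
  have hlw : ∀ x : ℝ, w.im ≤ ‖(x : ℂ) - w‖ := by
    intro x
    refine le_trans ?_ (Complex.abs_im_le_norm _)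
    simp [abs_of_pos hw]
  -- integrability
  have i1 : Integrable (fun x : ℝ => u x / ((x : ℂ) - w)) := by
    refine (integrable_inv_one_add_sq.const_mul (C * K2)).mono'
      ((line_continuous hc).div (by fun_prop) hxw).aestronglyMeasurable
      (Eventually.of_forall fun x => ?_)
    rw [norm_div]
    have := div_bound (norm_nonneg (x : ℂ)) (hb x (by simp)) hC hK2p
      (one_add_norm_le hw (hlw x))
    rw [Complex.norm_real, Real.norm_eq_abs, sq_abs] at this
    rwa [← div_eq_mul_inv]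
  have i2 : Integrable (fun x : ℝ => (w - (starRingEnd ℂ) w) /
      (((x : ℂ) - (starRingEnd ℂ) w) * ((x : ℂ) - w))) := by
    have hcont : Continuous (fun x : ℝ => (w - (starRingEnd ℂ) w) /
      (((x : ℂ) - (starRingEnd ℂ) w) * ((x : ℂ) - w))) :=
      Continuous.div (by fun_prop) (by fun_prop)
        (fun x : ℝ => mul_ne_zero (hne (x : ℂ) (by simp)) (hxw x))
    refine (integrable_inv_one_add_sq.const_mul (‖w - (starRingEnd ℂ) w‖ * K1 * K2)).mono'
      hcont.aestronglyMeasurable
      (Eventually.of_forall fun x => ?_)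
    rw [norm_div, norm_mul, ← div_div]
    have h1 : ‖w - (starRingEnd ℂ) w‖ / ‖(x : ℂ) - (starRingEnd ℂ) w‖ ≤
        ‖w - (starRingEnd ℂ) w‖ * K1 / (1 + ‖(x : ℂ)‖) := by
      have h2 : 0 < ‖(x : ℂ) - (starRingEnd ℂ) w‖ := norm_pos_iff.mpr (hne x (by simp))
      rw [div_le_div_iff₀ h2 (by positivity)]
      calc ‖w - (starRingEnd ℂ) w‖ * (1 + ‖(x : ℂ)‖) ≤
          ‖w - (starRingEnd ℂ) w‖ * (K1 * ‖(x : ℂ) - (starRingEnd ℂ) w‖) :=
            mul_le_mul_of_nonneg_left
              (one_add_norm_le hw (norm_sub_conj_ge (w := w) (by simp))) (norm_nonneg _)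
        _ = _ := by ring
    have := div_bound (norm_nonneg (x : ℂ)) h1 (by positivity) hK2p
      (one_add_norm_le hw (hlw x))
    rw [Complex.norm_real, Real.norm_eq_abs, sq_abs] at this
    rwa [← div_eq_mul_inv]
  have hsplit : ∀ x : ℝ, F x = u x / ((x : ℂ) - w) - u w * ((w - (starRingEnd ℂ) w) /
      (((x : ℂ) - (starRingEnd ℂ) w) * ((x : ℂ) - w))) := by
    intro x
    rw [hFz _ (hxne x), hv]
    simp only
    rw [hA]
    have h1 := hne x (by simp)
    have h2 := hxw x
    field_simp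
  simp_rw [hsplit] at key
  rw [integral_sub i1 (i2.const_mul _), integral_const_mul, poisson_integral hw] at key
  linear_combination key

end Pool.Agent.Weyl
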