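import Pool.Agent.Lib.MP_38bb4c_an.PhiBasic
import Pool.Agent.Lib.MP_38bb4c_an.Bounds

/-!
# MP_38bb4c_an: `Xi z = (1 + s (s - 1) Λ₀ s) / 2`, `s = 1/2 + i z`
-/

open MeasureTheory Complex Filter Topology

namespace Pool.Agent.Weyl

/-- `T n x = e^{x/2} exp(-π (n+1)^2 e^{2x})`. -/
noncomputable def Tn (n : ℕ) (x : ℝ) : ℝ :=
  Real.exp (x / 2) * Real.exp (-Real.pi * ((n : ℝ) + 1) ^ 2 * Real.exp (2 * x))

/-- The derivative of `Tn n`. -/
noncomputable def Tn' (n : ℕ) (x : ℝ) : ℝ :=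
  (1 / 2 - 2 * Real.pi * ((n : ℝ) + 1) ^ 2 * Real.exp (2 * x)) * Tn n x

/-- The sum of the `Tn`. -/
noncomputable def Sn (x : ℝ) : ℝ := ∑' n : ℕ, Tn n x

theorem Tn_hasDerivAt (n : ℕ) (x : ℝ) : HasDerivAt (Tn n) (Tn' n x) x := by
  have h1 : HasDerivAt (fun x : ℝ => Real.exp (x / 2)) (Real.exp (x / 2) * (1 / 2)) x :=
    ((hasDerivAt_id x).div_const 2).exp
  have h2 : HasDerivAt (fun x : ℝ => Real.exp (2 * x)) (Real.exp (2 * x) * (2 * 1)) x :=
    ((hasDerivAt_id x).const_mul 2).exp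
  have h3 := (h2.const_mul (-Real.pi * ((n : ℝ) + 1) ^ 2)).exp
  have h4 := h1.mul h3
  refine h4.congr_deriv ?_
  unfold Tn' Tn
  ring

theorem Tn'_hasDerivAt (n : ℕ) (x : ℝ) : HasDerivAt (Tn' n) (phiT n x + Tn n x / 4) x := by
  have h2 : HasDerivAt (fun x : ℝ => Real.exp (2 * x)) (Real.exp (2 * x) * (2 * 1)) x :=
    ((hasDerivAt_id x).const_mul 2).exp
  have h3 := (h2.const_mul (2 * Real.pi * ((n : ℝ) + 1) ^ 2)).const_sub (1 / 2)
  have h4 := h3.mul (Tn_hasDerivAt n x)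
  refine h4.congr_deriv ?_
  unfold Tn' Tn phiT
  have e1 : Real.exp (9 * x / 2) = Real.exp (x / 2) * Real.exp (2 * x) ^ 2 := by
    rw [← Real.exp_nat_mul, ← Real.exp_add]; push_cast; ring_nf
  have e2 : Real.exp (5 * x / 2) = Real.exp (x / 2) * Real.exp (2 * x) := by
    rw [← Real.exp_add]; ring_nf
  rw [e1, e2]
  ring

theorem Tn_pos (n : ℕ) (x : ℝ) : 0 < Tn n x := by
  unfold Tn; positivity

theorem Tn_le (n : ℕ) {x : ℝ} (hx : 0 ≤ x) :
    Tn n x ≤ (1 / ((n : ℝ) + 1) ^ 2) * Real.exp (-Real.exp (2 * x)) := by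
  have hN : (1 : ℝ) ≤ (n : ℝ) + 1 := by
    have : (0 : ℝ) ≤ n := Nat.cast_nonneg n
    linarith
  set N : ℝ := (n : ℝ) + 1 with hNdef
  have hN2 : 1 ≤ N ^ 2 := by nlinarith
  have hNpos : 0 < N := by linarith
  unfold Tn
  rw [← hNdef]
  have hE' : Real.exp (x / 2) ≤ Real.exp (2 * x) := Real.exp_le_exp.mpr (by linarith)
  set E : ℝ := Real.exp (2 * x) with hE
  have hE1 : 1 ≤ E := Real.one_le_exp (by linarith)
  have hpi := Real.pi_gt_three
  have h1 : Real.exp (-Real.pi * N ^ 2 * E) ≤ Real.exp (-E) * Real.exp (-(N ^ 2 * E)) := by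
    rw [← Real.exp_add]
    apply Real.exp_le_exp.mpr
    have : E ≤ N ^ 2 * E := by nlinarith
    have h3 : 3 * (N ^ 2 * E) ≤ Real.pi * (N ^ 2 * E) := by
      apply mul_le_mul_of_nonneg_right hpi.le
      positivity
    nlinarith
  have h2 : (N ^ 2 * E) * Real.exp (-(N ^ 2 * E)) ≤ 1 := by
    have h3 : N ^ 2 * E ≤ Real.exp (N ^ 2 * E) := by
      linarith [Real.add_one_le_exp (N ^ 2 * E)]
    calc (N ^ 2 * E) * Real.exp (-(N ^ 2 * E))
        ≤ Real.exp (N ^ 2 * E) * Real.exp (-(N ^ 2 * E)) :=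
          mul_le_mul_of_nonneg_right h3 (Real.exp_pos _).le
      _ = 1 := by rw [← Real.exp_add]; simp
  calc Real.exp (x / 2) * Real.exp (-Real.pi * N ^ 2 * E)
      ≤ E * (Real.exp (-E) * Real.exp (-(N ^ 2 * E))) :=
        mul_le_mul hE' h1 (Real.exp_pos _).le (by positivity)
    _ = 1 / N ^ 2 * ((N ^ 2 * E) * Real.exp (-(N ^ 2 * E))) * Real.exp (-E) := by
        field_simp
    _ ≤ 1 / N ^ 2 * 1 * Real.exp (-E) := by
        apply mul_le_mul_of_nonneg_right _ (Real.exp_pos _).le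
        apply mul_le_mul_of_nonneg_left h2 (by positivity)
    _ = 1 / N ^ 2 * Real.exp (-E) := by ring

theorem Tn'_abs_le (n : ℕ) {x : ℝ} (hx : 0 ≤ x) :
    |Tn' n x| ≤ 6 * Real.pi * (1 / ((n : ℝ) + 1) ^ 2) * Real.exp (-Real.exp (2 * x)) := by
  have hN : (1 : ℝ) ≤ (n : ℝ) + 1 := by
    have : (0 : ℝ) ≤ n := Nat.cast_nonneg n
    linarith
  unfold Tn' Tn
  set N : ℝ := (n : ℝ) + 1 with hNdef
  have hN2 : 1 ≤ N ^ 2 := by nlinarith
  have hNpos : 0 < N := by linarith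
  have hE' : Real.exp (x / 2) ≤ Real.exp (2 * x) := Real.exp_le_exp.mpr (by linarith)
  set E : ℝ := Real.exp (2 * x) with hE
  have hE1 : 1 ≤ E := Real.one_le_exp (by linarith)
  have hpi := Real.pi_gt_three
  have hNE : 1 ≤ N ^ 2 * E := by nlinarith
  have h1 : Real.exp (-Real.pi * N ^ 2 * E) ≤ Real.exp (-E) * Real.exp (-(N ^ 2 * E)) := by
    rw [← Real.exp_add]
    apply Real.exp_le_exp.mpr
    have : E ≤ N ^ 2 * E := by nlinarith
    have h3 : 3 * (N ^ 2 * E) ≤ Real.pi * (N ^ 2 * E) := by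
      apply mul_le_mul_of_nonneg_right hpi.le
      positivity
    nlinarith
  have h2 : (N ^ 2 * E) ^ 2 * Real.exp (-(N ^ 2 * E)) ≤ 2 := by
    have hpos : 0 ≤ N ^ 2 * E := by positivity
    have h3 := Real.quadratic_le_exp_of_nonneg hpos
    have h4 : (N ^ 2 * E) ^ 2 ≤ 2 * Real.exp (N ^ 2 * E) := by nlinarith
    calc (N ^ 2 * E) ^ 2 * Real.exp (-(N ^ 2 * E))
        ≤ 2 * Real.exp (N ^ 2 * E) * Real.exp (-(N ^ 2 * E)) :=
          mul_le_mul_of_nonneg_right h4 (Real.exp_pos _).le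
      _ = 2 := by rw [mul_assoc, ← Real.exp_add]; simp
  rw [abs_mul, abs_of_pos (by positivity : 0 < Real.exp (x / 2) *
    Real.exp (-Real.pi * N ^ 2 * E))]
  have h5 : |1 / 2 - 2 * Real.pi * N ^ 2 * E| ≤ 3 * Real.pi * (N ^ 2 * E) := by
    rw [abs_le]
    constructor <;> nlinarith [mul_le_mul hpi.le hNE (by norm_num) (by linarith)]
  calc |1 / 2 - 2 * Real.pi * N ^ 2 * E| * (Real.exp (x / 2) * Real.exp (-Real.pi * N ^ 2 * E))
      ≤ 3 * Real.pi * (N ^ 2 * E) * (E * (Real.exp (-E) * Real.exp (-(N ^ 2 * E)))) := by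
        apply mul_le_mul h5 _ (by positivity) (by positivity)
        exact mul_le_mul hE' h1 (Real.exp_pos _).le (by positivity)
    _ = 3 * Real.pi * (1 / N ^ 2 * ((N ^ 2 * E) ^ 2 * Real.exp (-(N ^ 2 * E)))) *
          Real.exp (-E) := by
        field_simp
    _ ≤ 3 * Real.pi * (1 / N ^ 2 * 2) * Real.exp (-E) := by
        apply mul_le_mul_of_nonneg_right _ (Real.exp_pos _).le
        apply mul_le_mul_of_nonneg_left _ (by positivity)
        apply mul_le_mul_of_nonneg_left h2 (by positivity)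
    _ = 6 * Real.pi * (1 / N ^ 2) * Real.exp (-E) := by ring

theorem Tn'_abs_le' (n : ℕ) {x : ℝ} (hx : |x| ≤ 1) :
    |Tn' n x| ≤ 7 * Real.exp (1 / 2) * Real.exp 2 * (1 / ((n : ℝ) + 1) ^ 2) := by
  have hN : (1 : ℝ) ≤ (n : ℝ) + 1 := by
    have : (0 : ℝ) ≤ n := Nat.cast_nonneg n
    linarith
  obtain ⟨hx1, hx2⟩ := abs_le.mp hx
  unfold Tn' Tn
  set N : ℝ := (n : ℝ) + 1 with hNdef
  have hNpos : 0 < N := by linarith
  have hE' : Real.exp (x / 2) ≤ Real.exp (1 / 2) := Real.exp_le_exp.mpr (by linarith)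
  have hE2 : 1 ≤ Real.exp 2 * Real.exp (2 * x) := by
    rw [← Real.exp_add]
    exact Real.one_le_exp (by linarith)
  set E : ℝ := Real.exp (2 * x) with hE
  have hEpos : 0 < E := Real.exp_pos _
  have hpi := Real.pi_gt_three
  have hpi4 := Real.pi_lt_d2
  have hNE : 0 < N ^ 2 * E := by positivity
  have h1 : Real.exp (-Real.pi * N ^ 2 * E) ≤ Real.exp (-(3 * (N ^ 2 * E))) := by
    apply Real.exp_le_exp.mpr
    have h3 : 3 * (N ^ 2 * E) ≤ Real.pi * (N ^ 2 * E) := by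
      apply mul_le_mul_of_nonneg_right hpi.le
      positivity
    nlinarith
  have h2 : (1 + N ^ 2 * E) ^ 2 * Real.exp (-(2 * (N ^ 2 * E))) ≤ 1 := by
    have h3 : 1 + N ^ 2 * E ≤ Real.exp (N ^ 2 * E) := by
      linarith [Real.add_one_le_exp (N ^ 2 * E)]
    calc (1 + N ^ 2 * E) ^ 2 * Real.exp (-(2 * (N ^ 2 * E)))
        ≤ Real.exp (N ^ 2 * E) ^ 2 * Real.exp (-(2 * (N ^ 2 * E))) := by
          apply mul_le_mul_of_nonneg_right _ (Real.exp_pos _).le
          exact pow_le_pow_left₀ (by positivity) h3 2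
      _ = 1 := by rw [← Real.exp_nat_mul, ← Real.exp_add]; simp
  have h2' : Real.exp (-(3 * (N ^ 2 * E))) ≤ Real.exp (-(2 * (N ^ 2 * E))) :=
    Real.exp_le_exp.mpr (by nlinarith)
  rw [abs_mul, abs_of_pos (by positivity : 0 < Real.exp (x / 2) *
    Real.exp (-Real.pi * N ^ 2 * E))]
  have h5 : |1 / 2 - 2 * Real.pi * N ^ 2 * E| ≤ 7 * (1 + N ^ 2 * E) := by
    rw [abs_le]
    have h6 : Real.pi * (N ^ 2 * E) ≤ 3.15 * (N ^ 2 * E) :=
      mul_le_mul_of_nonneg_right hpi4.le hNE.le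
    have h7 : 0 ≤ Real.pi * (N ^ 2 * E) := by positivity
    constructor <;> nlinarith
  have h8 : (1 + N ^ 2 * E) * Real.exp (-(2 * (N ^ 2 * E))) ≤ 1 / (N ^ 2 * E) := by
    rw [le_div_iff₀ hNE]
    calc (1 + N ^ 2 * E) * Real.exp (-(2 * (N ^ 2 * E))) * (N ^ 2 * E)
        ≤ (1 + N ^ 2 * E) * Real.exp (-(2 * (N ^ 2 * E))) * (1 + N ^ 2 * E) := by
          apply mul_le_mul_of_nonneg_left (by linarith) (by positivity)
      _ = (1 + N ^ 2 * E) ^ 2 * Real.exp (-(2 * (N ^ 2 * E))) := by ring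
      _ ≤ 1 := h2
  have h9 : 1 / (N ^ 2 * E) ≤ Real.exp 2 * (1 / N ^ 2) := by
    rw [div_le_iff₀ hNE]
    calc (1 : ℝ) ≤ Real.exp 2 * E := hE2
      _ = Real.exp 2 * (1 / N ^ 2) * (N ^ 2 * E) := by field_simp
  calc |1 / 2 - 2 * Real.pi * N ^ 2 * E| * (Real.exp (x / 2) * Real.exp (-Real.pi * N ^ 2 * E))
      ≤ 7 * (1 + N ^ 2 * E) * (Real.exp (1 / 2) * Real.exp (-(2 * (N ^ 2 * E)))) := by
        apply mul_le_mul h5 _ (by positivity) (by positivity)
        exact mul_le_mul hE' (h1.trans h2') (Real.exp_pos _).le (by positivity)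
    _ = 7 * Real.exp (1 / 2) * ((1 + N ^ 2 * E) * Real.exp (-(2 * (N ^ 2 * E)))) := by ring
    _ ≤ 7 * Real.exp (1 / 2) * (1 / (N ^ 2 * E)) := by
        apply mul_le_mul_of_nonneg_left h8 (by positivity)
    _ ≤ 7 * Real.exp (1 / 2) * (Real.exp 2 * (1 / N ^ 2)) := by
        apply mul_le_mul_of_nonneg_left h9 (by positivity)
    _ = 7 * Real.exp (1 / 2) * Real.exp 2 * (1 / N ^ 2) := by ring

/-! ## The value of the series of derivatives at `0` -/

theorem hasSum_Tn (x : ℝ) :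
    HasSum (fun n => Tn n x)
      (Real.exp (x / 2) * ((HurwitzZeta.cosKernel 0 (Real.exp (2 * x)) - 1) / 2)) := by
  have h := HurwitzZeta.hasSum_nat_cosKernel₀ 0 (Real.exp_pos (2 * x))
  have h2 := (h.mul_left (Real.exp (x / 2) / 2))
  have e : Real.exp (x / 2) * ((HurwitzZeta.cosKernel 0 (Real.exp (2 * x)) - 1) / 2)
      = Real.exp (x / 2) / 2 * (HurwitzZeta.cosKernel ((0 : ℝ) : UnitAddCircle)
        (Real.exp (2 * x)) - 1) := by
    simp only [QuotientAddGroup.mk_zero]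
    ring
  rw [e]
  refine h2.congr_fun (fun n => ?_)
  unfold Tn
  simp
  ring

theorem Sn_eq (x : ℝ) :
    Sn x = Real.exp (x / 2) * ((HurwitzZeta.cosKernel 0 (Real.exp (2 * x)) - 1) / 2) :=
  (hasSum_Tn x).tsum_eq

theorem cosKernel_eq (x : ℝ) :
    HurwitzZeta.cosKernel 0 (Real.exp (2 * x)) = 1 + 2 * Real.exp (-(x / 2)) * Sn x := by
  rw [Sn_eq]
  have : Real.exp (-(x / 2)) * Real.exp (x / 2) = 1 := by
    rw [← Real.exp_add]; simp
  linear_combination (-(HurwitzZeta.cosKernel 0 (Real.exp (2 * x)) - 1)) * this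

theorem cosKernel_fe (x : ℝ) :
    HurwitzZeta.cosKernel 0 (Real.exp (2 * x)) =
      Real.exp (-x) * HurwitzZeta.cosKernel 0 (Real.exp (2 * (-x))) := by
  have h := HurwitzZeta.evenKernel_functional_equation 0 (Real.exp (2 * x))
  rw [HurwitzZeta.evenKernel_eq_cosKernel_of_zero] at h
  rw [h]
  have h1 : Real.exp (2 * x) ^ (1 / 2 : ℝ) = Real.exp x := by
    rw [← Real.exp_mul]; ring_nf
  have h2 : 1 / Real.exp (2 * x) = Real.exp (2 * (-x)) := by
    rw [one_div, ← Real.exp_neg]; ring_nf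
  rw [h1, h2, one_div, ← Real.exp_neg]

theorem Sn_fe (x : ℝ) : Sn (-x) - Sn x = (Real.exp (x / 2) - Real.exp (-(x / 2))) / 2 := by
  have h := cosKernel_fe x
  rw [cosKernel_eq x, cosKernel_eq (-x)] at h
  have e1 : Real.exp (-(-x / 2)) = Real.exp (x / 2) := by ring_nf
  rw [e1] at h
  have e2 : Real.exp (x / 2) * Real.exp (-(x / 2)) = 1 := by
    rw [← Real.exp_add]; simp
  have e3 : Real.exp (x / 2) * Real.exp (-x) = Real.exp (-(x / 2)) := by
    rw [← Real.exp_add]; ring_nf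
  have e4 : Real.exp (x / 2) * Real.exp (-(x / 2)) * Sn x = Sn x := by rw [e2, one_mul]
  have e5 : Real.exp (x / 2) * Real.exp (-x) * (2 * Real.exp (x / 2) * Sn (-x)) =
      2 * Sn (-x) := by
    rw [e3]
    linear_combination (2 * Sn (-x)) * e2
  linear_combination (-1 / 2 * Real.exp (x / 2)) * h + e4 - (1 / 2 : ℝ) * e5 - (1 / 2 : ℝ) * e3

theorem Sn_hasDerivAt : HasDerivAt Sn (∑' n : ℕ, Tn' n 0) 0 := by
  refine hasDerivAt_tsum_of_isPreconnected
    (u := fun n : ℕ => 7 * Real.exp (1 / 2) * Real.exp 2 * (1 / ((n : ℝ) + 1) ^ 2))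
    (summable_inv_sq.mul_left _) (isOpen_Ioo (a := (-1 : ℝ)) (b := 1))
    (isPreconnected_Ioo) (fun n y _ => Tn_hasDerivAt n y) (fun n y hy => ?_)
    (y₀ := 0) (by simp) (hasSum_Tn 0).summable (by simp)
  rw [Real.norm_eq_abs]
  exact Tn'_abs_le' n (abs_le.mpr ⟨hy.1.le, hy.2.le⟩)

theorem tsum_Tn'_zero : ∑' n : ℕ, Tn' n 0 = -(1 / 4) := by
  have h1 := Sn_hasDerivAt
  have h2 : HasDerivAt (fun x : ℝ => Sn (-x)) (-(∑' n : ℕ, Tn' n 0)) 0 := by
    have h3 : HasDerivAt (fun x : ℝ => -x) (-1) 0 := hasDerivAt_neg 0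
    have h4 : HasDerivAt Sn (∑' n : ℕ, Tn' n 0) (-(0 : ℝ)) := by simpa using h1
    have h5 := h4.comp (0 : ℝ) h3
    simpa [Function.comp_def] using h5
  have h3 := h2.sub h1
  have h4 : HasDerivAt (fun x : ℝ => (Real.exp (x / 2) - Real.exp (-(x / 2))) / 2)
      ((Real.exp (0 / 2) * (1 / 2) - Real.exp (-(0 / 2)) * (-(1 / 2))) / 2) 0 := by
    have a1 : HasDerivAt (fun x : ℝ => Real.exp (x / 2)) (Real.exp (0 / 2) * (1 / 2)) 0 :=
      ((hasDerivAt_id (0 : ℝ)).div_const 2).exp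
    have a2 : HasDerivAt (fun x : ℝ => Real.exp (-(x / 2)))
        (Real.exp (-(0 / 2)) * (-(1 / 2))) 0 :=
      ((hasDerivAt_id (0 : ℝ)).div_const 2).neg.exp
    exact (a1.sub a2).div_const 2
  have h5 : (fun x : ℝ => Sn (-x)) - Sn = fun x : ℝ =>
      (Real.exp (x / 2) - Real.exp (-(x / 2))) / 2 := by
    funext x
    exact Sn_fe x
  rw [h5] at h3
  have h6 := h3.unique h4
  simp at h6
  linarith

/-! ## Integrals over the half line -/

theorem W_bound (a : ℝ) {t : ℝ} (ht : 0 ≤ t) :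
    Real.exp (-Real.exp (2 * t)) * Real.exp (a * t) ≤
      Real.exp ((a + 1) ^ 2 / 8) * (2 * (1 + t ^ 2)⁻¹) := by
  have h1 : Real.exp (-Real.exp (2 * t)) * Real.exp (a * t) ≤
      Real.exp ((a + 1) ^ 2 / 8) * Real.exp (-t) := by
    rw [← Real.exp_add, ← Real.exp_add]
    apply Real.exp_le_exp.mpr
    have h1 := Real.quadratic_le_exp_of_nonneg (x := 2 * t) (by positivity)
    nlinarith [sq_nonneg (a + 1 - 4 * t)]
  refine h1.trans ?_
  apply mul_le_mul_of_nonneg_left _ (Real.exp_pos _).le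
  rw [Real.exp_neg, ← div_eq_mul_inv, inv_eq_one_div, div_le_div_iff₀ (Real.exp_pos _)
    (by positivity)]
  have h1 := Real.quadratic_le_exp_of_nonneg ht
  nlinarith

theorem W_int (a : ℝ) :
    IntegrableOn (fun t : ℝ => Real.exp (-Real.exp (2 * t)) * Real.exp (a * t)) (Set.Ioi 0) := by
  have hI : IntegrableOn (fun x : ℝ => Real.exp ((a + 1) ^ 2 / 8) * (2 * (1 + x ^ 2)⁻¹))
      (Set.Ioi 0) :=
    ((integrable_inv_one_add_sq.const_mul 2).const_mul _).integrableOn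
  refine hI.mono' (by fun_prop) ?_
  filter_upwards [ae_restrict_mem measurableSet_Ioi] with t ht
  rw [Real.norm_eq_abs, abs_of_pos (by positivity)]
  exact W_bound a (le_of_lt ht)

theorem W_tend (a : ℝ) :
    Tendsto (fun t : ℝ => Real.exp (-Real.exp (2 * t)) * Real.exp (a * t)) atTop (𝓝 0) := by
  have h1 : Tendsto (fun t : ℝ => Real.exp ((a + 1) ^ 2 / 8) * (2 * (1 + t ^ 2)⁻¹)) atTop
      (𝓝 (Real.exp ((a + 1) ^ 2 / 8) * (2 * 0))) := by
    refine (Tendsto.const_mul _ (Tendsto.const_mul _ ?_))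
    refine tendsto_inv_atTop_zero.comp ?_
    exact tendsto_atTop_add_const_left _ _ (tendsto_pow_atTop (by norm_num))
  rw [mul_zero, mul_zero] at h1
  refine squeeze_zero' (Eventually.of_forall fun t => by positivity) ?_ h1
  filter_upwards [eventually_ge_atTop 0] with t ht
  exact W_bound a ht

theorem norm_cos_le' (w : ℂ) : ‖Complex.cos w‖ ≤ Real.exp ‖w‖ := by
  unfold Complex.cos
  rw [norm_div, Complex.norm_ofNat]
  have h1 : ‖cexp (w * I)‖ ≤ Real.exp ‖w‖ := by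
    rw [Complex.norm_exp]
    apply Real.exp_le_exp.mpr
    refine (Complex.re_le_norm _).trans ?_
    simp
  have h2 : ‖cexp (-w * I)‖ ≤ Real.exp ‖w‖ := by
    rw [Complex.norm_exp]
    apply Real.exp_le_exp.mpr
    refine (Complex.re_le_norm _).trans ?_
    simp
  have h3 := norm_add_le (cexp (w * I)) (cexp (-w * I))
  linarith

theorem norm_sin_le' (w : ℂ) : ‖Complex.sin w‖ ≤ Real.exp ‖w‖ := by
  unfold Complex.sin
  rw [norm_div, Complex.norm_ofNat, norm_mul, Complex.norm_I, mul_one]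
  have h1 : ‖cexp (w * I)‖ ≤ Real.exp ‖w‖ := by
    rw [Complex.norm_exp]
    apply Real.exp_le_exp.mpr
    refine (Complex.re_le_norm _).trans ?_
    simp
  have h2 : ‖cexp (-w * I)‖ ≤ Real.exp ‖w‖ := by
    rw [Complex.norm_exp]
    apply Real.exp_le_exp.mpr
    refine (Complex.re_le_norm _).trans ?_
    simp
  have h3 := norm_sub_le (cexp (-w * I)) (cexp (w * I))
  linarith

theorem norm_cos_mul_le (z : ℂ) {t : ℝ} (ht : 0 ≤ t) :
    ‖Complex.cos (z * t)‖ ≤ Real.exp (‖z‖ * t) := by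
  refine (norm_cos_le' _).trans (le_of_eq ?_)
  rw [norm_mul, Complex.norm_real, Real.norm_eq_abs, abs_of_nonneg ht]

theorem norm_sin_mul_le (z : ℂ) {t : ℝ} (ht : 0 ≤ t) :
    ‖Complex.sin (z * t)‖ ≤ Real.exp (‖z‖ * t) := by
  refine (norm_sin_le' _).trans (le_of_eq ?_)
  rw [norm_mul, Complex.norm_real, Real.norm_eq_abs, abs_of_nonneg ht]

theorem norm_mul_cos_le (f : ℝ → ℝ) {C : ℝ}
    (h : ∀ t, 0 ≤ t → |f t| ≤ C * Real.exp (-Real.exp (2 * t))) (z : ℂ) {t : ℝ} (ht : 0 ≤ t) :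
    ‖(f t : ℂ) * Complex.cos (z * t)‖ ≤
      C * (Real.exp (-Real.exp (2 * t)) * Real.exp (‖z‖ * t)) := by
  rw [norm_mul, Complex.norm_real, Real.norm_eq_abs, ← mul_assoc]
  exact mul_le_mul (h t ht) (norm_cos_mul_le z ht) (norm_nonneg _)
    ((abs_nonneg _).trans (h t ht))

theorem norm_mul_sin_le (f : ℝ → ℝ) {C : ℝ}
    (h : ∀ t, 0 ≤ t → |f t| ≤ C * Real.exp (-Real.exp (2 * t))) (z : ℂ) {t : ℝ} (ht : 0 ≤ t) :
    ‖(f t : ℂ) * Complex.sin (z * t)‖ ≤
      C * (Real.exp (-Real.exp (2 * t)) * Real.exp (‖z‖ * t)) := by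
  rw [norm_mul, Complex.norm_real, Real.norm_eq_abs, ← mul_assoc]
  exact mul_le_mul (h t ht) (norm_sin_mul_le z ht) (norm_nonneg _)
    ((abs_nonneg _).trans (h t ht))

theorem integrableOn_mul_cos (f : ℝ → ℝ) (hf : Continuous f) {C : ℝ}
    (h : ∀ t, 0 ≤ t → |f t| ≤ C * Real.exp (-Real.exp (2 * t))) (z : ℂ) :
    IntegrableOn (fun t : ℝ => (f t : ℂ) * Complex.cos (z * t)) (Set.Ioi 0) := by
  refine ((W_int ‖z‖).const_mul C).mono' ?_ ?_
  · exact ((Complex.continuous_ofReal.comp hf).mul (by fun_prop)).aestronglyMeasurable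
  · filter_upwards [ae_restrict_mem measurableSet_Ioi] with t ht
    exact norm_mul_cos_le f h z (le_of_lt ht)

theorem hasSum_integral_mul_cos (f : ℕ → ℝ → ℝ) (hf : ∀ n, Continuous (f n)) {C : ℝ}
    (h : ∀ n : ℕ, ∀ t, 0 ≤ t →
      |f n t| ≤ C * (1 / ((n : ℝ) + 1) ^ 2) * Real.exp (-Real.exp (2 * t))) (z : ℂ) :
    HasSum (fun n => ∫ t in Set.Ioi (0 : ℝ), (f n t : ℂ) * Complex.cos (z * t))
      (∫ t in Set.Ioi (0 : ℝ), ((∑' n, f n t : ℝ) : ℂ) * Complex.cos (z * t)) := by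
  have hint : ∀ n, IntegrableOn (fun t : ℝ => (f n t : ℂ) * Complex.cos (z * t)) (Set.Ioi 0) :=
    fun n => integrableOn_mul_cos (f n) (hf n) (h n) z
  have hsum : Summable fun n => ∫ t in Set.Ioi (0 : ℝ), ‖(f n t : ℂ) * Complex.cos (z * t)‖ := by
    set M := ∫ t in Set.Ioi (0 : ℝ), Real.exp (-Real.exp (2 * t)) * Real.exp (‖z‖ * t) with hM
    refine Summable.of_nonneg_of_le (fun n => integral_nonneg (fun _ => norm_nonneg _))
      (fun n => ?_) ((summable_inv_sq.mul_left C).mul_right M)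
    rw [hM, ← integral_const_mul]
    refine setIntegral_mono_on (hint n).norm ((W_int ‖z‖).const_mul _) measurableSet_Ioi
      (fun t ht => ?_)
    exact norm_mul_cos_le (f n) (h n) z (le_of_lt ht)
  have := hasSum_integral_of_summable_integral_norm (μ := volume.restrict (Set.Ioi (0 : ℝ)))
    (F := fun (n : ℕ) (t : ℝ) => (f n t : ℂ) * Complex.cos (z * t)) hint hsum
  have e : ∫ t in Set.Ioi (0 : ℝ), ((∑' n, f n t : ℝ) : ℂ) * Complex.cos (z * t) =
      ∫ t in Set.Ioi (0 : ℝ), ∑' n, (f n t : ℂ) * Complex.cos (z * t) := by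
    refine integral_congr_ae (Eventually.of_forall (fun t => ?_))
    beta_reduce
    rw [tsum_mul_right, Complex.ofReal_tsum]
  rw [e]
  exact this

theorem continuous_Tn (n : ℕ) : Continuous (Tn n) := by
  unfold Tn; fun_prop

theorem term_integral (n : ℕ) (z : ℂ) :
    ∫ t in Set.Ioi (0 : ℝ), (phiT n t : ℂ) * Complex.cos (z * t) =
      -(Tn' n 0 : ℂ) - (z ^ 2 + 1 / 4) *
        ∫ t in Set.Ioi (0 : ℝ), (Tn n t : ℂ) * Complex.cos (z * t) := by
  have hT : ∀ t, 0 ≤ t → |Tn n t| ≤ (1 / ((n : ℝ) + 1) ^ 2) * Real.exp (-Real.exp (2 * t)) := by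
    intro t ht
    rw [abs_of_pos (Tn_pos n t)]
    exact Tn_le n ht
  have hP : ∀ t, 0 ≤ t → |phiT n t| ≤
      24 * Real.pi ^ 2 * (1 / ((n : ℝ) + 1) ^ 2) * Real.exp (-Real.exp (2 * t)) :=
    fun t ht => norm_phiT_le n ht
  have iT := integrableOn_mul_cos (Tn n) (continuous_Tn n) hT z
  have iP := integrableOn_mul_cos (phiT n) (continuous_phiT n) hP z
  have hG : ∀ t ∈ Set.Ici (0 : ℝ), HasDerivAt
      (fun t : ℝ => (Tn' n t : ℂ) * Complex.cos (z * t) + z * (Tn n t * Complex.sin (z * t)))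
      ((phiT n t : ℂ) * Complex.cos (z * t) +
        (z ^ 2 + 1 / 4) * ((Tn n t : ℂ) * Complex.cos (z * t))) t := by
    intro t _
    have hc : HasDerivAt (fun t : ℝ => Complex.cos (z * t)) (-Complex.sin (z * t) * z) t := by
      have h1 : HasDerivAt (fun t : ℝ => z * (t : ℂ)) (z * 1) t :=
        (Complex.ofRealCLM.hasDerivAt (x := t)).const_mul z
      simpa [Function.comp_def] using (Complex.hasDerivAt_cos (z * t)).comp t h1
    have hs : HasDerivAt (fun t : ℝ => Complex.sin (z * t)) (Complex.cos (z * t) * z) t := by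
      have h1 : HasDerivAt (fun t : ℝ => z * (t : ℂ)) (z * 1) t :=
        (Complex.ofRealCLM.hasDerivAt (x := t)).const_mul z
      simpa [Function.comp_def] using (Complex.hasDerivAt_sin (z * t)).comp t h1
    have h1 := (Tn'_hasDerivAt n t).ofReal_comp
    have h2 := (Tn_hasDerivAt n t).ofReal_comp
    refine ((h1.mul hc).add ((h2.mul hs).const_mul z)).congr_deriv ?_
    push_cast
    ring
  have hlim : Tendsto (fun t : ℝ => (Tn' n t : ℂ) * Complex.cos (z * t) +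
      z * (Tn n t * Complex.sin (z * t))) atTop (𝓝 0) := by
    have hW := (W_tend ‖z‖)
    have l1 : Tendsto (fun t : ℝ => (Tn' n t : ℂ) * Complex.cos (z * t)) atTop (𝓝 0) := by
      have hb := hW.const_mul (6 * Real.pi * (1 / ((n : ℝ) + 1) ^ 2))
      rw [mul_zero] at hb
      refine squeeze_zero_norm' ?_ hb
      filter_upwards [eventually_ge_atTop 0] with t ht
      exact norm_mul_cos_le (Tn' n) (fun t ht => Tn'_abs_le n ht) z ht
    have l2 : Tendsto (fun t : ℝ => (Tn n t : ℂ) * Complex.sin (z * t)) atTop (𝓝 0) := by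
      have hb := hW.const_mul (1 / ((n : ℝ) + 1) ^ 2)
      rw [mul_zero] at hb
      refine squeeze_zero_norm' ?_ hb
      filter_upwards [eventually_ge_atTop 0] with t ht
      exact norm_mul_sin_le (Tn n) hT z ht
    have := l1.add (l2.const_mul z)
    simpa using this
  have key := integral_Ioi_of_hasDerivAt_of_tendsto' hG (iP.add (iT.const_mul _)) hlim
  rw [integral_add iP (iT.const_mul _), integral_const_mul] at key
  simp only [Complex.ofReal_zero, mul_zero, Complex.cos_zero, Complex.sin_zero, mul_one,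
    add_zero] at key
  linear_combination key

theorem Phi_of_nonneg {t : ℝ} (ht : 0 ≤ t) : Phi t = ∑' n, phiT n t := by
  rw [Phi_eq, abs_of_nonneg ht]

theorem integral_Phi_cos (z : ℂ) :
    ∫ t in Set.Ioi (0 : ℝ), (Phi t : ℂ) * Complex.cos (z * t) =
      1 / 4 - (z ^ 2 + 1 / 4) *
        ∫ t in Set.Ioi (0 : ℝ), (Sn t : ℂ) * Complex.cos (z * t) := by
  have h1 := hasSum_integral_mul_cos phiT continuous_phiT (C := 24 * Real.pi ^ 2)
    (fun n t ht => norm_phiT_le n ht) z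
  have h2 := hasSum_integral_mul_cos Tn continuous_Tn (C := 1)
    (fun n t ht => by
      rw [abs_of_pos (Tn_pos n t), one_mul]
      exact Tn_le n ht) z
  have h3 : Summable (fun n => Tn' n 0) := by
    refine Summable.of_norm_bounded (g := fun n : ℕ => 6 * Real.pi *
      (1 / ((n : ℝ) + 1) ^ 2) * Real.exp (-Real.exp (2 * 0)))
      ((summable_inv_sq.mul_left _).mul_right _) (fun n => Tn'_abs_le n le_rfl)
  have h4 : HasSum (fun n => (Tn' n 0 : ℂ)) (((-(1 / 4) : ℝ)) : ℂ) := by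
    rw [Complex.hasSum_ofReal, ← tsum_Tn'_zero]
    exact h3.hasSum
  have h5 := h4.neg.sub (h2.mul_left (z ^ 2 + 1 / 4))
  have h6 : (fun n => ∫ t in Set.Ioi (0 : ℝ), (phiT n t : ℂ) * Complex.cos (z * t)) =
      fun n => -(Tn' n 0 : ℂ) - (z ^ 2 + 1 / 4) *
        ∫ t in Set.Ioi (0 : ℝ), (Tn n t : ℂ) * Complex.cos (z * t) := by
    funext n
    exact term_integral n z
  rw [h6] at h1
  have h7 := h1.unique h5
  have h8 : ∫ t in Set.Ioi (0 : ℝ), (Phi t : ℂ) * Complex.cos (z * t) =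
      ∫ t in Set.Ioi (0 : ℝ), ((∑' n, phiT n t : ℝ) : ℂ) * Complex.cos (z * t) := by
    refine setIntegral_congr_fun measurableSet_Ioi (fun t ht => ?_)
    rw [Phi_of_nonneg (le_of_lt ht)]
  rw [h8, h7]
  unfold Sn
  push_cast
  ring

theorem even_fourier (f : ℝ → ℂ) (hf : ∀ t, f (-t) = f t) (z : ℂ)
    (hI : Integrable (fun t : ℝ => f t * cexp (I * z * t))) :
    ∫ t : ℝ, f t * cexp (I * z * t) = 2 * ∫ t in Set.Ioi (0 : ℝ), f t * Complex.cos (z * t) := by
  rw [← intervalIntegral.integral_Iic_add_Ioi (b := (0 : ℝ)) hI.integrableOn hI.integrableOn]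
  have h1 := integral_comp_neg_Ioi (0 : ℝ) (fun t : ℝ => f t * cexp (I * z * t))
  rw [neg_zero] at h1
  rw [← h1, ← integral_add hI.comp_neg.integrableOn hI.integrableOn, ← integral_const_mul]
  refine integral_congr_ae (Eventually.of_forall (fun t => ?_))
  simp only [hf]
  rw [Complex.cos]
  have e1 : I * z * ((-t : ℝ) : ℂ) = -(z * t) * I := by push_cast; ring
  have e2 : I * z * (t : ℂ) = z * t * I := by ring
  rw [e1, e2]
  ring

theorem Sn_abs_integrable (z : ℂ) :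
    Integrable (fun t : ℝ => (Sn |t| : ℂ) * cexp (I * z * t)) := by
  have hb : ∀ t : ℝ, 0 ≤ t → Sn t ≤ (∑' n : ℕ, 1 / ((n : ℝ) + 1) ^ 2) *
      Real.exp (-Real.exp (2 * t)) := by
    intro t ht
    unfold Sn
    rw [← tsum_mul_right]
    exact (hasSum_Tn t).summable.tsum_le_tsum (fun n => Tn_le n ht)
      (summable_inv_sq.mul_right _)
  have hcont : Continuous (fun t : ℝ => Sn |t|) := by
    have h1 : (fun t : ℝ => Sn |t|) = fun t : ℝ => ∑' n : ℕ, Tn n |t| := rfl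
    rw [h1]
    refine continuous_tsum (u := fun n : ℕ => (1 / ((n : ℝ) + 1) ^ 2))
      (fun n => (continuous_Tn n).comp continuous_abs) summable_inv_sq (fun n x => ?_)
    rw [Real.norm_eq_abs, abs_of_pos (Tn_pos n _)]
    refine (Tn_le n (abs_nonneg x)).trans ?_
    apply mul_le_of_le_one_right (by positivity)
    apply Real.exp_le_one_iff.mpr
    linarith [Real.exp_pos (2 * |x|)]
  set M := ∑' n : ℕ, 1 / ((n : ℝ) + 1) ^ 2 with hM
  have hM0 : 0 ≤ M := tsum_nonneg (fun n => by positivity)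
  refine ((integrable_inv_one_add_sq.const_mul 2).const_mul
    (M * Real.exp ((‖z‖ + 1) ^ 2 / 8))).mono' ?_ ?_
  · exact ((Complex.continuous_ofReal.comp hcont).mul (by fun_prop)).aestronglyMeasurable
  · refine Eventually.of_forall (fun t => ?_)
    have hS0 : 0 ≤ Sn |t| := tsum_nonneg (fun n => (Tn_pos n _).le)
    rw [norm_mul, Complex.norm_real, Real.norm_eq_abs, abs_of_nonneg hS0]
    have h1 : ‖cexp (I * z * t)‖ ≤ Real.exp (‖z‖ * |t|) := by
      rw [Complex.norm_exp]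
      apply Real.exp_le_exp.mpr
      refine (Complex.re_le_norm _).trans ?_
      simp
    calc Sn |t| * ‖cexp (I * z * t)‖
        ≤ (M * Real.exp (-Real.exp (2 * |t|))) * Real.exp (‖z‖ * |t|) :=
          mul_le_mul (hb _ (abs_nonneg t)) h1 (norm_nonneg _) (by positivity)
      _ = M * (Real.exp (-Real.exp (2 * |t|)) * Real.exp (‖z‖ * |t|)) := by ring
      _ ≤ M * (Real.exp ((‖z‖ + 1) ^ 2 / 8) * (2 * (1 + |t| ^ 2)⁻¹)) :=
          mul_le_mul_of_nonneg_left (W_bound _ (abs_nonneg t)) hM0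
      _ = M * Real.exp ((‖z‖ + 1) ^ 2 / 8) * (2 * (1 + t ^ 2)⁻¹) := by rw [sq_abs]; ring

theorem Lambda0_eq (z : ℂ) :
    completedRiemannZeta₀ (1 / 2 + I * z) =
      4 * ∫ t in Set.Ioi (0 : ℝ), (Sn t : ℂ) * Complex.cos (z * t) := by
  have h0 : 4 * ∫ t in Set.Ioi (0 : ℝ), (Sn t : ℂ) * Complex.cos (z * t) =
      2 * ∫ t : ℝ, (Sn |t| : ℂ) * cexp (I * z * t) := by
    rw [even_fourier (fun t => (Sn |t| : ℂ)) (fun t => by rw [abs_neg]) z (Sn_abs_integrable z)]
    have : ∫ t in Set.Ioi (0 : ℝ), (Sn |t| : ℂ) * Complex.cos (z * t) =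
        ∫ t in Set.Ioi (0 : ℝ), (Sn t : ℂ) * Complex.cos (z * t) := by
      refine setIntegral_congr_fun measurableSet_Ioi (fun t ht => ?_)
      rw [abs_of_pos ht]
    rw [this]
    ring
  rw [h0]
  unfold completedRiemannZeta₀ HurwitzZeta.completedHurwitzZetaEven₀ WeakFEPair.Λ₀ mellin
  have himg : (fun x : ℝ => Real.exp (2 * x)) '' Set.univ = Set.Ioi 0 := by
    ext y
    constructor
    · rintro ⟨x, -, rfl⟩
      exact Real.exp_pos _
    · intro hy
      refine ⟨Real.log y / 2, trivial, ?_⟩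
      beta_reduce
      rw [mul_div_cancel₀ _ (two_ne_zero), Real.exp_log hy]
  have hder : ∀ x ∈ (Set.univ : Set ℝ), HasDerivWithinAt (fun x : ℝ => Real.exp (2 * x))
      (Real.exp (2 * x) * (2 * 1)) Set.univ x := by
    intro x _
    exact (((hasDerivAt_id x).const_mul 2).exp).hasDerivWithinAt
  have hinj : Set.InjOn (fun x : ℝ => Real.exp (2 * x)) Set.univ := by
    intro x _ y _ h
    have := Real.exp_injective h
    linarith
  have hcv := integral_image_eq_integral_abs_deriv_smul MeasurableSet.univ hder hinj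
    (fun t : ℝ => (t : ℂ) ^ ((1 / 2 + I * z) / 2 - 1) • (HurwitzZeta.hurwitzEvenFEPair 0).f_modif t)
  rw [himg] at hcv
  rw [hcv, setIntegral_univ]
  have hae : ∀ᵐ x : ℝ, x ≠ 0 := by
    simp [ae_iff]
  have h2 : ∫ x : ℝ, |Real.exp (2 * x) * (2 * 1)| •
      (((Real.exp (2 * x) : ℝ) : ℂ) ^ ((1 / 2 + I * z) / 2 - 1) •
        (HurwitzZeta.hurwitzEvenFEPair 0).f_modif (Real.exp (2 * x))) =
      ∫ x : ℝ, 4 * ((Sn |x| : ℂ) * cexp (I * z * x)) := by
    refine integral_congr_ae ?_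
    filter_upwards [hae] with x hx
    have hpow : ((Real.exp (2 * x) : ℝ) : ℂ) ^ ((1 / 2 + I * z) / 2 - 1) =
        cexp ((1 / 2 + I * z - 2) * x) := by
      rw [Complex.cpow_def_of_ne_zero (by exact_mod_cast (Real.exp_pos _).ne'),
        ← Complex.ofReal_log (Real.exp_pos _).le, Real.log_exp]
      congr 1
      push_cast
      ring
    have hf : (HurwitzZeta.hurwitzEvenFEPair 0).f_modif (Real.exp (2 * x)) =
        ((2 * Real.exp (-(x / 2)) * Sn |x| : ℝ) : ℂ) := by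
      unfold WeakFEPair.f_modif HurwitzZeta.hurwitzEvenFEPair
      rcases lt_or_gt_of_ne hx with h | h
      · have h1 : Real.exp (2 * x) < 1 := by
          rw [Real.exp_lt_one_iff]
          linarith
        rw [Pi.add_apply, Set.indicator_of_notMem (Set.notMem_Ioi.mpr h1.le), zero_add,
          Set.indicator_of_mem (Set.mem_Ioo.mpr ⟨Real.exp_pos _, h1⟩)]
        simp only [Function.comp_apply, HurwitzZeta.evenKernel_eq_cosKernel_of_zero, one_mul,
          smul_eq_mul, mul_one]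
        rw [← Complex.ofReal_sub]
        congr 1
        rw [cosKernel_fe, cosKernel_eq, abs_of_neg h]
        have h2 : Real.exp (2 * x) ^ (-(1 / 2) : ℝ) = Real.exp (-x) := by
          rw [← Real.exp_mul]; ring_nf
        rw [h2]
        have h3 : Real.exp (-x) * Real.exp (-(-x / 2)) = Real.exp (-(x / 2)) := by
          rw [← Real.exp_add]; ring_nf
        linear_combination (2 * Sn (-x)) * h3
      · have h1 : 1 < Real.exp (2 * x) := by
          rw [Real.one_lt_exp_iff]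
          linarith
        rw [Pi.add_apply, Set.indicator_of_mem (Set.mem_Ioi.mpr h1),
          Set.indicator_of_notMem (Set.notMem_Ioo_of_ge h1.le), add_zero]
        simp only [Function.comp_apply, HurwitzZeta.evenKernel_eq_cosKernel_of_zero, if_true]
        rw [cosKernel_eq, abs_of_pos h]
        push_cast
        ring
    rw [hpow, hf, abs_of_pos (by positivity)]
    rw [Complex.real_smul, smul_eq_mul]
    push_cast
    have h4 : cexp (2 * x) * cexp ((1 / 2 + I * z - 2) * x) * cexp (-(x / 2)) =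
        cexp (I * z * x) := by
      rw [← Complex.exp_add, ← Complex.exp_add]
      congr 1
      ring
    linear_combination (4 * (Sn |x| : ℂ)) * h4
  rw [h2, integral_const_mul]
  ring

theorem Phi_integrable (z : ℂ) : Integrable (fun t : ℝ => (Phi t : ℂ) * cexp (I * z * t)) := by
  refine (Phi_exp_integrable ‖z‖).mono' ?_ ?_
  · exact ((Complex.continuous_ofReal.comp Phi_continuous).mul (by fun_prop)).aestronglyMeasurable
  · refine Eventually.of_forall (fun t => ?_)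
    rw [norm_mul, Complex.norm_real, Real.norm_eq_abs, abs_of_pos (Phi_pos t)]
    apply mul_le_mul_of_nonneg_left _ (Phi_pos t).le
    rw [Complex.norm_exp]
    apply Real.exp_le_exp.mpr
    refine (Complex.re_le_norm _).trans ?_
    simp

theorem Xi_eq (z : ℂ) : Xi z = (1 + (1 / 2 + I * z) * (1 / 2 + I * z - 1) *
    completedRiemannZeta₀ (1 / 2 + I * z)) / 2 := by
  unfold Xi
  rw [even_fourier (fun t => (Phi t : ℂ)) (fun t => by rw [Phi_even]) z (Phi_integrable z),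
    integral_Phi_cos, Lambda0_eq]
  have : (1 / 2 + I * z) * (1 / 2 + I * z - 1) = -(z ^ 2 + 1 / 4) := by
    linear_combination z ^ 2 * I_sq
  rw [this]
  ring

theorem xiData : XiData where
  even := Phi_even
  pos := Phi_pos
  cont := Phi_continuous
  le := Phi_le
  eq := Xi_eq

end Pool.Agent.Weyl
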