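import Pool.Agent.Lib.MP_38bb4c_an.Deriv
import Pool.Agent.Lib.MP_38bb4c_an.XiZeta

/-!
# MP_38bb4c_an: Fourier inversion on a horizontal line
-/

open Complex MeasureTheory Set Filter Topology FourierTransform

namespace Pool.Agent.Weyl

theorem XiData.fourier_Phi (H : XiData) (b x : ℝ) :
    𝓕 (fun u : ℝ => ((Phi u * Real.exp (b * u) : ℝ) : ℂ)) x =
      Xi ((2 * Real.pi * x : ℝ) + b * I) := by
  rw [Real.fourier_real_eq_integral_exp_smul, ← H.Xi_even]
  unfold Xi
  refine integral_congr_ae (Eventually.of_forall fun t => ?_)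
  beta_reduce
  rw [smul_eq_mul]
  push_cast
  rw [mul_comm, mul_assoc, ← Complex.exp_add]
  congr 2
  linear_combination ((b : ℂ) * t) * I_sq

theorem Phi_exp_integrable' (b : ℝ) :
    Integrable (fun u : ℝ => ((Phi u * Real.exp (b * u) : ℝ) : ℂ)) := by
  have h : Integrable (fun u : ℝ => Phi u * Real.exp (b * u)) := by
    refine (Phi_exp_integrable |b|).mono' (Phi_continuous.mul (by fun_prop)).aestronglyMeasurable
      (Eventually.of_forall fun t => ?_)
    have hp : 0 < Phi t * Real.exp (b * t) := mul_pos (Phi_pos t) (Real.exp_pos _)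
    rw [Real.norm_of_nonneg hp.le]
    apply mul_le_mul_of_nonneg_left _ (Phi_pos t).le
    apply Real.exp_le_exp.mpr
    rw [← abs_mul]
    exact le_abs_self _
  exact h.ofReal

theorem XiData.Xi_inversion (H : XiData) (b : ℝ)
    (hI : Integrable (fun x : ℝ => Xi (x + b * I))) (v : ℝ) :
    ((Phi v * Real.exp (b * v) : ℝ) : ℂ) =
      (1 / (2 * Real.pi)) * ∫ x : ℝ, Xi (x + b * I) * cexp (I * x * v) := by
  have hpi : (0 : ℝ) < 2 * Real.pi := by positivity
  have hF : 𝓕 (fun u : ℝ => ((Phi u * Real.exp (b * u) : ℝ) : ℂ)) =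
      fun x : ℝ => Xi ((2 * Real.pi * x : ℝ) + b * I) := by
    funext x
    exact H.fourier_Phi b x
  have hc : Continuous (fun u : ℝ => ((Phi u * Real.exp (b * u) : ℝ) : ℂ)) :=
    Complex.continuous_ofReal.comp (Phi_continuous.mul (by fun_prop))
  have hI2 : Integrable (𝓕 (fun u : ℝ => ((Phi u * Real.exp (b * u) : ℝ) : ℂ))) := by
    rw [hF]
    exact hI.comp_mul_left' hpi.ne'
  have key := congrFun (hc.fourierInv_fourier_eq (Phi_exp_integrable' b) hI2) v
  rw [Real.fourierInv_eq', hF] at key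
  rw [← key]
  have h1 := Measure.integral_comp_mul_left (fun x : ℝ => Xi (x + b * I) * cexp (I * x * v))
    (2 * Real.pi)
  rw [abs_of_pos (inv_pos.mpr hpi), Complex.real_smul] at h1
  have h2 : ((1 / (2 * Real.pi) : ℂ)) = (((2 * Real.pi)⁻¹ : ℝ) : ℂ) := by
    push_cast; rw [one_div]
  rw [h2, ← h1]
  refine integral_congr_ae (Eventually.of_forall fun x => ?_)
  beta_reduce
  rw [smul_eq_mul, mul_comm]
  congr 2
  simp only [RCLike.inner_apply, conj_trivial]
  push_cast
  ring

/-- `V_w` as a Fourier integral over the line `Im z = eta`. -/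
theorem XiData.Vf_eq (H : XiData) {N : ℕ} (a : Fin N → ℝ) (c : Fin N → ℂ) (w eta t : ℝ)
    (hI : Integrable (fun x : ℝ => Xi (x + (eta + w : ℝ) * I))) :
    Vf a c w t = (1 / (2 * Real.pi)) * ∫ x : ℝ,
      (∑ j, c j * cexp (I * (x + eta * I) * a j)) * Xi ((x + eta * I) + w * I) *
        cexp (I * (x + eta * I) * t) := by
  have hterm : ∀ j, Integrable (fun x : ℝ => c j * ((Real.exp (-(eta * (a j + t))) : ℝ) : ℂ) *
      (Xi (x + (eta + w : ℝ) * I) * cexp (I * x * ((a j + t : ℝ) : ℂ)))) := by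
    intro j
    refine Integrable.const_mul ?_ _
    refine hI.mul_bdd (c := 1) ?_ ?_
    · fun_prop
    · refine Eventually.of_forall fun x => ?_
      rw [Complex.norm_exp]
      simp
  have h1 : (fun x : ℝ => (∑ j, c j * cexp (I * (x + eta * I) * a j)) *
        Xi ((x + eta * I) + w * I) * cexp (I * (x + eta * I) * t)) =
      fun x : ℝ => ∑ j, c j * ((Real.exp (-(eta * (a j + t))) : ℝ) : ℂ) *
        (Xi (x + (eta + w : ℝ) * I) * cexp (I * x * ((a j + t : ℝ) : ℂ))) := by
    funext x
    rw [Finset.sum_mul, Finset.sum_mul]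
    refine Finset.sum_congr rfl fun j _ => ?_
    have e1 : (x : ℂ) + eta * I + w * I = x + (eta + w : ℝ) * I := by push_cast; ring
    have e2 : cexp (I * (x + eta * I) * a j) * cexp (I * (x + eta * I) * t) =
        ((Real.exp (-(eta * (a j + t))) : ℝ) : ℂ) * cexp (I * x * ((a j + t : ℝ) : ℂ)) := by
      push_cast
      rw [← Complex.exp_add, ← Complex.exp_add]
      congr 1
      linear_combination ((eta : ℂ) * (a j + t)) * I_sq
    rw [e1]
    linear_combination (c j * Xi (x + (eta + w : ℝ) * I)) * e2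
  rw [h1, integral_finsetSum _ (fun j _ => hterm j), Finset.mul_sum]
  unfold Vf
  refine Finset.sum_congr rfl fun j _ => ?_
  rw [integral_const_mul]
  have h2 := H.Xi_inversion (eta + w) hI (a j + t)
  have h3 : ((Phi (a j + t) * Real.exp (w * (a j + t)) : ℝ) : ℂ) =
      ((Real.exp (-(eta * (a j + t))) : ℝ) : ℂ) *
        ((Phi (a j + t) * Real.exp ((eta + w) * (a j + t)) : ℝ) : ℂ) := by
    rw [← Complex.ofReal_mul]
    congr 1
    have : Real.exp (w * (a j + t)) =
        Real.exp (-(eta * (a j + t))) * Real.exp ((eta + w) * (a j + t)) := by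
      rw [← Real.exp_add]; ring_nf
    rw [this]
    ring
  rw [h3, h2]
  ring

end Pool.Agent.Weyl
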