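import Pool.Agent.Lib.MP_38bb4c_an.Mono

/-!
# The kernel as an integral over `t > 0`
-/

open Complex MeasureTheory Set Filter

namespace Pool.Agent.Weyl

theorem setIntegral_Ioi_shift (g : ℝ → ℝ) (s : ℝ) :
    ∫ y in Ioi s, g y = ∫ t in Ioi (0 : ℝ), g (t + s) := by
  rw [← integral_indicator measurableSet_Ioi, ← integral_indicator measurableSet_Ioi,
    ← integral_add_right_eq_self (Set.indicator (Ioi s) g) s]
  congr 1
  funext t
  simp only [indicator, mem_Ioi]
  by_cases h : 0 < t
  · rw [if_pos h, if_pos (by linarith)]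
  · rw [if_neg h, if_neg (by linarith)]

/-- For an odd integrable function the integrals over `(s, ∞)` and `(|s|, ∞)` agree. -/
theorem odd_Ioi_abs (g : ℝ → ℝ) (hg : Integrable g) (hodd : ∀ y, g (-y) = -g y) (s : ℝ) :
    ∫ y in Ioi |s|, g y = ∫ y in Ioi s, g y := by
  rcases le_total 0 s with h | h
  · rw [abs_of_nonneg h]
  · rw [abs_of_nonpos h]
    have h1 : ∫ y in s..(-s), g y = 0 := by
      have h2 : ∫ y in s..(-s), g (-y) = ∫ y in s..(-s), g y := by
        rw [intervalIntegral.integral_comp_neg, neg_neg]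
      have h3 : ∫ y in s..(-s), g (-y) = -∫ y in s..(-s), g y := by
        rw [← intervalIntegral.integral_neg]
        congr 1
        funext y
        exact hodd y
      linarith
    have h4 := intervalIntegral.integral_Ioi_sub_Ioi (a := s) (b := -s) (f := g) (μ := volume)
      hg.integrableOn (by linarith)
    rw [h1] at h4
    linarith

theorem XiData.Phi_exp (H : XiData) (B : ℝ) (hB : 0 ≤ B) :
    ∃ C > 0, ∀ u, Phi u * Real.exp (B * |u|) ≤ C * Real.exp (-(1 * |u|)) := by
  obtain ⟨C, hC, hPhi⟩ := H.le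
  refine ⟨C * Real.exp (B ^ (3 / 2 : ℝ)), by positivity, fun u => ?_⟩
  have h3 := exponent_le B |u| hB (abs_nonneg u)
  calc Phi u * Real.exp (B * |u|)
      ≤ (C * Real.exp (-Real.exp (2 * |u|))) * Real.exp (B * |u|) := by
        gcongr
        exact hPhi u
    _ = C * Real.exp (-Real.exp (2 * |u|) + B * |u|) := by rw [mul_assoc, ← Real.exp_add]
    _ ≤ C * Real.exp (-|u| + B ^ (3 / 2 : ℝ)) := by gcongr
    _ = _ := by rw [Real.exp_add, one_mul]; ring

theorem integrable_exp_shift (a : ℝ) : Integrable (fun t : ℝ => Real.exp (-(1 * |a + t|))) := by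
  have h := (integrable_exp_neg_abs' 1 one_pos).comp_add_left a
  exact h

/-- Domination of the integrands. -/
theorem XiData.dom (H : XiData) (B : ℝ) (hB : 0 ≤ B) : ∃ C > 0, ∀ a b t : ℝ,
    Phi (a + t) * Phi (b + t) * Real.exp (B * |a + b + 2 * t|) ≤
      C * Real.exp (-(1 * |a + t|)) := by
  obtain ⟨C, hC, h⟩ := H.Phi_exp B hB
  refine ⟨C * C, by positivity, fun a b t => ?_⟩
  have h1 : |a + b + 2 * t| ≤ |a + t| + |b + t| := by
    have : a + b + 2 * t = (a + t) + (b + t) := by ring
    rw [this]
    exact abs_add_le _ _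
  have ha := h (a + t)
  have hb := h (b + t)
  have hb' : Phi (b + t) * Real.exp (B * |b + t|) ≤ C := by
    refine hb.trans ?_
    have : Real.exp (-(1 * |b + t|)) ≤ 1 := by
      rw [Real.exp_le_one_iff]
      have := abs_nonneg (b + t)
      linarith
    nlinarith
  have p1 := H.pos (a + t)
  have p2 := H.pos (b + t)
  calc Phi (a + t) * Phi (b + t) * Real.exp (B * |a + b + 2 * t|)
      ≤ Phi (a + t) * Phi (b + t) * Real.exp (B * (|a + t| + |b + t|)) := by gcongr
    _ = (Phi (a + t) * Real.exp (B * |a + t|)) * (Phi (b + t) * Real.exp (B * |b + t|)) := by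
        rw [mul_add, Real.exp_add]; ring
    _ ≤ (C * Real.exp (-(1 * |a + t|))) * C := by
        apply mul_le_mul ha hb' (by positivity) (by positivity)
    _ = _ := by ring

theorem abs_mul_cosh_le (w x : ℝ) : |x * Real.cosh (w * x)| ≤ Real.exp ((|w| + 1) * |x|) := by
  rw [abs_mul, abs_of_pos (Real.cosh_pos _)]
  have h1 : Real.cosh (w * x) ≤ Real.exp (|w| * |x|) := by
    rw [← Real.cosh_abs, abs_mul, Real.cosh_eq]
    have : Real.exp (-(|w| * |x|)) ≤ Real.exp (|w| * |x|) := by
      apply Real.exp_le_exp.mpr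
      have : 0 ≤ |w| * |x| := by positivity
      linarith
    linarith
  have h2 : |x| ≤ Real.exp |x| := by
    have := Real.add_one_le_exp |x|
    linarith
  calc |x| * Real.cosh (w * x) ≤ Real.exp |x| * Real.exp (|w| * |x|) := by
        apply mul_le_mul h2 h1 (Real.cosh_pos _).le (Real.exp_pos _).le
    _ = _ := by rw [← Real.exp_add]; ring_nf

/-- The integrand of the kernel in the variable `t`. -/
noncomputable def kint (w a b t : ℝ) : ℝ :=
  Phi (a + t) * Phi (b + t) * ((a + b + 2 * t) * Real.cosh (w * (a + b + 2 * t)))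

theorem XiData.kint_continuous (H : XiData) (w a b : ℝ) : Continuous (kint w a b) := by
  have h := H.cont
  unfold kint
  fun_prop

theorem XiData.kint_integrable (H : XiData) (w a b : ℝ) : Integrable (kint w a b) := by
  obtain ⟨C, hC, h⟩ := H.dom (|w| + 1) (by positivity)
  refine Integrable.mono' ((integrable_exp_shift a).const_mul C)
    (H.kint_continuous w a b).aestronglyMeasurable (Eventually.of_forall fun t => ?_)
  rw [kint, Real.norm_eq_abs, abs_mul, abs_of_pos (mul_pos (H.pos _) (H.pos _))]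
  refine le_trans ?_ (h a b t)
  gcongr
  · exact (mul_pos (H.pos _) (H.pos _)).le
  · exact abs_mul_cosh_le _ _

theorem XiData.K_eq (H : XiData) (w a b : ℝ) :
    K w a b = 1 / 4 * ∫ t in Ioi (0 : ℝ), kint w a b t := by
  set g : ℝ → ℝ := fun y => Phi (y + (a - b) / 2) * Phi (y - (a - b) / 2) * y *
    Real.cosh (2 * w * y) with hg
  have hgk : ∀ t, g (t + (a + b) / 2) = 1 / 2 * kint w a b t := by
    intro t
    rw [hg, kint]
    simp only
    have e1 : t + (a + b) / 2 + (a - b) / 2 = a + t := by ring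
    have e2 : t + (a + b) / 2 - (a - b) / 2 = b + t := by ring
    have e3 : 2 * w * (t + (a + b) / 2) = w * (a + b + 2 * t) := by ring
    rw [e1, e2, e3]
    ring
  have hodd : ∀ y, g (-y) = -g y := by
    intro y
    rw [hg]
    simp only
    have e1 : -y + (a - b) / 2 = -(y - (a - b) / 2) := by ring
    have e2 : -y - (a - b) / 2 = -(y + (a - b) / 2) := by ring
    have e3 : 2 * w * -y = -(2 * w * y) := by ring
    rw [e1, e2, e3, H.even, H.even, Real.cosh_neg]
    ring
  have hint : Integrable g := by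
    have h1 : Integrable (fun t => g (t + (a + b) / 2)) := by
      simp only [hgk]
      exact (H.kint_integrable w a b).const_mul _
    have h2 := h1.comp_add_right (-((a + b) / 2))
    simpa using h2
  rw [K]
  have h1 : ∫ y in Ioi (|a + b| / 2), g y = ∫ y in Ioi ((a + b) / 2), g y := by
    have e : |a + b| / 2 = |(a + b) / 2| := by
      rw [abs_div, abs_of_pos (by norm_num : (0 : ℝ) < 2)]
    rw [e, odd_Ioi_abs g hint hodd]
  rw [show (∫ y in Ioi (|a + b| / 2), Phi (y + (a - b) / 2) * Phi (y - (a - b) / 2) * y *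
    Real.cosh (2 * w * y)) = ∫ y in Ioi (|a + b| / 2), g y from rfl, h1,
    setIntegral_Ioi_shift]
  simp only [hgk]
  rw [integral_const_mul]
  ring

theorem XiData.K_symm (H : XiData) (w a b : ℝ) : K w a b = K w b a := by
  rw [H.K_eq, H.K_eq]
  congr 2
  funext t
  rw [kint, kint]
  have : a + b + 2 * t = b + a + 2 * t := by ring
  rw [this]
  ring

end Pool.Agent.Weyl
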