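import Pool.Agent.Lib.MP_38bb4c_an.Bounds2

/-!
# Monotonicity of `|Xi (x + i y)|` above the zeros (Phragmen - Lindelof)
-/

open Complex MeasureTheory Metric Set Filter Bornology

namespace Pool.Agent.Weyl

theorem XiData.integrable_exp (H : XiData) (u : ℝ) :
    Integrable (fun t : ℝ => Phi t * Real.exp (u * t)) := by
  obtain ⟨C, hC, hPhi⟩ := H.le
  have hc : Continuous (fun t : ℝ => Phi t * Real.exp (u * t)) := by
    have := H.cont
    fun_prop
  refine Integrable.mono' ((integrable_exp_neg_abs' 1 one_pos).const_mul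
    (C * Real.exp (|u| ^ (3 / 2 : ℝ)))) hc.aestronglyMeasurable (Eventually.of_forall fun t => ?_)
  rw [Real.norm_eq_abs, abs_of_pos (mul_pos (H.pos t) (Real.exp_pos _))]
  have h2 : u * t ≤ |u| * |t| := by rw [← abs_mul]; exact le_abs_self _
  have h3 := exponent_le |u| |t| (abs_nonneg u) (abs_nonneg t)
  calc Phi t * Real.exp (u * t)
      ≤ (C * Real.exp (-Real.exp (2 * |t|))) * Real.exp (|u| * |t|) := by
        apply mul_le_mul (hPhi t) (Real.exp_le_exp.mpr h2) (Real.exp_pos _).le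
        positivity
    _ = C * Real.exp (-Real.exp (2 * |t|) + |u| * |t|) := by rw [mul_assoc, ← Real.exp_add]
    _ ≤ C * Real.exp (-|t| + |u| ^ (3 / 2 : ℝ)) := by gcongr
    _ = _ := by rw [Real.exp_add, one_mul]; ring

theorem XiData.Xi_conj (H : XiData) (z : ℂ) : Xi ((starRingEnd ℂ) z) = (starRingEnd ℂ) (Xi z) := by
  have h : Xi (-((starRingEnd ℂ) z)) = (starRingEnd ℂ) (Xi z) := by
    rw [Xi, Xi, ← integral_conj]
    congr 1
    funext t
    rw [map_mul, Complex.conj_ofReal, ← Complex.exp_conj, map_mul, map_mul, Complex.conj_I,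
      Complex.conj_ofReal]
    congr 2
    ring
  rw [← h, H.Xi_even]

theorem XiData.norm_Xi_conj (H : XiData) (z : ℂ) : ‖Xi ((starRingEnd ℂ) z)‖ = ‖Xi z‖ := by
  rw [H.Xi_conj, RCLike.norm_conj]

theorem XiData.Xi_imag (H : XiData) (u : ℝ) :
    Xi (u * I) = ((∫ t : ℝ, Phi t * Real.cosh (u * t) : ℝ) : ℂ) := by
  have e1 : ∀ v : ℝ, Xi (v * I) = ((∫ t : ℝ, Phi t * Real.exp (-v * t) : ℝ) : ℂ) := by
    intro v
    rw [Xi, ← integral_complex_ofReal]
    congr 1
    funext t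
    push_cast
    congr 2
    rw [mul_comm (v : ℂ) I, ← mul_assoc, Complex.I_mul_I]
    ring
  have e2 : Xi (u * I) = (Xi (u * I) + Xi ((-u : ℝ) * I)) / 2 := by
    have : ((-u : ℝ) : ℂ) * I = -(u * I) := by push_cast; ring
    rw [this, H.Xi_even]
    ring
  rw [e2, e1, e1, ← Complex.ofReal_add, ← integral_add (H.integrable_exp _) (H.integrable_exp _)]
  have e3 : (fun t : ℝ => Phi t * Real.cosh (u * t)) =
      fun t => (1 / 2 : ℝ) * (Phi t * Real.exp (-u * t) + Phi t * Real.exp (- -u * t)) := by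
    funext t
    rw [Real.cosh_eq]
    ring_nf
  rw [e3, integral_const_mul]
  push_cast
  ring

theorem XiData.integrable_cosh (H : XiData) (u : ℝ) :
    Integrable (fun t : ℝ => Phi t * Real.cosh (u * t)) := by
  have e3 : (fun t : ℝ => Phi t * Real.cosh (u * t)) =
      fun t => (1 / 2 : ℝ) * (Phi t * Real.exp (u * t) + Phi t * Real.exp (-u * t)) := by
    funext t
    rw [Real.cosh_eq]
    ring_nf
  rw [e3]
  exact ((H.integrable_exp _).add (H.integrable_exp _)).const_mul _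

theorem XiData.Xi_imag_mono (H : XiData) (u v : ℝ) (h : |u| ≤ |v|) :
    ‖Xi (u * I)‖ ≤ ‖Xi (v * I)‖ := by
  rw [H.Xi_imag, H.Xi_imag, Complex.norm_real, Complex.norm_real, Real.norm_eq_abs,
    Real.norm_eq_abs]
  have hp : ∀ w : ℝ, 0 ≤ ∫ t : ℝ, Phi t * Real.cosh (w * t) := fun w =>
    integral_nonneg fun t => mul_nonneg (H.pos t).le (Real.cosh_pos _).le
  rw [abs_of_nonneg (hp u), abs_of_nonneg (hp v)]
  apply integral_mono (H.integrable_cosh u) (H.integrable_cosh v)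
  intro t
  apply mul_le_mul_of_nonneg_left _ (H.pos t).le
  rw [Real.cosh_le_cosh, abs_mul, abs_mul]
  gcongr

/-- The quotient is bounded by one in the upper half plane. -/
theorem XiData.quot_le (H : XiData) {w0 : ℝ} (h0 : 0 ≤ w0) (hz : ∀ z : ℂ, w0 < z.im → Xi z ≠ 0)
    (c : ℝ) (hc : w0 < c) (z : ℂ) (hzi : 0 ≤ z.im) :
    ‖Xi (z - c * I) / Xi (z + c * I)‖ ≤ 1 := by
  obtain ⟨C1, hC1, hup⟩ := H.Xi_upper
  obtain ⟨C2, hC2, hlow⟩ := H.Xi_lower h0 hc hz
  have hc0 : 0 ≤ c := h0.trans hc.le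
  have hdX := H.Xi_differentiable
  set f : ℂ → ℂ := fun z => Xi (z - c * I) / Xi (z + c * I) with hf
  have hne : ∀ w : ℂ, 0 ≤ w.im → Xi (w + c * I) ≠ 0 := by
    intro w hw
    apply hz
    simp
    linarith
  have hdiff : ∀ S : Set ℂ, (∀ w ∈ S, 0 ≤ w.im) → DifferentiableOn ℂ f S := by
    intro S hS
    have h1 : Differentiable ℂ (fun z : ℂ => Xi (z - c * I)) := hdX.comp (by fun_prop)
    have h2 : Differentiable ℂ (fun z : ℂ => Xi (z + c * I)) := hdX.comp (by fun_prop)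
    exact h1.differentiableOn.div h2.differentiableOn fun w hw => hne w (hS w hw)
  have hgrow : ∀ w : ℂ, 0 ≤ w.im → 1 + c ≤ ‖w‖ →
      ‖f w‖ ≤ Real.exp (((C1 + C2) * 2 ^ (3 / 2 : ℝ)) * ‖w‖ ^ (3 / 2 : ℝ)) := by
    intro w hw hwn
    have hcI : ‖(c : ℂ) * I‖ = c := by
      rw [norm_mul, Complex.norm_I, mul_one, Complex.norm_real, Real.norm_eq_abs,
        abs_of_nonneg hc0]
    have n1 : ‖w - c * I‖ ≤ ‖w‖ + c := (norm_sub_le _ _).trans (by rw [hcI])
    have n2 : ‖w + c * I‖ ≤ ‖w‖ + c := (norm_add_le _ _).trans (by rw [hcI])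
    have hT : ∀ v : ℂ, ‖v‖ ≤ ‖w‖ + c →
        (1 + ‖v‖) ^ (3 / 2 : ℝ) ≤ 2 ^ (3 / 2 : ℝ) * ‖w‖ ^ (3 / 2 : ℝ) := by
      intro v hv
      rw [← Real.mul_rpow (by norm_num) (norm_nonneg _)]
      apply Real.rpow_le_rpow (by linarith [norm_nonneg v]) _ (by norm_num)
      linarith
    rw [hf]
    simp only
    rw [norm_div, div_le_iff₀ (norm_pos_iff.mpr (hne w hw))]
    have l1 := hup (w - c * I)
    have l2 := hlow (w + c * I) (by simp; linarith)
    have m1 := hT _ n1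
    have m2 := hT _ n2
    set T : ℝ := 2 ^ (3 / 2 : ℝ) * ‖w‖ ^ (3 / 2 : ℝ) with hTd
    calc ‖Xi (w - c * I)‖ ≤ Real.exp (C1 * (1 + ‖w - c * I‖) ^ (3 / 2 : ℝ)) := l1
      _ ≤ Real.exp (C1 * T) := by gcongr
      _ = Real.exp ((C1 + C2) * T) * Real.exp (-C2 * T) := by
          rw [← Real.exp_add]; ring_nf
      _ ≤ Real.exp ((C1 + C2) * T) * Real.exp (-C2 * (1 + ‖w + c * I‖) ^ (3 / 2 : ℝ)) := by
          apply mul_le_mul_of_nonneg_left _ (Real.exp_pos _).le
          apply Real.exp_le_exp.mpr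
          nlinarith
      _ ≤ Real.exp ((C1 + C2) * T) * ‖Xi (w + c * I)‖ := by gcongr
      _ = _ := by rw [hTd]; ring_nf
  have hB : ∀ S : Set ℂ, (∀ w ∈ S, 0 ≤ w.im) → ∃ a < (2 : ℝ), ∃ B,
      f =O[cobounded ℂ ⊓ 𝓟 S] fun z => Real.exp (B * ‖z‖ ^ a) := by
    intro S hS
    refine ⟨3 / 2, by norm_num, (C1 + C2) * 2 ^ (3 / 2 : ℝ), ?_⟩
    apply Asymptotics.IsBigO.of_bound 1
    rw [eventually_inf_principal]
    filter_upwards [tendsto_norm_cobounded_atTop.eventually_ge_atTop (1 + c)] with w hw hwS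
    rw [one_mul, Real.norm_eq_abs, Real.abs_exp]
    exact hgrow w (hS w hwS) hw
  have hreal : ∀ x : ℝ, ‖f x‖ ≤ 1 := by
    intro x
    rw [hf]
    simp only
    rw [norm_div]
    have : (x : ℂ) - c * I = (starRingEnd ℂ) ((x : ℂ) + c * I) := by
      simp only [map_add, map_mul, Complex.conj_ofReal, Complex.conj_I]
      ring
    rw [this, H.norm_Xi_conj]
    exact div_self_le_one _
  have himag : ∀ x : ℝ, 0 ≤ x → ‖f (x * I)‖ ≤ 1 := by
    intro x hx
    rw [hf]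
    simp only
    rw [norm_div]
    apply div_le_one_of_le₀ _ (norm_nonneg _)
    have e1 : (x : ℂ) * I - c * I = ((x - c : ℝ) : ℂ) * I := by push_cast; ring
    have e2 : (x : ℂ) * I + c * I = ((x + c : ℝ) : ℂ) * I := by push_cast; ring
    rw [e1, e2]
    apply H.Xi_imag_mono
    rw [abs_of_nonneg (by linarith : 0 ≤ x + c)]
    rw [abs_le]
    constructor <;> linarith
  have cl1 : closure (Ioi (0 : ℝ) ×ℂ Ioi (0 : ℝ)) = Ici 0 ×ℂ Ici 0 := by
    simp only [Complex.closure_reProdIm, closure_Ioi]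
  have cl2 : closure (Iio (0 : ℝ) ×ℂ Ioi (0 : ℝ)) = Iic 0 ×ℂ Ici 0 := by
    simp only [Complex.closure_reProdIm, closure_Iio, closure_Ioi]
  rcases le_total 0 z.re with hr | hr
  · refine PhragmenLindelof.quadrant_I (f := f) ?_ (hB _ ?_) (fun x _ => hreal x) himag hr hzi
    · apply DifferentiableOn.diffContOnCl
      rw [cl1]
      exact hdiff _ fun w hw => hw.2
    · exact fun w hw => le_of_lt hw.2
  · refine PhragmenLindelof.quadrant_II (f := f) ?_ (hB _ ?_) (fun x _ => hreal x) himag hr hzi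
    · apply DifferentiableOn.diffContOnCl
      rw [cl2]
      exact hdiff _ fun w hw => hw.2
    · exact fun w hw => le_of_lt hw.2

theorem XiData.Xi_shift_le (H : XiData) {w0 : ℝ} (h0 : 0 ≤ w0)
    (hz : ∀ z : ℂ, w0 < z.im → Xi z ≠ 0) (c : ℝ) (hc : w0 ≤ c) (z : ℂ) (hzi : 0 ≤ z.im) :
    ‖Xi (z - c * I)‖ ≤ ‖Xi (z + c * I)‖ := by
  have hlt : ∀ c : ℝ, w0 < c → ‖Xi (z - c * I)‖ ≤ ‖Xi (z + c * I)‖ := by
    intro c hc
    have h := H.quot_le h0 hz c hc z hzi
    have hne : Xi (z + c * I) ≠ 0 := by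
      apply hz
      simp
      linarith
    rw [norm_div, div_le_one (norm_pos_iff.mpr hne)] at h
    exact h
  rcases eq_or_lt_of_le hc with rfl | hc'
  · have hXi : Continuous Xi := H.Xi_differentiable.continuous
    have h1 : Continuous (fun c : ℝ => ‖Xi (z - c * I)‖) := by
      have : Continuous (fun c : ℝ => z - c * I) := by fun_prop
      exact (hXi.comp this).norm
    have h2 : Continuous (fun c : ℝ => ‖Xi (z + c * I)‖) := by
      have : Continuous (fun c : ℝ => z + c * I) := by fun_prop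
      exact (hXi.comp this).norm
    refine le_of_tendsto_of_tendsto (b := nhdsWithin w0 (Ioi w0))
      (h1.continuousWithinAt (s := Ioi w0) (x := w0)) (h2.continuousWithinAt) ?_
    filter_upwards [self_mem_nhdsWithin] with c hc
    exact hlt c hc
  · exact hlt c hc'

/-- Module D. -/
theorem XiData.Xi_mono (H : XiData) {w0 : ℝ} (h0 : 0 ≤ w0)
    (hz : ∀ z : ℂ, w0 < z.im → Xi z ≠ 0) :
    (∀ c : ℝ, w0 ≤ c → ∀ z : ℂ, 0 ≤ z.im → ‖Xi (z - c * I)‖ ≤ ‖Xi (z + c * I)‖) ∧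
      (∀ x y y' : ℝ, w0 ≤ y → y ≤ y' → ‖Xi (x + y * I)‖ ≤ ‖Xi (x + y' * I)‖) := by
  refine ⟨fun c hc z hzi => H.Xi_shift_le h0 hz c hc z hzi, fun x y y' hy hyy => ?_⟩
  have h := H.Xi_shift_le h0 hz ((y + y') / 2) (by linarith)
    ((x : ℂ) + ((y' - y) / 2 : ℝ) * I) (by simp; linarith)
  have e1 : (x : ℂ) + ((y' - y) / 2 : ℝ) * I - ((y + y') / 2 : ℝ) * I =
      (starRingEnd ℂ) ((x : ℂ) + y * I) := by
    simp only [map_add, map_mul, Complex.conj_ofReal, Complex.conj_I]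
    push_cast
    ring
  have e2 : (x : ℂ) + ((y' - y) / 2 : ℝ) * I + ((y + y') / 2 : ℝ) * I = (x : ℂ) + y' * I := by
    push_cast
    ring
  rw [e1, e2, H.norm_Xi_conj] at h
  exact h

end Pool.Agent.Weyl
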