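import Mathlib

/-!
# MP_38bb4c_an: the square norm of a Fourier-Laplace integral as a double integral
-/

open Complex MeasureTheory Set Filter Topology

namespace Pool.Agent.Weyl

theorem integral_exp_Ioi {zeta : ℂ} (h : 0 < zeta.im) :
    ∫ t in Ioi (0 : ℝ), cexp (I * zeta * t) = I / zeta := by
  have h0 : zeta ≠ 0 := by
    intro h1
    rw [h1] at h
    simp at h
  rw [integral_exp_mul_complex_Ioi (by simpa using h)]
  simp only [Complex.ofReal_zero, mul_zero, Complex.exp_zero]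
  rw [div_eq_div_iff (mul_ne_zero I_ne_zero h0) h0]
  linear_combination (-zeta) * I_sq

/-- The square norm on `(0, ∞)` of `t ↦ ∫ G(x) e^{i(x+iη)t} dx`. -/
theorem normSq_integral (G : ℝ → ℂ) (hG : Integrable G) {eta : ℝ} (h : 0 < eta) :
    ((∫ t in Ioi (0 : ℝ), ‖∫ x : ℝ, G x * cexp (I * (x + eta * I) * t)‖ ^ 2 : ℝ) : ℂ) =
      ∫ p : ℝ × ℝ, G p.1 * (starRingEnd ℂ) (G p.2) *
        (I / ((p.1 + eta * I) - (starRingEnd ℂ) (p.2 + eta * I))) := by
  have hGc : Integrable (fun y => (starRingEnd ℂ) (G y)) := by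
    have := hG
    exact (LinearIsometryEquiv.integrable_comp_iff (Complex.conjLIE)).mpr hG
  have hGG : Integrable (fun p : ℝ × ℝ => G p.1 * (starRingEnd ℂ) (G p.2)) (volume.prod volume) :=
    hG.mul_prod hGc
  have hE : IntegrableOn (fun t : ℝ => ((Real.exp (-(2 * eta) * t) : ℝ) : ℂ)) (Ioi 0) := by
    refine Integrable.ofReal ?_
    exact exp_neg_integrableOn_Ioi 0 (by linarith)
  have hF0 : Integrable (fun q : ℝ × (ℝ × ℝ) =>
      ((Real.exp (-(2 * eta) * q.1) : ℝ) : ℂ) * (G q.2.1 * (starRingEnd ℂ) (G q.2.2)))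
      ((volume.restrict (Ioi (0 : ℝ))).prod (volume.prod volume)) :=
    Integrable.mul_prod (μ := volume.restrict (Ioi (0 : ℝ))) (ν := (volume.prod volume))
      (f := fun t : ℝ => ((Real.exp (-(2 * eta) * t) : ℝ) : ℂ))
      (g := fun p : ℝ × ℝ => G p.1 * (starRingEnd ℂ) (G p.2)) hE hGG
  have hF : Integrable (fun q : ℝ × (ℝ × ℝ) =>
      (G q.2.1 * (starRingEnd ℂ) (G q.2.2)) *
        cexp (I * ((q.2.1 + eta * I) - (starRingEnd ℂ) (q.2.2 + eta * I)) * q.1))
      ((volume.restrict (Ioi (0 : ℝ))).prod (volume.prod volume)) := by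
    have h1 := hF0.mul_bdd (c := 1) (g := fun q : ℝ × (ℝ × ℝ) =>
      cexp (I * ((q.2.1 - q.2.2 : ℝ) : ℂ) * q.1)) (by fun_prop)
      (Eventually.of_forall fun q => by
        rw [Complex.norm_exp]
        simp)
    refine h1.congr (Eventually.of_forall fun q => ?_)
    beta_reduce
    have e : ((Real.exp (-(2 * eta) * q.1) : ℝ) : ℂ) * cexp (I * ((q.2.1 - q.2.2 : ℝ) : ℂ) * q.1) =
        cexp (I * ((q.2.1 + eta * I) - (starRingEnd ℂ) (q.2.2 + eta * I)) * q.1) := by
      push_cast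
      rw [← Complex.exp_add]
      congr 1
      simp only [map_add, map_mul, Complex.conj_ofReal, Complex.conj_I]
      linear_combination (-(2 : ℂ) * eta * q.1) * I_sq
    linear_combination (G q.2.1 * (starRingEnd ℂ) (G q.2.2)) * e
  have hinner : ∀ t : ℝ, (((‖∫ x : ℝ, G x * cexp (I * (x + eta * I) * t)‖ ^ 2 : ℝ)) : ℂ) =
      ∫ p : ℝ × ℝ, (G p.1 * (starRingEnd ℂ) (G p.2)) *
        cexp (I * ((p.1 + eta * I) - (starRingEnd ℂ) (p.2 + eta * I)) * t) := by
    intro t
    have h1 : (((‖∫ x : ℝ, G x * cexp (I * (x + eta * I) * t)‖ ^ 2 : ℝ)) : ℂ) =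
        (∫ x : ℝ, G x * cexp (I * (x + eta * I) * t)) *
          (starRingEnd ℂ) (∫ x : ℝ, G x * cexp (I * (x + eta * I) * t)) := by
      rw [Complex.mul_conj, Complex.normSq_eq_norm_sq]
    rw [h1, ← integral_conj, ← integral_prod_mul]
    refine integral_congr_ae (Eventually.of_forall fun p => ?_)
    beta_reduce
    rw [map_mul, ← Complex.exp_conj]
    have e : cexp (I * (p.1 + eta * I) * t) *
        cexp ((starRingEnd ℂ) (I * (p.2 + eta * I) * t)) =
        cexp (I * ((p.1 + eta * I) - (starRingEnd ℂ) (p.2 + eta * I)) * t) := by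
      rw [← Complex.exp_add]
      congr 1
      simp only [map_add, map_mul, Complex.conj_ofReal, Complex.conj_I]
      ring
    linear_combination (G p.1 * (starRingEnd ℂ) (G p.2)) * e
  rw [← integral_complex_ofReal]
  have h2 : ∫ t in Ioi (0 : ℝ),
      (((‖∫ x : ℝ, G x * cexp (I * (x + eta * I) * t)‖ ^ 2 : ℝ)) : ℂ) =
      ∫ t in Ioi (0 : ℝ), ∫ p : ℝ × ℝ, (G p.1 * (starRingEnd ℂ) (G p.2)) *
        cexp (I * ((p.1 + eta * I) - (starRingEnd ℂ) (p.2 + eta * I)) * t) :=
    integral_congr_ae (Eventually.of_forall fun t => hinner t)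
  rw [h2]
  refine (integral_integral_swap (μ := volume.restrict (Ioi (0 : ℝ)))
    (ν := (volume : Measure (ℝ × ℝ))) (f := fun (t : ℝ) (p : ℝ × ℝ) =>
    (G p.1 * (starRingEnd ℂ) (G p.2)) *
        cexp (I * ((p.1 + eta * I) - (starRingEnd ℂ) (p.2 + eta * I)) * t)) hF).trans ?_
  refine integral_congr_ae (Eventually.of_forall fun p => ?_)
  beta_reduce
  rw [integral_const_mul, integral_exp_Ioi]
  simp
  linarith

/-- The same, as an iterated integral. -/
theorem normSq_integral' (G : ℝ → ℂ) (hG : Integrable G) {eta : ℝ} (h : 0 < eta) :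
    ((∫ t in Ioi (0 : ℝ), ‖∫ x : ℝ, G x * cexp (I * (x + eta * I) * t)‖ ^ 2 : ℝ) : ℂ) =
      ∫ x : ℝ, ∫ y : ℝ, G x * (starRingEnd ℂ) (G y) *
        (I / ((x + eta * I) - (starRingEnd ℂ) (y + eta * I))) := by
  rw [normSq_integral G hG h]
  have hGc : Integrable (fun y => (starRingEnd ℂ) (G y)) :=
    (LinearIsometryEquiv.integrable_comp_iff (Complex.conjLIE)).mpr hG
  have hGG : Integrable (fun p : ℝ × ℝ => G p.1 * (starRingEnd ℂ) (G p.2)) (volume.prod volume) :=
    hG.mul_prod hGc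
  refine integral_prod (f := fun p : ℝ × ℝ => G p.1 * (starRingEnd ℂ) (G p.2) *
        (I / ((p.1 + eta * I) - (starRingEnd ℂ) (p.2 + eta * I)))) ?_
  refine hGG.mul_bdd (c := 1 / (2 * eta)) ?_ ?_
  · refine Continuous.aestronglyMeasurable ?_
    refine continuous_const.div (by fun_prop) (fun p => ?_)
    intro h1
    have := congrArg Complex.im h1
    simp at this
    linarith
  · refine Eventually.of_forall fun p => ?_
    rw [norm_div, Complex.norm_I]
    apply one_div_le_one_div_of_le (by linarith)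
    refine le_trans ?_ (Complex.abs_im_le_norm _)
    simp
    rw [abs_of_pos (by linarith)]
    linarith

end Pool.Agent.Weyl
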