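import Pool.Agent.Lib.MP_38bb4c_an.StEOf
import Pool.Agent.Lib.MP_38bb4c_an.NormSq
import Pool.Agent.Lib.MP_38bb4c_an.HalfCauchy

/-!
# MP_38bb4c_an: the pairing with the functions `f_X`
-/

open Complex MeasureTheory Set Filter Topology

namespace Pool.Agent.Weyl

/-- Analytic in the open upper half plane, continuous on the closed one, `O(1/(1+|z|))`. -/
structure Nice (u : ℂ → ℂ) : Prop where
  diff : DifferentiableOn ℂ u {z | 0 < z.im}
  cont : ContinuousOn u {z | 0 ≤ z.im}
  bd : ∃ C : ℝ, ∀ z : ℂ, 0 ≤ z.im → ‖u z‖ ≤ C / (1 + ‖z‖)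

/-- The inner product on the real line. -/
noncomputable def ip (u v : ℂ → ℂ) : ℂ := ∫ t : ℝ, u t * (starRingEnd ℂ) (v t)

/-- The function `f_X`. -/
noncomputable def fX (g : ℝ → ℂ) (X : ℂ → ℂ) (eta : ℝ) (z : ℂ) : ℂ :=
  ∫ x : ℝ, (starRingEnd ℂ) (g x * X (x + eta * I)) * (I / (z - (starRingEnd ℂ) (x + eta * I)))

theorem Nice.add {u v : ℂ → ℂ} (hu : Nice u) (hv : Nice v) : Nice (fun z => u z + v z) := by
  obtain ⟨C, hC⟩ := hu.bd
  obtain ⟨D, hD⟩ := hv.bd
  refine ⟨hu.diff.add hv.diff, hu.cont.add hv.cont, C + D, fun z hz => ?_⟩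
  rw [add_div]
  exact (norm_add_le _ _).trans (add_le_add (hC z hz) (hD z hz))

theorem Nice.sub {u v : ℂ → ℂ} (hu : Nice u) (hv : Nice v) : Nice (fun z => u z - v z) := by
  obtain ⟨C, hC⟩ := hu.bd
  obtain ⟨D, hD⟩ := hv.bd
  refine ⟨hu.diff.sub hv.diff, hu.cont.sub hv.cont, C + D, fun z hz => ?_⟩
  rw [add_div]
  exact (norm_sub_le _ _).trans (add_le_add (hC z hz) (hD z hz))

theorem Nice.ball_mul {X u : ℂ → ℂ} (hX : Ball X) (hu : Nice u) : Nice (fun z => X z * u z) := by
  obtain ⟨C, hC⟩ := hu.bd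
  refine ⟨hX.diff.mul hu.diff, hX.cont.mul hu.cont, C, fun z hz => ?_⟩
  rw [norm_mul]
  exact (mul_le_of_le_one_left (norm_nonneg _) (hX.le z hz)).trans (hC z hz)

theorem Nice.continuous_line {u : ℂ → ℂ} (hu : Nice u) : Continuous (fun x : ℝ => u x) :=
  line_continuous hu.cont

theorem Ball.continuous_line {X : ℂ → ℂ} (hX : Ball X) {eta : ℝ} (h : 0 < eta) :
    Continuous (fun x : ℝ => X (x + eta * I)) := by
  have : ContinuousOn (fun x : ℝ => X (x + eta * I)) univ :=
    hX.cont.comp (by fun_prop) (fun x _ => by simpa using h.le)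
  exact continuousOn_univ.mp this

theorem Ball.le_line {X : ℂ → ℂ} (hX : Ball X) {eta : ℝ} (h : 0 < eta) (x : ℝ) :
    ‖X (x + eta * I)‖ ≤ 1 := hX.le _ (by simpa using h.le)

theorem weight_integrable {g : ℝ → ℂ} (hg : Continuous g)
    (hI : Integrable (fun x : ℝ => (1 + |x|) * ‖g x‖)) : Integrable g := by
  refine hI.mono' hg.aestronglyMeasurable (Eventually.of_forall fun x => ?_)
  have : 0 ≤ |x| * ‖g x‖ := by positivity
  linarith

/-- The linear weight. -/
theorem weight_le {eta : ℝ} (h : 0 < eta) {z : ℂ} {x : ℝ} {p : ℂ} (hp : ‖p‖ ≤ |x| + eta)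
    (hz : eta ≤ ‖z - p‖) : 1 / ‖z - p‖ ≤ (2 + 1 / eta) * (1 + |x|) / (1 + ‖z‖) := by
  have h1 := one_add_norm_le h hz
  have h2 : 0 < ‖z - p‖ := lt_of_lt_of_le h hz
  rw [div_le_div_iff₀ h2 (by positivity), one_mul]
  refine h1.trans ?_
  apply mul_le_mul_of_nonneg_right _ h2.le
  have h3 : (1 + ‖p‖) / eta ≤ (1 + |x| + eta) / eta :=
    div_le_div_of_nonneg_right (by linarith) h.le
  have h4 : (1 + |x| + eta) / eta = (1 / eta) * (1 + |x|) + 1 := by field_simp
  have h5 := abs_nonneg x
  nlinarith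

theorem norm_line_le {eta : ℝ} (h : 0 < eta) (x : ℝ) : ‖(x : ℂ) + eta * I‖ ≤ |x| + eta := by
  refine (norm_add_le _ _).trans ?_
  simp [abs_of_pos h]

theorem norm_line_conj_le {eta : ℝ} (h : 0 < eta) (x : ℝ) :
    ‖(starRingEnd ℂ) ((x : ℂ) + eta * I)‖ ≤ |x| + eta := by
  rw [RCLike.norm_conj]
  exact norm_line_le h x

theorem le_norm_sub_conj {eta : ℝ} {z : ℂ} (hz : 0 ≤ z.im) (x : ℝ) :
    eta ≤ ‖z - (starRingEnd ℂ) ((x : ℂ) + eta * I)‖ := by
  have := norm_sub_conj_ge (w := (x : ℂ) + eta * I) hz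
  simpa using this

theorem le_norm_real_sub {eta : ℝ} (h : 0 < eta) (t x : ℝ) :
    eta ≤ ‖(t : ℂ) - ((x : ℂ) + eta * I)‖ := by
  refine le_trans ?_ (Complex.abs_im_le_norm _)
  simp [abs_of_pos h]

theorem nice_fX {g : ℝ → ℂ} (hg : Continuous g)
    (hI : Integrable (fun x : ℝ => (1 + |x|) * ‖g x‖)) {X : ℂ → ℂ} (hX : Ball X) {eta : ℝ}
    (h : 0 < eta) : Nice (fX g X eta) := by
  have hgi := weight_integrable hg hI
  have hXl := hX.continuous_line h
  have hderiv : ∀ z : ℂ, 0 ≤ z.im → DifferentiableAt ℂ (fX g X eta) z := by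
    intro z hz
    have hlow : ∀ z' ∈ Metric.ball z (eta / 2), ∀ x : ℝ,
        eta / 2 ≤ ‖z' - (starRingEnd ℂ) ((x : ℂ) + eta * I)‖ := by
      intro z' hz' x
      have h1 := le_norm_sub_conj (eta := eta) hz x
      have h2 : ‖z - z'‖ < eta / 2 := by
        rw [Metric.mem_ball, dist_comm, dist_eq_norm] at hz'
        exact hz'
      have h3 := norm_add_le (z - z') (z' - (starRingEnd ℂ) ((x : ℂ) + eta * I))
      rw [sub_add_sub_cancel] at h3
      linarith
    have hne : ∀ z' ∈ Metric.ball z (eta / 2), ∀ x : ℝ,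
        z' - (starRingEnd ℂ) ((x : ℂ) + eta * I) ≠ 0 := by
      intro z' hz' x h0
      have := hlow z' hz' x
      rw [h0, norm_zero] at this
      linarith
    have hzz : z ∈ Metric.ball z (eta / 2) := Metric.mem_ball_self (by linarith)
    have key := hasDerivAt_integral_of_dominated_loc_of_deriv_le (𝕜 := ℂ) (μ := volume)
      (x₀ := z) (s := Metric.ball z (eta / 2))
      (F := fun z' x => (starRingEnd ℂ) (g x * X (x + eta * I)) *
        (I / (z' - (starRingEnd ℂ) ((x : ℂ) + eta * I))))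
      (F' := fun z' x => (starRingEnd ℂ) (g x * X (x + eta * I)) *
        (-I / (z' - (starRingEnd ℂ) ((x : ℂ) + eta * I)) ^ 2))
      (bound := fun x => ‖g x‖ * (1 / (eta / 2) ^ 2))
      (Metric.ball_mem_nhds z (by linarith))
      ?_ ?_ ?_ ?_ ?_ ?_
    · exact key.2.differentiableAt
    · filter_upwards [Metric.ball_mem_nhds z (by linarith : (0 : ℝ) < eta / 2)] with z' hz'
      refine Continuous.aestronglyMeasurable ?_
      refine (Complex.continuous_conj.comp (hg.mul hXl)).mul ?_
      exact continuous_const.div (by fun_prop) (fun x => hne z' hz' x)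
    · refine Integrable.mono' (hgi.norm.mul_const (1 / (eta / 2))) ?_ ?_
      · refine Continuous.aestronglyMeasurable ?_
        refine (Complex.continuous_conj.comp (hg.mul hXl)).mul ?_
        exact continuous_const.div (by fun_prop) (fun x => hne z hzz x)
      · refine Eventually.of_forall fun x => ?_
        rw [norm_mul, RCLike.norm_conj, norm_mul, norm_div, Complex.norm_I]
        apply mul_le_mul (mul_le_of_le_one_right (norm_nonneg _) (hX.le_line h x)) _
          (by positivity) (norm_nonneg _)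
        exact one_div_le_one_div_of_le (by linarith) (hlow z hzz x)
    · refine Continuous.aestronglyMeasurable ?_
      refine (Complex.continuous_conj.comp (hg.mul hXl)).mul ?_
      exact continuous_const.div (by fun_prop) (fun x => pow_ne_zero 2 (hne z hzz x))
    · refine Eventually.of_forall fun x z' hz' => ?_
      rw [norm_mul, RCLike.norm_conj, norm_mul, norm_div, norm_neg, Complex.norm_I, norm_pow]
      apply mul_le_mul (mul_le_of_le_one_right (norm_nonneg _) (hX.le_line h x)) _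
        (by positivity) (norm_nonneg _)
      apply one_div_le_one_div_of_le (by positivity)
      exact pow_le_pow_left₀ (by linarith) (hlow z' hz' x) 2
    · exact hgi.norm.mul_const _
    · refine Eventually.of_forall fun x z' hz' => ?_
      have h1 : HasDerivAt (fun z' : ℂ => z' - (starRingEnd ℂ) ((x : ℂ) + eta * I)) 1 z' :=
        (hasDerivAt_id z').sub_const _
      have h2 := (h1.inv (hne z' hz' x)).const_mul
        ((starRingEnd ℂ) (g x * X (x + eta * I)) * I)
      refine (h2.congr_of_eventuallyEq (Eventually.of_forall fun y => ?_)).congr_deriv ?_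
      · simp only [Pi.inv_apply]
        rw [div_eq_mul_inv, mul_assoc]
      · ring
  refine ⟨fun z hz => (hderiv z (le_of_lt hz)).differentiableWithinAt,
    fun z hz => (hderiv z hz).continuousAt.continuousWithinAt,
    (2 + 1 / eta) * ∫ x : ℝ, (1 + |x|) * ‖g x‖, fun z hz => ?_⟩
  unfold fX
  have e : (2 + 1 / eta) * (∫ x : ℝ, (1 + |x|) * ‖g x‖) / (1 + ‖z‖) =
      ∫ x : ℝ, ((2 + 1 / eta) / (1 + ‖z‖)) * ((1 + |x|) * ‖g x‖) := by
    rw [integral_const_mul]
    ring
  rw [e]
  refine norm_integral_le_of_norm_le (hI.const_mul _) (Eventually.of_forall fun x => ?_)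
  rw [norm_mul, RCLike.norm_conj, norm_mul, norm_div, Complex.norm_I]
  have h1 := weight_le h (norm_line_conj_le h x) (le_norm_sub_conj (eta := eta) hz x)
  calc ‖g x‖ * ‖X (x + eta * I)‖ * (1 / ‖z - (starRingEnd ℂ) ((x : ℂ) + eta * I)‖)
      ≤ ‖g x‖ * ((2 + 1 / eta) * (1 + |x|) / (1 + ‖z‖)) :=
        mul_le_mul (mul_le_of_le_one_right (norm_nonneg _) (hX.le_line h x)) h1
          (by positivity) (norm_nonneg _)
    _ = _ := by ring

/-- The pairing identity. -/
theorem pairing {g : ℝ → ℂ} (hg : Continuous g)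
    (hI : Integrable (fun x : ℝ => (1 + |x|) * ‖g x‖)) {X : ℂ → ℂ} (hX : Ball X) {eta : ℝ}
    (h : 0 < eta) {u : ℂ → ℂ} (hu : Nice u) :
    ip u (fX g X eta) = 2 * Real.pi * ∫ x : ℝ, g x * X (x + eta * I) * u (x + eta * I) := by
  obtain ⟨C, hC⟩ := hu.bd
  have hC0 : 0 ≤ C := by
    have := (norm_nonneg _).trans (hC 0 (by simp))
    simpa using this
  have hXl := hX.continuous_line h
  have hul := hu.continuous_line
  have hne : ∀ t x : ℝ, (t : ℂ) - ((x : ℂ) + eta * I) ≠ 0 := by
    intro t x h0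
    have := le_norm_real_sub h t x
    rw [h0, norm_zero] at this
    linarith
  have hF : Integrable (fun p : ℝ × ℝ => u p.1 * ((g p.2 * X (p.2 + eta * I)) *
      (-I / ((p.1 : ℂ) - (p.2 + eta * I))))) (volume.prod volume) := by
    have hbase : Integrable (fun p : ℝ × ℝ => (C * (2 + 1 / eta) * (1 + p.1 ^ 2)⁻¹) *
        ((1 + |p.2|) * ‖g p.2‖)) (volume.prod volume) :=
      (integrable_inv_one_add_sq.const_mul _).mul_prod hI
    refine hbase.mono' ?_ (Eventually.of_forall fun p => ?_)
    · refine Continuous.aestronglyMeasurable ?_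
      refine (hul.comp continuous_fst).mul (((hg.comp continuous_snd).mul
        (hXl.comp continuous_snd)).mul ?_)
      exact continuous_const.div (by fun_prop) (fun p => hne p.1 p.2)
    · rw [norm_mul, norm_mul, norm_mul, norm_div, norm_neg, Complex.norm_I]
      have h1 := weight_le h (norm_line_le h p.2) (le_norm_real_sub h p.1 p.2)
      have h2 := hC p.1 (by simp)
      rw [Complex.norm_real, Real.norm_eq_abs] at h1 h2
      have h3 : ‖g p.2‖ * ‖X (p.2 + eta * I)‖ ≤ ‖g p.2‖ :=
        mul_le_of_le_one_right (norm_nonneg _) (hX.le_line h p.2)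
      have h4 : 1 / (1 + |p.1|) * (1 / (1 + |p.1|)) ≤ (1 + p.1 ^ 2)⁻¹ := by
        rw [← one_div, one_div_mul_one_div]
        apply one_div_le_one_div_of_le (by positivity)
        nlinarith [abs_nonneg p.1, sq_abs p.1]
      calc ‖u p.1‖ * (‖g p.2‖ * ‖X (p.2 + eta * I)‖ *
            (1 / ‖(p.1 : ℂ) - (p.2 + eta * I)‖))
          ≤ (C / (1 + |p.1|)) * (‖g p.2‖ * ((2 + 1 / eta) * (1 + |p.2|) / (1 + |p.1|))) := by
            apply mul_le_mul h2 _ (by positivity) (by positivity)
            exact mul_le_mul h3 h1 (by positivity) (norm_nonneg _)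
        _ = C * (2 + 1 / eta) * (1 / (1 + |p.1|) * (1 / (1 + |p.1|))) *
            ((1 + |p.2|) * ‖g p.2‖) := by ring
        _ ≤ C * (2 + 1 / eta) * (1 + p.1 ^ 2)⁻¹ * ((1 + |p.2|) * ‖g p.2‖) := by
            apply mul_le_mul_of_nonneg_right _ (by positivity)
            exact mul_le_mul_of_nonneg_left h4 (by positivity)
  have h1 : ip u (fX g X eta) = ∫ t : ℝ, ∫ x : ℝ, u t * ((g x * X (x + eta * I)) *
      (-I / ((t : ℂ) - (x + eta * I)))) := by
    unfold ip fX
    refine integral_congr_ae (Eventually.of_forall fun t => ?_)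
    beta_reduce
    rw [← integral_conj, ← integral_const_mul]
    refine integral_congr_ae (Eventually.of_forall fun x => ?_)
    beta_reduce
    rw [map_mul, Complex.conj_conj, map_div₀, Complex.conj_I, map_sub, Complex.conj_conj,
      Complex.conj_ofReal]
  rw [h1, integral_integral_swap (f := fun t x : ℝ => u t * ((g x * X (x + eta * I)) *
      (-I / ((t : ℂ) - (x + eta * I))))) hF, ← integral_const_mul]
  refine integral_congr_ae (Eventually.of_forall fun x => ?_)
  beta_reduce
  have h2 : ∀ t : ℝ, u t * ((g x * X (x + eta * I)) * (-I / ((t : ℂ) - (x + eta * I)))) =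
      (-I * (g x * X (x + eta * I))) * (u t / ((t : ℂ) - (x + eta * I))) := by
    intro t
    ring
  simp_rw [h2]
  rw [integral_const_mul, cauchy_upper hu.diff hu.cont hC (w := x + eta * I) (by simpa using h)]
  linear_combination (-2 * Real.pi * g x * X (x + eta * I) * u (x + eta * I)) * I_sq

theorem pairing' {g : ℝ → ℂ} (hg : Continuous g)
    (hI : Integrable (fun x : ℝ => (1 + |x|) * ‖g x‖)) {X : ℂ → ℂ} (hX : Ball X) {eta : ℝ}
    (h : 0 < eta) {u : ℂ → ℂ} (hu : Nice u) :
    ip u (fX g X eta) = ip (fun z => X z * u z) (fX g (fun _ => 1) eta) := by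
  rw [pairing hg hI hX h hu, pairing hg hI ball_one h (hu.ball_mul hX)]
  congr 1
  refine integral_congr_ae (Eventually.of_forall fun x => ?_)
  beta_reduce
  ring

theorem ip_fX_self {g : ℝ → ℂ} (hg : Continuous g)
    (hI : Integrable (fun x : ℝ => (1 + |x|) * ‖g x‖)) {X : ℂ → ℂ} (hX : Ball X) {eta : ℝ}
    (h : 0 < eta) :
    ip (fX g X eta) (fX g X eta) = 2 * Real.pi * (NX g X eta : ℂ) := by
  rw [pairing hg hI hX h (nice_fX hg hI hX h)]
  congr 1
  have hG : Integrable (fun x : ℝ => g x * X (x + eta * I)) := by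
    refine (weight_integrable hg hI).mul_bdd (c := 1)
      (hX.continuous_line h).aestronglyMeasurable (Eventually.of_forall fun x => ?_)
    exact hX.le_line h x
  have key := normSq_integral' (fun x : ℝ => g x * X (x + eta * I)) hG h
  unfold NX
  rw [key]
  refine integral_congr_ae (Eventually.of_forall fun x => ?_)
  beta_reduce
  unfold fX
  rw [← integral_const_mul]
  refine integral_congr_ae (Eventually.of_forall fun y => ?_)
  beta_reduce
  ring

end Pool.Agent.Weyl
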