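import Pool.Agent.Lib.MP_38bb4c_an.Defs

/-!
# MP_38bb4c_an: basic properties of the Riemann kernel `Phi`
-/

open MeasureTheory Complex

namespace Pool.Agent.Weyl

/-- The `n`-th term of the series for `Phi`, as a function of `u = |x|`. -/
noncomputable def phiT (n : ℕ) (u : ℝ) : ℝ :=
  (4 * Real.pi ^ 2 * ((n : ℝ) + 1) ^ 4 * Real.exp (9 * u / 2)
      - 6 * Real.pi * ((n : ℝ) + 1) ^ 2 * Real.exp (5 * u / 2)) *
    Real.exp (-Real.pi * ((n : ℝ) + 1) ^ 2 * Real.exp (2 * u))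

theorem Phi_eq (x : ℝ) : Phi x = ∑' n : ℕ, phiT n |x| := rfl

theorem Phi_even (x : ℝ) : Phi (-x) = Phi x := by
  rw [Phi_eq, Phi_eq, abs_neg]

theorem phiT_pos (n : ℕ) {u : ℝ} (hu : 0 ≤ u) : 0 < phiT n u := by
  unfold phiT
  refine mul_pos ?_ (Real.exp_pos _)
  have h1 : Real.exp (9 * u / 2) = Real.exp (5 * u / 2) * Real.exp (2 * u) := by
    rw [← Real.exp_add]; ring_nf
  have h2 : 1 ≤ Real.exp (2 * u) := Real.one_le_exp (by linarith)
  have h3 : (1 : ℝ) ≤ ((n : ℝ) + 1) ^ 2 := by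
    have : (0 : ℝ) ≤ n := Nat.cast_nonneg n
    nlinarith
  have h4 := Real.pi_gt_three
  have h5 : 0 < Real.exp (5 * u / 2) := Real.exp_pos _
  rw [h1]
  have h6 : 4 * Real.pi ^ 2 * ((n : ℝ) + 1) ^ 4 * (Real.exp (5 * u / 2) * Real.exp (2 * u))
      - 6 * Real.pi * ((n : ℝ) + 1) ^ 2 * Real.exp (5 * u / 2)
      = 2 * Real.pi * ((n : ℝ) + 1) ^ 2 * Real.exp (5 * u / 2) *
        (2 * Real.pi * ((n : ℝ) + 1) ^ 2 * Real.exp (2 * u) - 3) := by ring
  rw [h6]
  have h7 : 1 ≤ ((n : ℝ) + 1) ^ 2 * Real.exp (2 * u) := by nlinarith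
  have h8 : 0 < 2 * Real.pi * ((n : ℝ) + 1) ^ 2 * Real.exp (2 * u) - 3 := by
    nlinarith [mul_le_mul h4.le h7 (by norm_num) (by linarith)]
  positivity

/-- The summable majorant of the terms. -/
theorem phiT_le (n : ℕ) {u : ℝ} (hu : 0 ≤ u) :
    phiT n u ≤ 24 * Real.pi ^ 2 * (1 / ((n : ℝ) + 1) ^ 2) * Real.exp (-Real.exp (2 * u)) := by
  have hN : (1 : ℝ) ≤ (n : ℝ) + 1 := by
    have : (0 : ℝ) ≤ n := Nat.cast_nonneg n
    linarith
  set N : ℝ := (n : ℝ) + 1 with hNdef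
  have hN2 : 1 ≤ N ^ 2 := by nlinarith
  have hNpos : 0 < N := by linarith
  set E : ℝ := Real.exp (2 * u) with hE
  have hE1 : 1 ≤ E := Real.one_le_exp (by linarith)
  have hpi := Real.pi_gt_three
  have hpp := Real.pi_pos
  -- the exponential factor
  have h1 : Real.exp (-Real.pi * N ^ 2 * E) ≤ Real.exp (-E) * Real.exp (-(N ^ 2 * E)) := by
    rw [← Real.exp_add]
    apply Real.exp_le_exp.mpr
    have : E ≤ N ^ 2 * E := by nlinarith
    have h3 : 3 * (N ^ 2 * E) ≤ Real.pi * (N ^ 2 * E) := by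
      apply mul_le_mul_of_nonneg_right hpi.le
      positivity
    nlinarith
  -- u^3 e^{-u} ≤ 6
  have h2 : (N ^ 2 * E) ^ 3 * Real.exp (-(N ^ 2 * E)) ≤ 6 := by
    have hpos : 0 ≤ N ^ 2 * E := by positivity
    have := Real.pow_div_factorial_le_exp (N ^ 2 * E) hpos 3
    have h3 : (N ^ 2 * E) ^ 3 ≤ 6 * Real.exp (N ^ 2 * E) := by
      have h4 : ((Nat.factorial 3 : ℕ) : ℝ) = 6 := by norm_num [Nat.factorial]
      rw [h4] at this
      linarith [(div_le_iff₀ (by norm_num : (0:ℝ) < 6)).mp this]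
    calc (N ^ 2 * E) ^ 3 * Real.exp (-(N ^ 2 * E))
        ≤ 6 * Real.exp (N ^ 2 * E) * Real.exp (-(N ^ 2 * E)) :=
          mul_le_mul_of_nonneg_right h3 (Real.exp_pos _).le
      _ = 6 := by rw [mul_assoc, ← Real.exp_add]; simp
  have h9 : Real.exp (9 * u / 2) ≤ E ^ 3 := by
    rw [hE, ← Real.exp_nat_mul]
    apply Real.exp_le_exp.mpr
    push_cast
    linarith
  unfold phiT
  rw [← hNdef, ← hE]
  calc (4 * Real.pi ^ 2 * N ^ 4 * Real.exp (9 * u / 2) - 6 * Real.pi * N ^ 2 * Real.exp (5 * u / 2)) *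
        Real.exp (-Real.pi * N ^ 2 * E)
      ≤ (4 * Real.pi ^ 2 * N ^ 4 * Real.exp (9 * u / 2)) * Real.exp (-Real.pi * N ^ 2 * E) := by
        apply mul_le_mul_of_nonneg_right _ (Real.exp_pos _).le
        have : 0 ≤ 6 * Real.pi * N ^ 2 * Real.exp (5 * u / 2) := by positivity
        linarith
    _ ≤ (4 * Real.pi ^ 2 * N ^ 4 * E ^ 3) * (Real.exp (-E) * Real.exp (-(N ^ 2 * E))) := by
        apply mul_le_mul _ h1 (Real.exp_pos _).le (by positivity)
        apply mul_le_mul_of_nonneg_left h9 (by positivity)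
    _ = 4 * Real.pi ^ 2 * (1 / N ^ 2) * ((N ^ 2 * E) ^ 3 * Real.exp (-(N ^ 2 * E))) *
          Real.exp (-E) := by
        field_simp
    _ ≤ 4 * Real.pi ^ 2 * (1 / N ^ 2) * 6 * Real.exp (-E) := by
        apply mul_le_mul_of_nonneg_right _ (Real.exp_pos _).le
        apply mul_le_mul_of_nonneg_left h2 (by positivity)
    _ = 24 * Real.pi ^ 2 * (1 / N ^ 2) * Real.exp (-E) := by ring

theorem summable_inv_sq : Summable (fun n : ℕ => 1 / ((n : ℝ) + 1) ^ 2) := by
  have h := (summable_nat_add_iff 1).mpr (Real.summable_one_div_nat_pow.mpr (by norm_num : 1 < 2))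
  simpa using h

theorem summable_majorant (c : ℝ) :
    Summable (fun n : ℕ => 24 * Real.pi ^ 2 * (1 / ((n : ℝ) + 1) ^ 2) * c) :=
  (summable_inv_sq.mul_left _).mul_right _

theorem norm_phiT_le (n : ℕ) {u : ℝ} (hu : 0 ≤ u) :
    ‖phiT n u‖ ≤ 24 * Real.pi ^ 2 * (1 / ((n : ℝ) + 1) ^ 2) * Real.exp (-Real.exp (2 * u)) := by
  rw [Real.norm_eq_abs, abs_of_pos (phiT_pos n hu)]
  exact phiT_le n hu

theorem summable_phiT {u : ℝ} (hu : 0 ≤ u) : Summable (fun n => phiT n u) :=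
  Summable.of_norm_bounded (summable_majorant _) (fun n => norm_phiT_le n hu)

theorem Phi_pos (x : ℝ) : 0 < Phi x := by
  rw [Phi_eq]
  exact (summable_phiT (abs_nonneg x)).tsum_pos (fun n => (phiT_pos n (abs_nonneg x)).le) 0
    (phiT_pos 0 (abs_nonneg x))

theorem continuous_phiT (n : ℕ) : Continuous (phiT n) := by
  unfold phiT
  fun_prop

theorem Phi_continuous : Continuous Phi := by
  have : Phi = fun x => ∑' n : ℕ, phiT n |x| := rfl
  rw [this]
  refine continuous_tsum (u := fun n : ℕ => 24 * Real.pi ^ 2 * (1 / ((n : ℝ) + 1) ^ 2) * 1)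
    (fun n => (continuous_phiT n).comp continuous_abs) (summable_majorant 1) (fun n x => ?_)
  refine (norm_phiT_le n (abs_nonneg x)).trans ?_
  apply mul_le_mul_of_nonneg_left _ (by positivity)
  apply Real.exp_le_one_iff.mpr
  linarith [Real.exp_pos (2 * |x|)]

theorem Phi_le : ∃ C > 0, ∀ x, Phi x ≤ C * Real.exp (-Real.exp (2 * |x|)) := by
  refine ⟨∑' n : ℕ, 24 * Real.pi ^ 2 * (1 / ((n : ℝ) + 1) ^ 2), ?_, fun x => ?_⟩
  · exact (summable_inv_sq.mul_left _).tsum_pos (fun n => by positivity) 0 (by positivity)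
  · rw [Phi_eq, ← tsum_mul_right]
    exact (summable_phiT (abs_nonneg x)).tsum_le_tsum (fun n => phiT_le n (abs_nonneg x))
      (summable_majorant _)

theorem Phi_le_exp (A : ℝ) : ∃ C > 0, ∀ x, Phi x ≤ C * Real.exp (-A * |x|) := by
  obtain ⟨C, hC, h⟩ := Phi_le
  refine ⟨C * Real.exp (A ^ 2 / 8), by positivity, fun x => (h x).trans ?_⟩
  rw [mul_assoc, ← Real.exp_add]
  apply mul_le_mul_of_nonneg_left _ hC.le
  apply Real.exp_le_exp.mpr
  have h1 := Real.quadratic_le_exp_of_nonneg (x := 2 * |x|) (by positivity)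
  nlinarith [sq_nonneg (A - 4 * |x|), abs_nonneg x]

theorem Phi_nonneg (x : ℝ) : 0 ≤ Phi x := (Phi_pos x).le

/-- `Phi` times any exponential is integrable. -/
theorem Phi_exp_integrable (A : ℝ) : Integrable (fun x : ℝ => Phi x * Real.exp (A * |x|)) := by
  obtain ⟨C, hC, h⟩ := Phi_le_exp (A + 1)
  have hI : Integrable (fun x : ℝ => C * (2 * (1 + x ^ 2)⁻¹)) :=
    (integrable_inv_one_add_sq.const_mul 2).const_mul C
  refine hI.mono' ?_ ?_
  · exact (Phi_continuous.mul (by fun_prop)).aestronglyMeasurable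
  · refine Filter.Eventually.of_forall (fun x => ?_)
    rw [Real.norm_eq_abs, abs_of_nonneg (mul_nonneg (Phi_nonneg x) (Real.exp_pos _).le)]
    calc Phi x * Real.exp (A * |x|)
        ≤ C * Real.exp (-(A + 1) * |x|) * Real.exp (A * |x|) :=
          mul_le_mul_of_nonneg_right (h x) (Real.exp_pos _).le
      _ = C * Real.exp (-|x|) := by
          rw [mul_assoc, ← Real.exp_add]; ring_nf
      _ ≤ C * (2 * (1 + x ^ 2)⁻¹) := by
          apply mul_le_mul_of_nonneg_left _ hC.le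
          rw [Real.exp_neg, ← div_eq_mul_inv, inv_eq_one_div, div_le_div_iff₀ (Real.exp_pos _)
            (by positivity)]
          have h1 := Real.quadratic_le_exp_of_nonneg (abs_nonneg x)
          nlinarith [sq_abs x, abs_nonneg x]

end Pool.Agent.Weyl
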