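import Pool.Agent.Lib.MP_38bb4c_an.Deriv

/-!
# Riemann sums on the line
-/

open Complex MeasureTheory Set Filter Topology

namespace Pool.Agent.Weyl

/-- Rounding down to multiples of `1/N`. -/
noncomputable def stp (N : ℕ) (a : ℝ) : ℝ := (⌊(N : ℝ) * a⌋ : ℝ) / N

theorem stp_close (N : ℕ) (hN : N ≠ 0) (a : ℝ) : |stp N a - a| ≤ 1 / N := by
  have hN' : (0 : ℝ) < N := by positivity
  have h1 := Int.floor_le ((N : ℝ) * a)
  have h2 := Int.lt_floor_add_one ((N : ℝ) * a)
  have e : stp N a - a = ((⌊(N : ℝ) * a⌋ : ℝ) - N * a) / N := by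
    rw [stp]; field_simp
  rw [e, abs_div, abs_of_pos hN']
  apply div_le_div_of_nonneg_right _ hN'.le
  rw [abs_le]
  constructor <;> linarith

theorem stp_tendsto (a : ℝ) : Tendsto (fun N : ℕ => stp N a) atTop (𝓝 a) := by
  rw [tendsto_iff_norm_sub_tendsto_zero]
  refine squeeze_zero' (Eventually.of_forall fun _ => norm_nonneg _) ?_
    tendsto_one_div_atTop_nhds_zero_nat
  filter_upwards [eventually_ne_atTop 0] with N hN
  exact stp_close N hN a

theorem stp_measurable (N : ℕ) : Measurable (stp N) := by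
  have h1 : Measurable (fun a : ℝ => ⌊(N : ℝ) * a⌋) := Int.measurable_floor.comp
    (measurable_const.mul measurable_id)
  have h2 : Measurable (fun m : ℤ => (m : ℝ)) := measurable_from_top
  exact (h2.comp h1).div_const _

theorem stp_abs (N : ℕ) (hN : N ≠ 0) (a t : ℝ) : -(1 * |stp N a + t|) ≤ 1 + -(1 * |a + t|) := by
  have h := stp_close N hN a
  have h1 : (1 : ℝ) / N ≤ 1 := by
    rw [div_le_one (by positivity)]
    exact_mod_cast Nat.one_le_iff_ne_zero.mpr hN
  have h2 : |a + t| ≤ |stp N a + t| + |stp N a - a| := by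
    have := abs_sub_le_abs_add_abs_aux (stp N a + t) (stp N a - a)
    have e : a + t = (stp N a + t) - (stp N a - a) := by ring
    rw [e]
    exact this
  linarith
where
  abs_sub_le_abs_add_abs_aux (x y : ℝ) : |x - y| ≤ |x| + |y| := by
    have := abs_add_le x (-y)
    rwa [abs_neg, ← sub_eq_add_neg] at this

/-- The Riemann sum as an integral. -/
noncomputable def RS (N : ℕ) (φ : ℝ → ℂ) : ℂ := ∫ a in (-(N : ℝ))..N, φ (stp N a)

theorem RS_eq (N : ℕ) (hN : N ≠ 0) (φ : ℝ → ℂ) :
    RS N φ = ∑ i : Fin (2 * N * N), ((1 / (N : ℝ) : ℝ) : ℂ) * φ ((i : ℝ) / N - N) := by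
  have hN' : (0 : ℝ) < N := by positivity
  set p : ℕ → ℝ := fun k => (k : ℝ) / N - N with hp
  have hstep : ∀ k : ℕ, p (k + 1) - p k = 1 / N := by
    intro k
    rw [hp]
    simp only
    push_cast
    field_simp
    ring
  have hconst : ∀ k : ℕ, ∀ a ∈ Ioo (p k) (p (k + 1)), φ (stp N a) = φ (p k) := by
    intro k a ha
    have h1 : (k : ℝ) - N * N ≤ N * a := by
      have := ha.1.le
      rw [hp] at this
      simp only at this
      have h3 : N * ((k : ℝ) / N - N) ≤ N * a := mul_le_mul_of_nonneg_left this hN'.le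
      have h4 : N * ((k : ℝ) / N - N) = (k : ℝ) - N * N := by field_simp
      linarith
    have h2 : N * a < (k : ℝ) - N * N + 1 := by
      have := ha.2
      rw [hp] at this
      simp only at this
      have h3 : N * a < N * (((k + 1 : ℕ) : ℝ) / N - N) := mul_lt_mul_of_pos_left this hN'
      have h4 : N * (((k + 1 : ℕ) : ℝ) / N - N) = (k : ℝ) - N * N + 1 := by
        push_cast
        field_simp
        ring
      linarith
    have h5 : ⌊(N : ℝ) * a⌋ = (k : ℤ) - N * N := by
      rw [Int.floor_eq_iff]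
      push_cast
      exact ⟨h1, h2⟩
    congr 1
    rw [stp, h5, hp]
    push_cast
    field_simp
  have hint : ∀ k : ℕ, IntervalIntegrable (fun a => φ (stp N a)) volume (p k) (p (k + 1)) := by
    intro k
    have hle : p k ≤ p (k + 1) := by
      have := hstep k
      have h0 : (0 : ℝ) ≤ 1 / N := by positivity
      linarith
    rw [intervalIntegrable_iff_integrableOn_Ioo_of_le hle]
    have hfin : volume (Ioo (p k) (p (k + 1))) ≠ ⊤ := by simp
    have hc : IntegrableOn (fun _ : ℝ => φ (p k)) (Ioo (p k) (p (k + 1))) :=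
      integrableOn_const (hs := hfin) (hC := enorm_ne_top)
    exact hc.congr_fun (fun a ha => (hconst k a ha).symm) measurableSet_Ioo
  have hval : ∀ k : ℕ, ∫ a in (p k)..(p (k + 1)), φ (stp N a) =
      ((1 / (N : ℝ) : ℝ) : ℂ) * φ (p k) := by
    intro k
    have hle : p k ≤ p (k + 1) := by
      have := hstep k
      have h0 : (0 : ℝ) ≤ 1 / N := by positivity
      linarith
    rw [intervalIntegral.integral_of_le hle, integral_Ioc_eq_integral_Ioo,
      setIntegral_congr_fun measurableSet_Ioo (hconst k), ← integral_Ioc_eq_integral_Ioo,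
      ← intervalIntegral.integral_of_le hle, intervalIntegral.integral_const, hstep k,
      Complex.real_smul]
  have hsum := intervalIntegral.sum_integral_adjacent_intervals (f := fun a => φ (stp N a))
    (μ := volume) (a := p) (n := 2 * N * N) (fun k _ => hint k)
  have h0 : p 0 = -(N : ℝ) := by rw [hp]; simp
  have h1 : p (2 * N * N) = N := by
    rw [hp]
    simp only
    push_cast
    field_simp
    ring
  rw [h0, h1] at hsum
  rw [RS, ← hsum, Finset.sum_range]
  refine Finset.sum_congr rfl fun k _ => ?_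
  rw [hval]

theorem RS_norm_le (N : ℕ) (hN : N ≠ 0) (φ : ℝ → ℂ) (C t : ℝ)
    (hb : ∀ a, ‖φ a‖ ≤ C * Real.exp (-(1 * |a + t|))) (hC : 0 ≤ C) :
    ‖RS N φ‖ ≤ C * Real.exp 1 * ∫ u : ℝ, Real.exp (-(1 * |u|)) := by
  have hle : -(N : ℝ) ≤ N := by
    have : (0 : ℝ) ≤ N := by positivity
    linarith
  have hint := ((integrable_exp_neg_abs' 1 one_pos).comp_add_right t).const_mul (C * Real.exp 1)
  have hbd : ∀ a, ‖φ (stp N a)‖ ≤ C * Real.exp 1 * Real.exp (-(1 * |a + t|)) := by
    intro a
    refine (hb _).trans ?_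
    rw [mul_assoc, ← Real.exp_add]
    apply mul_le_mul_of_nonneg_left _ hC
    exact Real.exp_le_exp.mpr (stp_abs N hN a t)
  rw [RS, intervalIntegral.integral_of_le hle]
  calc ‖∫ a in Ioc (-(N : ℝ)) N, φ (stp N a)‖
      ≤ ∫ a in Ioc (-(N : ℝ)) N, C * Real.exp 1 * Real.exp (-(1 * |a + t|)) :=
        norm_integral_le_of_norm_le hint.integrableOn (Eventually.of_forall hbd)
    _ ≤ ∫ a : ℝ, C * Real.exp 1 * Real.exp (-(1 * |a + t|)) := by
        apply setIntegral_le_integral hint
        exact Eventually.of_forall fun a => by positivity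
    _ = C * Real.exp 1 * ∫ u : ℝ, Real.exp (-(1 * |u|)) := by
        rw [integral_const_mul]
        congr 1
        exact integral_add_right_eq_self (fun u : ℝ => Real.exp (-(1 * |u|))) t

theorem RS_tendsto (φ : ℝ → ℂ) (hφ : Continuous φ) (C t : ℝ) (hC : 0 ≤ C)
    (hb : ∀ a, ‖φ a‖ ≤ C * Real.exp (-(1 * |a + t|))) :
    Tendsto (fun N : ℕ => RS N φ) atTop (𝓝 (∫ a : ℝ, φ a)) := by
  have e : ∀ N : ℕ, RS N φ = ∫ a : ℝ, (Ioc (-(N : ℝ)) N).indicator (fun a => φ (stp N a)) a := by
    intro N
    have hle : -(N : ℝ) ≤ N := by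
      have : (0 : ℝ) ≤ N := by positivity
      linarith
    rw [RS, intervalIntegral.integral_of_le hle, integral_indicator measurableSet_Ioc]
  simp only [e]
  refine tendsto_integral_filter_of_dominated_convergence
    (fun a => C * Real.exp 1 * Real.exp (-(1 * |a + t|))) ?_ ?_ ?_ ?_
  · refine Eventually.of_forall fun N => ?_
    apply Measurable.aestronglyMeasurable
    apply Measurable.indicator _ measurableSet_Ioc
    exact hφ.measurable.comp (stp_measurable N)
  · filter_upwards [eventually_ne_atTop 0] with N hN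
    refine Eventually.of_forall fun a => ?_
    refine (norm_indicator_le_norm_self _ _).trans ?_
    refine (hb _).trans ?_
    rw [mul_assoc, ← Real.exp_add]
    apply mul_le_mul_of_nonneg_left _ hC
    exact Real.exp_le_exp.mpr (stp_abs N hN a t)
  · exact ((integrable_exp_neg_abs' 1 one_pos).comp_add_right t).const_mul (C * Real.exp 1)
  · refine Eventually.of_forall fun a => ?_
    have h1 : Tendsto (fun N : ℕ => φ (stp N a)) atTop (𝓝 (φ a)) :=
      (hφ.tendsto a).comp (stp_tendsto a)
    refine h1.congr' ?_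
    filter_upwards [eventually_gt_atTop (⌈|a|⌉₊)] with N hN
    have hN' : |a| < N := lt_of_le_of_lt (Nat.le_ceil _) (by exact_mod_cast hN)
    rw [indicator_of_mem]
    rw [mem_Ioc]
    have := abs_lt.mp hN'
    exact ⟨this.1, this.2.le⟩

end Pool.Agent.Weyl
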