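import Pool.Agent.Lib.MP_38bb4c_an.EAlg
import Pool.Agent.Lib.MP_38bb4c_an.Assembly

/-!
# The Hilbert space lemma from the pairing identities
-/

open Complex MeasureTheory Set Filter Topology

namespace Pool.Agent.Weyl

theorem ball_one : Ball (fun _ => (1 : ℂ)) where
  diff := differentiableOn_const _
  cont := continuousOn_const
  le := fun _ _ => by simp

/-- `StE` from a class `Nice` of analytic functions and test functions `fX` with the pairing
identities. -/
theorem stE_of (Nice : (ℂ → ℂ) → Prop) (fX : (ℝ → ℂ) → (ℂ → ℂ) → ℝ → ℂ → ℂ)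
    (hcont : ∀ u, Nice u → ContinuousOn u {z | 0 ≤ z.im})
    (hdec : ∀ u, Nice u → ∃ C, ∀ z : ℂ, 0 ≤ z.im → ‖u z‖ ≤ C / (1 + ‖z‖))
    (hmul : ∀ u X, Nice u → Ball X → Nice (fun z => X z * u z))
    (hsub : ∀ u v, Nice u → Nice v → Nice (fun z => u z - v z))
    (P1 : ∀ (g : ℝ → ℂ) (X : ℂ → ℂ) (eta : ℝ), Ball X → 0 < eta → Continuous g →
      Integrable (fun x : ℝ => (1 + |x|) * ‖g x‖) → Nice (fX g X eta))
    (P2 : ∀ (g : ℝ → ℂ) (X : ℂ → ℂ) (eta : ℝ), Ball X → 0 < eta → Continuous g →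
      Integrable (fun x : ℝ => (1 + |x|) * ‖g x‖) → ∀ u, Nice u →
      ∫ t : ℝ, u t * (starRingEnd ℂ) (fX g X eta t) =
        2 * Real.pi * ∫ x : ℝ, g x * X (x + eta * I) * u (x + eta * I))
    (P3 : ∀ (g : ℝ → ℂ) (X : ℂ → ℂ) (eta : ℝ), Ball X → 0 < eta → Continuous g →
      Integrable (fun x : ℝ => (1 + |x|) * ‖g x‖) →
      ∫ t : ℝ, ‖fX g X eta t‖ ^ 2 = 2 * Real.pi * NX g X eta) : StE := by
  intro th ph ps eta g heta hth hph hps hth1 hpsr hg hgi
  have hD : ∀ u, Nice u → Dec (fun t : ℝ => u t) := by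
    intro u hu
    refine ⟨?_, ?_⟩
    · exact (hcont u hu).comp_continuous Complex.continuous_ofReal (fun t => by simp)
    · obtain ⟨C, hC⟩ := hdec u hu
      refine ⟨C, fun t => ?_⟩
      have := hC t (by simp)
      rwa [Complex.norm_real, Real.norm_eq_abs] at this
  have hBc : ∀ X, Ball X → Continuous (fun t : ℝ => X t) := by
    intro X hX
    exact hX.cont.comp_continuous Complex.continuous_ofReal (fun t => by simp)
  have n1 := P1 g _ eta ball_one heta hg hgi
  have nt := P1 g _ eta hth heta hg hgi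
  have np := P1 g _ eta hph heta hg hgi
  have ns := P1 g _ eta hps heta hg hgi
  have pair : ∀ X, Ball X → ∀ u, Nice u →
      ipr (fun t : ℝ => u t) (fun t : ℝ => fX g X eta t) =
      ipr (fun t : ℝ => X t * u t) (fun t : ℝ => fX g (fun _ => 1) eta t) := by
    intro X hX u hu
    rw [ipr, ipr, P2 g X eta hX heta hg hgi u hu]
    have h2 := P2 g _ eta ball_one heta hg hgi (fun z => X z * u z) (hmul u X hu hX)
    rw [h2]
    congr 2
    funext x
    ring
  have key := step_abc (T := fun t : ℝ => th t) (P := fun t : ℝ => ph t) (S := fun t : ℝ => ps t)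
    (f := fun t : ℝ => fX g (fun _ => 1) eta t) (ft := fun t : ℝ => fX g th eta t)
    (fp := fun t : ℝ => fX g ph eta t) (fs := fun t : ℝ => fX g ps eta t)
    (hD _ n1) (hD _ nt) (hD _ np) (hD _ ns) (hBc _ hth) (hBc _ hph) hth1
    (fun t => hph.le t (by simp)) hpsr
    (pair th hth _ nt) (pair ph hph _ np) (pair ps hps _ ns)
    (pair ps hps (fun z => ph z * fX g th eta z - fX g ps eta z)
      (hsub _ _ (hmul _ _ nt hph) ns))
  rw [nqr, nqr, nqr, nqr, P3 g _ eta ball_one heta hg hgi, P3 g _ eta hth heta hg hgi,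
    P3 g _ eta hph heta hg hgi, P3 g _ eta hps heta hg hgi] at key
  have hpi := Real.pi_pos
  have h5 : 0 ≤ (2 * Real.pi) * (NX g (fun _ => 1) eta - NX g th eta - NX g ph eta +
      NX g ps eta) := by linarith
  exact nonneg_of_mul_nonneg_right h5 (by positivity)

end Pool.Agent.Weyl
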