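import Pool.Agent.Lib.MP_38bb4c_an.Converse5
import Pool.Agent.Lib.MP_38bb4c_an.Final

/-!
# Zero free half planes from the positivity of one kernel `K w`
-/

open Complex MeasureTheory Set Filter Topology

namespace Pool.Agent.Weyl

theorem XiData.exists_Xi_zero (H : XiData) (s : ℂ) (hs : 0 < s.re) (h : riemannZeta s = 0) :
    ∃ z : ℂ, Xi z = 0 ∧ z.im = 1 / 2 - s.re := by
  set z : ℂ := -I * (s - 1 / 2) with hz
  have hsz : (1 : ℂ) / 2 + I * z = s := by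
    rw [hz, ← mul_assoc, mul_neg, Complex.I_mul_I]
    ring
  have hs0 : s ≠ 0 := by
    intro h0
    rw [h0] at hs
    simp at hs
  have hs1 : s ≠ 1 := by
    intro h1
    rw [h1] at h
    exact riemannZeta_one_ne_zero h
  have hG : Gammaℝ s ≠ 0 := Complex.Gammaℝ_ne_zero_of_re_pos hs
  have hL : completedRiemannZeta s = 0 := by
    rw [riemannZeta_def_of_ne_zero hs0, div_eq_zero_iff] at h
    exact h.resolve_right hG
  refine ⟨z, ?_, ?_⟩
  · rw [H.Xi_eq_zero_iff, hsz]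
    exact ⟨hs0, hs1, hL⟩
  · rw [hz]
    simp

/-- Positivity of the single kernel `K w` gives a zero free half plane. -/
theorem XiData.zeta_ne (H : XiData) (w : ℝ) (h : PSD (K w)) (s : ℂ)
    (hs : 1 / 2 + 2 * |w| < s.re) : riemannZeta s ≠ 0 := by
  intro h0
  have hw := abs_nonneg w
  obtain ⟨z, hz, him⟩ := H.exists_Xi_zero s (by linarith) h0
  have h1 := H.zeros_two w h z hz
  rw [him, abs_of_nonpos (by linarith)] at h1
  linarith

/-- The closed half plane, for `w ≠ 0`. -/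
theorem XiData.zeta_ne' (H : XiData) (w : ℝ) (hw : w ≠ 0) (h : PSD (K w)) (s : ℂ)
    (hs : 1 / 2 + 2 * |w| ≤ s.re) : riemannZeta s ≠ 0 := by
  intro h0
  have hw' := abs_pos.mpr hw
  obtain ⟨z, hz, him⟩ := H.exists_Xi_zero s (by linarith) h0
  have h1 := H.zeros_two_lt w hw h z hz
  rw [him, abs_of_nonpos (by linarith)] at h1
  linarith

/-- The full theorem. -/
theorem final2 :
    ((∀ w : ℝ, |w| < 1 / 2 → PSD (K w)) ↔ RiemannHypothesis) ∧
    (PSD (K 0) ↔ RiemannHypothesis) ∧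
    (∀ w : ℝ, |w| < 3 / 2 → (∀ s : ℂ, 1 / 2 + |w| < s.re → riemannZeta s ≠ 0) → PSD (K w)) ∧
    (∀ w : ℝ, PSD (K w) → ∀ s : ℂ, 1 / 2 + 2 * |w| < s.re → riemannZeta s ≠ 0) ∧
    (∀ w : ℝ, w ≠ 0 → PSD (K w) → ∀ s : ℂ, 1 / 2 + 2 * |w| ≤ s.re → riemannZeta s ≠ 0) := by
  obtain ⟨h1, h2, h3⟩ := final
  exact ⟨h1, h2, h3, xiData.zeta_ne, xiData.zeta_ne'⟩

end Pool.Agent.Weyl
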